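import Mathlib
import Pool.Agent.R537.RN.Block

/-!
# An effective algebraic relation between `n + 1` rational functions of `n` variables
-/

set_option autoImplicit false

namespace Pool.Agent.U7.Iso

open Finset Pool.Agent.H612 Pool.Agent.R537.RN

section siegel

attribute [local instance] Matrix.seminormedAddCommGroup

/-- Siegel's lemma, with natural number bounds. -/
theorem siegel {α β : Type} [Fintype α] [Fintype β] (A : Matrix α β ℤ) (a : ℕ) (ha : 1 ≤ a)
    (hA : ∀ i j, (A i j).natAbs ≤ a) (hm : 0 < Fintype.card α)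
    (hn : 2 * Fintype.card α ≤ Fintype.card β) :
    ∃ t : β → ℤ, t ≠ 0 ∧ A.mulVec t = 0 ∧ ∀ j, (t j).natAbs ≤ Fintype.card β * a := by
  obtain ⟨t, h0, h1, h2⟩ := Int.Matrix.exists_ne_zero_int_vec_norm_le A (by omega) hm
  refine ⟨t, h0, h1, fun j => ?_⟩
  have ha' : (1 : ℝ) ≤ a := by exact_mod_cast ha
  have hA' : ‖A‖ ≤ (a : ℝ) := by
    rw [Matrix.norm_le_iff (by positivity)]
    intro i j
    rw [Int.norm_eq_abs, ← Int.cast_abs, Int.abs_eq_natAbs]
    exact_mod_cast hA i j
  have hβ : (1 : ℝ) ≤ Fintype.card β := by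
    have : 1 ≤ Fintype.card β := by omega
    exact_mod_cast this
  have hmx : max 1 ‖A‖ ≤ (a : ℝ) := max_le ha' hA'
  have hmx1 : (1 : ℝ) ≤ max 1 ‖A‖ := le_max_left _ _
  have hb1 : 1 ≤ (Fintype.card β : ℝ) * max 1 ‖A‖ := by nlinarith
  have hmn : (2 : ℝ) * Fintype.card α ≤ Fintype.card β := by exact_mod_cast hn
  have hmp : (0 : ℝ) < Fintype.card α := by exact_mod_cast hm
  have he : (Fintype.card α : ℝ) / (Fintype.card β - Fintype.card α) ≤ 1 := by
    rw [div_le_one (by linarith)]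
    linarith
  have h3 : ‖t j‖ ≤ ((Fintype.card β * a : ℕ) : ℝ) := by
    refine (norm_le_pi_norm t j).trans (h2.trans ?_)
    refine (Real.rpow_le_rpow_of_exponent_le hb1 he).trans ?_
    rw [Real.rpow_one]
    push_cast
    exact mul_le_mul_of_nonneg_left hmx (by positivity)
  rw [Int.norm_eq_abs, ← Int.cast_abs, Int.abs_eq_natAbs] at h3
  exact_mod_cast h3

end siegel

/-- The exponent vector of a function. -/
noncomputable def toF {ι : Type} [Fintype ι] {L : ℕ} (β : ι → Fin (L + 1)) : ι →₀ ℕ :=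
  Finsupp.equivFunOnFinite.symm fun j => (β j : ℕ)

@[simp] theorem toF_apply {ι : Type} [Fintype ι] {L : ℕ} (β : ι → Fin (L + 1)) (j : ι) :
    toF β j = (β j : ℕ) := rfl

theorem toF_inj {ι : Type} [Fintype ι] {L : ℕ} : Function.Injective
    (toF : (ι → Fin (L + 1)) → (ι →₀ ℕ)) := by
  intro a b h
  funext j
  have := DFunLike.congr_fun h j
  simp only [toF_apply] at this
  exact Fin.ext this

/-- **An effective algebraic relation.** -/
theorem relation {n : ℕ} {ι : Type} [Fintype ι] [DecidableEq ι] (hι : n < Fintype.card ι)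
    (p : ι → MvPolynomial (Fin n) ℤ) (Δ : MvPolynomial (Fin n) ℤ) (h L : ℕ)
    (hp : ∀ j, (wm RNorm.int n).ν (p j) ≤ 2 ^ h) (hΔ : (wm RNorm.int n).ν Δ ≤ 2 ^ h)
    (hL : 2 * (h * Fintype.card ι + 1) ^ n ≤ L + 1) :
    ∃ q : MvPolynomial ι ℤ, q ≠ 0 ∧ (∀ α ∈ q.support, ∀ j, α j ≤ L) ∧
      RNorm.int.mν q ≤ ((L + 1) ^ Fintype.card ι) ^ 2 * 2 ^ (h * Fintype.card ι * L) ∧
      ∀ (y : Fin n → ℝ) (f : ι → ℝ), MvPolynomial.aeval y Δ ≠ 0 →
        (∀ j, f j * MvPolynomial.aeval y Δ = MvPolynomial.aeval y (p j)) →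
        MvPolynomial.aeval f q = 0 := by
  classical
  obtain ⟨m, hm⟩ : ∃ m, m = Fintype.card ι := ⟨_, rfl⟩
  rw [← hm] at hι hL ⊢
  obtain ⟨D, hD⟩ : ∃ D, D = h * m * L := ⟨_, rfl⟩
  rw [← hD]
  have hαsum : ∀ α : ι → Fin (L + 1), ∑ j, (α j : ℕ) ≤ m * L := by
    intro α
    calc ∑ j, (α j : ℕ) ≤ ∑ _j : ι, L := Finset.sum_le_sum fun j _ => by
          have := (α j).isLt; omega
      _ = m * L := by simp [hm, Finset.card_univ]
  obtain ⟨P, hP⟩ : ∃ P : (ι → Fin (L + 1)) → MvPolynomial (Fin n) ℤ, ∀ α, P α =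
      (∏ j, p j ^ (α j : ℕ)) * Δ ^ (m * L - ∑ j, (α j : ℕ)) := ⟨_, fun _ => rfl⟩
  have hPν : ∀ α, (wm RNorm.int n).ν (P α) ≤ 2 ^ D := by
    intro α
    have hpow : ∀ (a : MvPolynomial (Fin n) ℤ) (k : ℕ), (wm RNorm.int n).ν a ≤ 2 ^ h →
        (wm RNorm.int n).ν (a ^ k) ≤ 2 ^ (h * k) := by
      intro a k ha
      induction k with
      | zero => simpa using (wm RNorm.int n).one
      | succ k ih =>
        rw [pow_succ, mul_add, mul_one, pow_add]
        exact ((wm RNorm.int n).mul _ _).trans (Nat.mul_le_mul ih ha)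
    rw [hP]
    refine ((wm RNorm.int n).mul _ _).trans ?_
    refine (Nat.mul_le_mul ((wm RNorm.int n).prod _ _) (hpow _ _ hΔ)).trans ?_
    refine (Nat.mul_le_mul_right _ (Finset.prod_le_prod' fun j _ => hpow _ _ (hp j))).trans ?_
    rw [Finset.prod_pow_eq_pow_sum, ← pow_add, ← Finset.mul_sum, ← mul_add, hD]
    refine Nat.pow_le_pow_right (by norm_num) ?_
    have := hαsum α
    rw [Nat.add_sub_cancel' this, mul_assoc]
  have hPsupp : ∀ α, ∀ d ∈ (P α).support, ∀ j, d j ≤ D := by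
    intro α d hd j
    have h1 := two_pow_le_wν RNorm.int (fun c hc => Int.natAbs_pos.2 hc) hd
    have h2 : ∑ j, d j ≤ D := (Nat.pow_le_pow_iff_right (by norm_num)).1 (h1.trans (hPν α))
    exact (Finset.single_le_sum (f := fun j => d j) (fun _ _ => Nat.zero_le _) (mem_univ j)).trans
      h2
  have hcoef : ∀ α d, ((P α).coeff d).natAbs ≤ 2 ^ D := by
    intro α d
    refine le_trans ?_ (hPν α)
    refine le_trans ?_ (mν_le_wν RNorm.int (P α))
    unfold RNorm.mν
    by_cases hd : d ∈ (P α).support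
    · exact Finset.single_le_sum (f := fun d => RNorm.int.ν ((P α).coeff d))
        (fun _ _ => Nat.zero_le _) hd
    · rw [MvPolynomial.notMem_support_iff.1 hd]; simp
  obtain ⟨t, ht0, ht1, ht2⟩ := siegel
    (Matrix.of fun (β : Fin n → Fin (D + 1)) (α : ι → Fin (L + 1)) => (P α).coeff (toF β))
    (2 ^ D) Nat.one_le_two_pow (fun β α => hcoef α _)
    (by simp [Fintype.card_pos_iff]) (by
      simp only [Fintype.card_pi, Fintype.card_fin, Finset.prod_const, Finset.card_univ, ← hm]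
      have h1 : D + 1 ≤ (h * m + 1) * (L + 1) := by rw [hD]; nlinarith
      calc 2 * (D + 1) ^ n ≤ 2 * ((h * m + 1) * (L + 1)) ^ n :=
            Nat.mul_le_mul_left _ (Nat.pow_le_pow_left h1 n)
        _ = (2 * (h * m + 1) ^ n) * (L + 1) ^ n := by rw [mul_pow]; ring
        _ ≤ (L + 1) * (L + 1) ^ n := Nat.mul_le_mul_right _ hL
        _ = (L + 1) ^ (n + 1) := by rw [pow_succ]; ring
        _ ≤ (L + 1) ^ m := Nat.pow_le_pow_right (by omega) hι)
  have hcard : Fintype.card (ι → Fin (L + 1)) = (L + 1) ^ m := by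
    simp [Finset.card_univ, hm]
  rw [hcard] at ht2
  have hPt : ∑ α, MvPolynomial.C (t α) * P α = 0 := by
    ext d
    rw [MvPolynomial.coeff_sum, MvPolynomial.coeff_zero]
    simp only [MvPolynomial.coeff_C_mul]
    by_cases hd : ∀ j, d j ≤ D
    · have h1 := congrFun ht1 (fun j => ⟨d j, Nat.lt_succ_of_le (hd j)⟩)
      simp only [Matrix.mulVec, dotProduct, Matrix.of_apply, Pi.zero_apply] at h1
      have h2 : toF (fun j => (⟨d j, Nat.lt_succ_of_le (hd j)⟩ : Fin (D + 1))) = d := by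
        ext j; simp
      rw [h2] at h1
      rw [← h1]
      exact Finset.sum_congr rfl fun α _ => mul_comm _ _
    · refine Finset.sum_eq_zero fun α _ => ?_
      have : d ∉ (P α).support := fun hd' => hd (hPsupp α d hd')
      rw [MvPolynomial.notMem_support_iff.1 this, mul_zero]
  obtain ⟨q, hq⟩ : ∃ q : MvPolynomial ι ℤ, q = ∑ α : ι → Fin (L + 1),
      MvPolynomial.monomial (toF α) (t α) := ⟨_, rfl⟩
  have hqc : ∀ α : ι → Fin (L + 1), q.coeff (toF α) = t α := by
    intro α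
    rw [hq, MvPolynomial.coeff_sum]
    simp only [MvPolynomial.coeff_monomial]
    rw [Finset.sum_eq_single α]
    · simp
    · intro β _ hβ
      rw [if_neg fun h => hβ (toF_inj h)]
    · simp
  refine ⟨q, ?_, ?_, ?_, ?_⟩
  · intro h0
    apply ht0
    funext α
    rw [← hqc, h0]; simp
  · intro d hd j
    rw [hq] at hd
    have h1 := MvPolynomial.support_sum hd
    rw [Finset.mem_biUnion] at h1
    obtain ⟨α, _, hα⟩ := h1
    have h2 := MvPolynomial.support_monomial_subset hα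
    rw [Finset.mem_singleton] at h2
    rw [h2, toF_apply]
    have := (α j).isLt
    omega
  · rw [hq]
    refine (RNorm.int.mν_sum _ _).trans ?_
    have h1 : ∀ α ∈ (univ : Finset (ι → Fin (L + 1))),
        RNorm.int.mν (MvPolynomial.monomial (toF α) (t α)) ≤ (L + 1) ^ m * 2 ^ D := by
      intro α _
      rw [RNorm.mν_monomial]
      exact ht2 α
    refine (Finset.sum_le_sum h1).trans ?_
    rw [Finset.sum_const, Finset.card_univ, hcard, smul_eq_mul, sq, mul_assoc]
  · intro y f hy hf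
    have h1 : MvPolynomial.aeval y Δ ^ (m * L) * MvPolynomial.aeval f q = 0 := by
      have h2 := congrArg (MvPolynomial.aeval y) hPt
      rw [map_sum, map_zero] at h2
      rw [← h2, hq, map_sum, Finset.mul_sum]
      refine Finset.sum_congr rfl fun α _ => ?_
      rw [MvPolynomial.aeval_monomial, hP, map_mul, map_mul, map_pow, map_prod]
      simp only [map_pow]
      have h3 : (toF α).prod (fun i k => f i ^ k) = ∏ j, f j ^ (α j : ℕ) := by
        rw [Finsupp.prod_fintype _ _ fun i => pow_zero _]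
        rfl
      rw [h3]
      have h4 : ∏ j, (MvPolynomial.aeval y) (p j) ^ (α j : ℕ) =
          (∏ j, f j ^ (α j : ℕ)) * MvPolynomial.aeval y Δ ^ (∑ j, (α j : ℕ)) := by
        rw [← Finset.prod_pow_eq_pow_sum, ← Finset.prod_mul_distrib]
        refine Finset.prod_congr rfl fun j _ => ?_
        rw [← hf, mul_pow]
      rw [h4]
      have h5 : MvPolynomial.aeval y Δ ^ (m * L) = MvPolynomial.aeval y Δ ^ (∑ j, (α j : ℕ)) *
          MvPolynomial.aeval y Δ ^ (m * L - ∑ j, (α j : ℕ)) := by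
        rw [← pow_add, Nat.add_sub_cancel' (hαsum α)]
      rw [h5]
      simp only [MvPolynomial.aeval_C]
      ring
    exact (mul_eq_zero.1 h1).resolve_left (pow_ne_zero _ hy)

end Pool.Agent.U7.Iso
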