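import Mathlib
import Pool.Agent.U7.Iso.Count

/-!
# The polynomials of the game, over an arbitrary commutative ring
-/

set_option autoImplicit false

namespace Pool.Agent.U7.Iso

open Finset Pool.Agent.H612 Pool.Agent.R537.RN

/-- The data of a game. -/
structure Dat (N : ℕ) where
  /-- the weights -/
  w : Fin N → ℕ
  /-- the polynomial -/
  G : MvPolynomial (Fin N) ℤ
  /-- the exponent -/
  K : ℕ

/-- Indices of the homogeneous coordinates. -/
abbrev J (N : ℕ) : Type := Option (Option (Fin N))

/-- Triples of indices. -/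
abbrev T3 (N : ℕ) : Type := J N × J N × J N

/-- The parameters. -/
abbrev Pm (N : ℕ) : Type := T3 N ⊕ Option (Fin N)

/-- The unknowns; also the equations. -/
abbrev Un (r N : ℕ) : Type := Option (Fin r) × Option (Fin N)

section

variable {N r : ℕ} {R : Type} [CommRing R] (D : Dat N)

/-- The value of the polynomial. -/
noncomputable def gv (v : Fin N → R) : R := MvPolynomial.aeval v D.G

/-- The derivative of the polynomial. -/
noncomputable def dg (v : Fin N → R) (l : Fin N) : R :=
  MvPolynomial.aeval v (MvPolynomial.pderiv l D.G)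

/-- The quadratic coordinate. -/
noncomputable def Hv (v : Fin N → R) : R := ∑ l, (D.w l : R) * v l ^ 2 + gv D v

/-- Its derivative. -/
noncomputable def dH (v : Fin N → R) (l : Fin N) : R := 2 * (D.w l : R) * v l + dg D v l

/-- The homogeneous coordinates. -/
noncomputable def zt (v : Fin N → R) : J N → R
  | none => 1
  | some none => Hv D v
  | some (some l) => v l

/-- The derivatives of the homogeneous coordinates. -/
noncomputable def dz (v : Fin N → R) (l : Fin N) : J N → R
  | none => 0
  | some none => dH D v l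
  | some (some l') => if l' = l then 1 else 0

/-- The penalty. -/
noncomputable def bt (ε : R) (x v : Fin N → R) : R :=
  ∑ l, (D.w l : R) * (x l - v l) ^ 2 + gv D v + ε

/-- The derivative of the penalty. -/
noncomputable def dbt (x v : Fin N → R) (l : Fin N) : R := dH D v l - 2 * (D.w l : R) * x l

/-- One plus the sum of the squares. -/
def q1 (v : Fin N → R) : R := 1 + ∑ l, v l ^ 2

/-- A cubic monomial. -/
def mon (z : J N → R) (t : T3 N) : R := z t.1 * z t.2.1 * z t.2.2

/-- The derivative of a cubic monomial. -/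
def dmon (z z' : J N → R) (t : T3 N) : R :=
  z' t.1 * z t.2.1 * z t.2.2 + z t.1 * z' t.2.1 * z t.2.2 + z t.1 * z t.2.1 * z' t.2.2

/-- The first constant. -/
def C0 (N : ℕ) : ℕ := (N + 2) ^ 3 + 1

/-- The positive weight. -/
noncomputable def Mf (P : Pm N → R) (v : Fin N → R) : R :=
  (C0 N : R) * (∑ a, zt D v a ^ 2) ^ 2 + ∑ t, P (Sum.inl t) * mon (zt D v) t

/-- Its derivative. -/
noncomputable def dM (P : Pm N → R) (v : Fin N → R) (l : Fin N) : R :=
  (C0 N : R) * (2 * (∑ a, zt D v a ^ 2) * ∑ a, 2 * (zt D v a * dz D v l a)) +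
    ∑ t, P (Sum.inl t) * dmon (zt D v) (dz D v l) t

/-- The normalisation in `x`. -/
def nf (P : Pm N → R) (x : Fin N → R) : R :=
  ((N + 2 : ℕ) : R) * q1 x ^ 2 + (P (Sum.inr none) + ∑ l, P (Sum.inr (some l)) * x l)

/-- Its derivative. -/
def dn (P : Pm N → R) (x : Fin N → R) (l : Fin N) : R :=
  ((N + 2 : ℕ) : R) * (4 * q1 x * x l) + P (Sum.inr (some l))

/-- The main function. -/
noncomputable def fi (P : Pm N → R) (ε : R) (x v : Fin N → R) : R :=
  Mf D P v * q1 v ^ D.K * bt D ε x v

/-- The reduced derivative of the main function. -/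
noncomputable def dfi (P : Pm N → R) (ε : R) (x v : Fin N → R) (l : Fin N) : R :=
  q1 v * (bt D ε x v * dM D P v l + Mf D P v * dbt D x v l) +
    2 * (D.K : R) * (Mf D P v * bt D ε x v * v l)

/-- The system. -/
noncomputable def Sys (Z : Un r N → R) (P : Pm N → R) (ε : R) : Un r N → R
  | (some i, none) => fi D P ε (fun l => Z (none, some l)) (fun l => Z (some i, some l)) -
      Z (none, none) * nf P (fun l => Z (none, some l))
  | (some i, some l) => dfi D P ε (fun l => Z (none, some l)) (fun l => Z (some i, some l)) l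
  | (none, some l) => 2 * (∑ i, Z (some i, none) * ((D.w l : R) *
      (Z (none, some l) - Z (some i, some l)))) - dn P (fun l => Z (none, some l)) l
  | (none, none) => ∑ i, Z (some i, none) * bt D ε (fun l => Z (none, some l))
      (fun l => Z (some i, some l)) - nf P (fun l => Z (none, some l))

/-- The matrix of the coefficients of the parameters. -/
noncomputable def Am (Z : Un r N → R) (ε : R) : Un r N → Pm N → R
  | (some i, none), Sum.inl t => mon (zt D fun l => Z (some i, some l)) t *
      q1 (fun l => Z (some i, some l)) ^ D.K *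
        bt D ε (fun l => Z (none, some l)) (fun l => Z (some i, some l))
  | (some _, none), Sum.inr none => - Z (none, none)
  | (some _, none), Sum.inr (some l) => - (Z (none, none) * Z (none, some l))
  | (some i, some l), Sum.inl t => q1 (fun l => Z (some i, some l)) *
      (bt D ε (fun l => Z (none, some l)) (fun l => Z (some i, some l)) *
        dmon (zt D fun l => Z (some i, some l)) (dz D (fun l => Z (some i, some l)) l) t +
      mon (zt D fun l => Z (some i, some l)) t *
        dbt D (fun l => Z (none, some l)) (fun l => Z (some i, some l)) l) +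
      2 * (D.K : R) * (mon (zt D fun l => Z (some i, some l)) t *
        bt D ε (fun l => Z (none, some l)) (fun l => Z (some i, some l)) * Z (some i, some l))
  | (some _, some _), Sum.inr _ => 0
  | (none, some _), Sum.inl _ => 0
  | (none, some _), Sum.inr none => 0
  | (none, some l), Sum.inr (some l') => if l' = l then -1 else 0
  | (none, none), Sum.inl _ => 0
  | (none, none), Sum.inr none => -1
  | (none, none), Sum.inr (some l) => - Z (none, some l)

theorem bt_eq (ε : R) (x v : Fin N → R) : bt D ε x v =
    ∑ l, (D.w l : R) * x l ^ 2 - 2 * ∑ l, (D.w l : R) * (x l * v l) + Hv D v + ε := by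
  unfold bt Hv
  rw [Finset.mul_sum, ← add_assoc, ← Finset.sum_sub_distrib, ← Finset.sum_add_distrib]
  congr 2
  refine Finset.sum_congr rfl fun l _ => ?_
  ring

/-- The system is affine in the parameters. -/
theorem Sys_eq (Z : Un r N → R) (P : Pm N → R) (ε : R) (e : Un r N) :
    Sys D Z P ε e = ∑ p, Am D Z ε e p * P p + Sys D Z 0 ε e := by
  rw [Fintype.sum_sum_type, Fintype.sum_option]
  rcases e with ⟨_ | i, _ | l⟩
  · simp only [Sys, Am, nf, Pi.zero_apply, zero_mul, Finset.sum_const_zero, zero_add, add_zero,
      neg_mul, one_mul, Finset.sum_neg_distrib]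
    have : ∑ l, P (Sum.inr (some l)) * Z (none, some l) =
        ∑ l, Z (none, some l) * P (Sum.inr (some l)) :=
      Finset.sum_congr rfl fun _ _ => mul_comm _ _
    rw [this]
    ring
  · simp only [Sys, Am, dn, Pi.zero_apply, zero_mul, Finset.sum_const_zero, zero_add, add_zero,
      ite_mul, neg_mul, one_mul, Finset.sum_ite_eq', Finset.mem_univ, if_true]
    ring
  · simp only [Sys, Am, fi, Mf, nf, Pi.zero_apply, zero_mul, Finset.sum_const_zero, add_zero,
      Finset.sum_neg_distrib, neg_mul]
    have h1 : ∀ y : R, ∀ B : R, ∑ t, mon (zt D fun l => Z (some i, some l)) t * y * B *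
        P (Sum.inl t) = (∑ t, P (Sum.inl t) * mon (zt D fun l => Z (some i, some l)) t) * y * B := by
      intro y B
      rw [Finset.sum_mul, Finset.sum_mul]
      exact Finset.sum_congr rfl fun _ _ => by ring
    have h2 : ∑ l, Z (none, none) * Z (none, some l) * P (Sum.inr (some l)) =
        Z (none, none) * ∑ l, P (Sum.inr (some l)) * Z (none, some l) := by
      rw [Finset.mul_sum]
      exact Finset.sum_congr rfl fun _ _ => by ring
    rw [h1, h2]
    ring
  · simp only [Sys, Am, dfi, dM, Mf, Pi.zero_apply, zero_mul, Finset.sum_const_zero, add_zero]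
    have h1 : ∀ q B β k y : R, ∑ t, (q * (B * dmon (zt D fun l => Z (some i, some l))
        (dz D (fun l => Z (some i, some l)) l) t + mon (zt D fun l => Z (some i, some l)) t * β) +
        k * (mon (zt D fun l => Z (some i, some l)) t * B * y)) * P (Sum.inl t) =
        q * (B * (∑ t, P (Sum.inl t) * dmon (zt D fun l => Z (some i, some l))
          (dz D (fun l => Z (some i, some l)) l) t) +
          (∑ t, P (Sum.inl t) * mon (zt D fun l => Z (some i, some l)) t) * β) +
        k * ((∑ t, P (Sum.inl t) * mon (zt D fun l => Z (some i, some l)) t) * B * y) := by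
      intro q B β k y
      simp only [Finset.mul_sum, Finset.sum_mul, ← Finset.sum_add_distrib]
      exact Finset.sum_congr rfl fun _ _ => by ring
    rw [h1]
    ring

section map

variable {S : Type} [CommRing S] (f : R →+* S)

theorem gv_map (v : Fin N → R) : f (gv D v) = gv D (fun l => f (v l)) := by
  unfold gv
  rw [MvPolynomial.aeval_def, MvPolynomial.aeval_def, MvPolynomial.hom_eval₂]
  congr 1
  exact RingHom.ext_int _ _

theorem dg_map (v : Fin N → R) (l : Fin N) : f (dg D v l) = dg D (fun l => f (v l)) l := by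
  unfold dg
  rw [MvPolynomial.aeval_def, MvPolynomial.aeval_def, MvPolynomial.hom_eval₂]
  congr 1
  exact RingHom.ext_int _ _

theorem Hv_map (v : Fin N → R) : f (Hv D v) = Hv D (fun l => f (v l)) := by
  simp [map_ofNat, Hv, gv_map]

theorem dH_map (v : Fin N → R) (l : Fin N) : f (dH D v l) = dH D (fun l => f (v l)) l := by
  simp [map_ofNat, dH, dg_map]

theorem zt_map (v : Fin N → R) (a : J N) : f (zt D v a) = zt D (fun l => f (v l)) a := by
  rcases a with _ | _ | l <;> simp [map_ofNat, zt, Hv_map]

theorem dz_map (v : Fin N → R) (l : Fin N) (a : J N) :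
    f (dz D v l a) = dz D (fun l => f (v l)) l a := by
  rcases a with _ | _ | l'
  · simp [map_ofNat, dz]
  · simp [map_ofNat, dz, dH_map]
  · simp only [dz]; split_ifs <;> simp

theorem bt_map (ε : R) (x v : Fin N → R) :
    f (bt D ε x v) = bt D (f ε) (fun l => f (x l)) (fun l => f (v l)) := by
  simp [map_ofNat, bt, gv_map]

theorem dbt_map (x v : Fin N → R) (l : Fin N) :
    f (dbt D x v l) = dbt D (fun l => f (x l)) (fun l => f (v l)) l := by
  simp [map_ofNat, dbt, dH_map]

theorem q1_map (v : Fin N → R) : f (q1 v) = q1 (fun l => f (v l)) := by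
  simp [map_ofNat, q1]

theorem mon_map (z : J N → R) (t : T3 N) : f (mon z t) = mon (fun a => f (z a)) t := by
  simp [map_ofNat, mon]

theorem dmon_map (z z' : J N → R) (t : T3 N) :
    f (dmon z z' t) = dmon (fun a => f (z a)) (fun a => f (z' a)) t := by
  simp [map_ofNat, dmon]

theorem Mf_map (P : Pm N → R) (v : Fin N → R) :
    f (Mf D P v) = Mf D (fun p => f (P p)) (fun l => f (v l)) := by
  simp [map_ofNat, Mf, zt_map, mon_map]

theorem dM_map (P : Pm N → R) (v : Fin N → R) (l : Fin N) :
    f (dM D P v l) = dM D (fun p => f (P p)) (fun l => f (v l)) l := by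
  simp [map_ofNat, dM, zt_map, dz_map, dmon_map]

theorem nf_map (P : Pm N → R) (x : Fin N → R) :
    f (nf P x) = nf (fun p => f (P p)) (fun l => f (x l)) := by
  simp [map_ofNat, nf, q1_map]

theorem dn_map (P : Pm N → R) (x : Fin N → R) (l : Fin N) :
    f (dn P x l) = dn (fun p => f (P p)) (fun l => f (x l)) l := by
  simp [map_ofNat, dn, q1_map]

theorem Sys_map (Z : Un r N → R) (P : Pm N → R) (ε : R) (e : Un r N) :
    f (Sys D Z P ε e) = Sys D (fun u => f (Z u)) (fun p => f (P p)) (f ε) e := by
  rcases e with ⟨_ | i, _ | l⟩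
  · simp [map_ofNat, Sys, bt_map, nf_map]
  · simp [map_ofNat, Sys, dn_map]
  · simp [map_ofNat, Sys, fi, Mf_map, q1_map, bt_map, nf_map]
  · simp [map_ofNat, Sys, dfi, Mf_map, q1_map, bt_map, dM_map, dbt_map]

theorem Am_map (Z : Un r N → R) (ε : R) (e : Un r N) (p : Pm N) :
    f (Am D Z ε e p) = Am D (fun u => f (Z u)) (f ε) e p := by
  rcases e with ⟨_ | i, _ | l⟩ <;> rcases p with t | _ | l'
  · simp [map_ofNat, Am]
  · simp [map_ofNat, Am]
  · simp [map_ofNat, Am]
  · simp [map_ofNat, Am]
  · simp [map_ofNat, Am]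
  · simp only [Am]; split_ifs <;> simp
  · simp [map_ofNat, Am, mon_map, zt_map, q1_map, bt_map]
  · simp [map_ofNat, Am]
  · simp [map_ofNat, Am]
  · simp [map_ofNat, Am, mon_map, dmon_map, zt_map, dz_map, q1_map, bt_map, dbt_map]
  · simp [map_ofNat, Am]
  · simp [map_ofNat, Am]

end map

end

end Pool.Agent.U7.Iso
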