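import Mathlib
import Pool.Agent.U7.Iso.Forms
import Pool.Agent.R537.RN.NFEff
import Pool.Agent.H612.EAR

/-!
# The game of a sentence
-/

set_option autoImplicit false
set_option linter.unusedSimpArgs false

namespace Pool.Agent.U7.Iso

open Finset Pool.Agent.NPC Pool.Agent.NPC.ER Pool.Agent.H612 Pool.Agent.NPC.H612
  Pool.Agent.R537.RN

section

variable {R : Type} [CommRing R]

/-- The derivative of the form of a constraint. -/
def derr (V V' : ℕ → R) : ER.Con → R
  | .one i => V' i
  | .add i j k => V' i + V' j - V' k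
  | .mul i j k => V' i * V j + V i * V' j - V' k

/-- The derivative of the sum of the squares. -/
def dqs (V V' : ℕ → R) (S : List ER.Con) : R :=
  (S.map fun c => 2 * (cerr V 1 c * derr V V' c)).sum

variable {N : ℕ} (lo : ℕ → Fin N) (S : List ER.Con)

/-- The sum of the squares, as a polynomial. -/
noncomputable def GG : MvPolynomial (Fin N) ℤ := qsum (fun i => MvPolynomial.X (lo i)) 1 S

theorem aeval_GG (v : Fin N → R) :
    MvPolynomial.aeval v (GG lo S) = qsum (fun i => v (lo i)) 1 S := by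
  have h := qsum_map (MvPolynomial.aeval (R := ℤ) v).toRingHom
    (fun i => (MvPolynomial.X (lo i) : MvPolynomial (Fin N) ℤ)) 1 S
  simpa [GG] using h

theorem aeval_dGG (v : Fin N → R) (l : Fin N) :
    MvPolynomial.aeval v (MvPolynomial.pderiv l (GG lo S)) =
      dqs (fun i => v (lo i)) (fun i => if lo i = l then 1 else 0) S := by
  classical
  unfold GG dqs
  have hX : ∀ i : ℕ, MvPolynomial.aeval v (MvPolynomial.pderiv l
      (MvPolynomial.X (lo i) : MvPolynomial (Fin N) ℤ)) = if lo i = l then (1 : R) else 0 := by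
    intro i
    by_cases h : lo i = l
    · rw [h, MvPolynomial.pderiv_X_self, map_one, if_pos rfl]
    · rw [MvPolynomial.pderiv_X_of_ne h, map_zero, if_neg h]
  induction S with
  | nil => simp
  | cons c S ih =>
    rw [qsum_cons, map_add, map_add, ih, List.map_cons, List.sum_cons]
    congr 1
    rw [sq, MvPolynomial.pderiv_mul, map_add, map_mul, map_mul]
    have h1 : MvPolynomial.aeval v (cerr (fun i => (MvPolynomial.X (lo i) :
        MvPolynomial (Fin N) ℤ)) 1 c) = cerr (fun i => v (lo i)) 1 c := by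
      have h := cerr_map (MvPolynomial.aeval (R := ℤ) v).toRingHom
        (fun i => (MvPolynomial.X (lo i) : MvPolynomial (Fin N) ℤ)) 1 c
      simpa using h
    have h2 : MvPolynomial.aeval v (MvPolynomial.pderiv l (cerr (fun i => (MvPolynomial.X (lo i) :
        MvPolynomial (Fin N) ℤ)) 1 c)) = derr (fun i => v (lo i))
          (fun i => if lo i = l then 1 else 0) c := by
      cases c with
      | one i =>
        simp only [cerr, derr, one_mul, map_sub, hX]
        simp
      | add i j k =>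
        simp only [cerr, derr, one_mul, map_sub, map_add, hX]
      | mul i j k =>
        simp only [cerr, derr, one_mul, map_sub, MvPolynomial.pderiv_mul, map_add, map_mul, hX,
          MvPolynomial.aeval_X]
    rw [h1, h2]
    ring

/-- The game. -/
noncomputable def mkD (El : List ℕ) (K : ℕ) : Dat N := ⟨fun l => El.count (l : ℕ), GG lo S, K⟩

theorem gv_mkD (El : List ℕ) (K : ℕ) (v : Fin N → R) :
    gv (mkD lo S El K) v = qsum (fun i => v (lo i)) 1 S := aeval_GG lo S v

theorem dg_mkD (El : List ℕ) (K : ℕ) (v : Fin N → R) (l : Fin N) :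
    dg (mkD lo S El K) v l = dqs (fun i => v (lo i)) (fun i => if lo i = l then 1 else 0) S :=
  aeval_dGG lo S v l

omit [CommRing R] in
theorem sum_count [CommRing R] (El : List ℕ) (hE : ∀ e ∈ El, e < N) (f : ℕ → R) :
    ∑ l : Fin N, ((El.count (l : ℕ) : ℕ) : R) * f l = (El.map f).sum := by
  induction El with
  | nil => simp
  | cons e El ih =>
    rw [List.map_cons, List.sum_cons, ← ih fun e' he' => hE e' (List.mem_cons_of_mem _ he')]
    have h1 : ∀ l : Fin N, (((e :: El).count (l : ℕ) : ℕ) : R) * f l =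
        (if (⟨e, hE e List.mem_cons_self⟩ : Fin N) = l then f l else 0) +
          ((El.count (l : ℕ) : ℕ) : R) * f l := by
      intro l
      rw [List.count_cons]
      by_cases h : e = l
      · have h2 : (⟨e, hE e List.mem_cons_self⟩ : Fin N) = l := Fin.ext h
        rw [if_pos h2]
        simp only [h, beq_self_eq_true, if_true]
        push_cast
        ring
      · have h2 : ¬ (⟨e, hE e List.mem_cons_self⟩ : Fin N) = l := fun h3 => h (by
          rw [← h3])
        rw [if_neg h2]
        simp [h]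
    simp only [h1, Finset.sum_add_distrib]
    congr 1
    simp

theorem bt_mkD (El : List ℕ) (hE : ∀ e ∈ El, e < N) (K : ℕ) (ε : R) (x v : ℕ → R) :
    bt (mkD lo S El K) ε (fun l => x l) (fun l => v l) =
      (El.map fun e => (x e - v e) ^ 2).sum + qsum (fun i => v (lo i)) 1 S + ε := by
  unfold bt
  rw [gv_mkD]
  congr 2
  exact sum_count El hE fun e => (x e - v e) ^ 2

end

section real

variable {N : ℕ} (lo : ℕ → Fin N) (S : List ER.Con) (El : List ℕ) (hE : ∀ e ∈ El, e < N) (K : ℕ)

theorem gv_nonneg (v : Fin N → ℝ) : 0 ≤ gv (mkD lo S El K) v := by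
  rw [gv_mkD]; exact qsum_nonneg _ _ _

/-- Extension of a vector by zeros. -/
def exV {N : ℕ} (v : Fin N → ℝ) (i : ℕ) : ℝ := if h : i < N then v ⟨i, h⟩ else 0

theorem exV_eq {N : ℕ} (v : Fin N → ℝ) : (fun l : Fin N => exV v l) = v := by
  funext l; simp [exV]

theorem exV_fin {N : ℕ} (v : Fin N → ℝ) (l : Fin N) : exV v l = v l := by
  simp [exV]

include hE

theorem bt_zero_iff (x v : Fin N → ℝ) : bt (mkD lo S El K) 0 x v = 0 ↔
    (∀ e ∈ El, exV x e = exV v e) ∧ SysHolds (fun i => v (lo i)) S := by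
  have h1 := bt_mkD lo S El hE K 0 (exV x) (exV v)
  rw [exV_eq, exV_eq] at h1
  have h2 : (fun i => exV v (lo i : ℕ)) = fun i => v (lo i) := by
    funext i; exact exV_fin v _
  rw [h2] at h1
  rw [h1, add_zero, ← qsum_one_iff]
  have h3 : 0 ≤ (El.map fun e => (exV x e - exV v e) ^ 2).sum := by
    apply List.sum_nonneg
    intro a ha
    rw [List.mem_map] at ha
    obtain ⟨e, _, rfl⟩ := ha
    exact sq_nonneg _
  have h4 := qsum_nonneg (fun i => v (lo i)) 1 S
  have h5 : (El.map fun e => (exV x e - exV v e) ^ 2).sum = 0 ↔ ∀ e ∈ El, exV x e = exV v e := by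
    clear h1 hE h3
    induction El with
    | nil => simp
    | cons e El ih =>
      have h6 : 0 ≤ (El.map fun e => (exV x e - exV v e) ^ 2).sum := by
        apply List.sum_nonneg
        intro a ha
        rw [List.mem_map] at ha
        obtain ⟨e, _, rfl⟩ := ha
        exact sq_nonneg _
      rw [List.map_cons, List.sum_cons, List.forall_mem_cons, ← ih]
      constructor
      · intro h
        have h7 := sq_nonneg (exV x e - exV v e)
        have h8 : (exV x e - exV v e) ^ 2 = 0 := by linarith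
        exact ⟨sub_eq_zero.1 (pow_eq_zero_iff (two_ne_zero) |>.1 h8), by linarith⟩
      · rintro ⟨h7, h8⟩
        rw [h7, h8]
        ring
  constructor
  · intro h
    exact ⟨h5.1 (by linarith), by linarith⟩
  · rintro ⟨h6, h7⟩
    rw [h5.2 h6, h7, add_zero]

/-! ### The Łojasiewicz inequality -/

/-- Renaming the variables. -/
def ren (f : ℕ → ℕ) : ER.Con → ER.Con
  | .one i => .one (f i)
  | .add i j k => .add (f i) (f j) (f k)
  | .mul i j k => .mul (f i) (f j) (f k)

omit hE in
theorem cerr_ren (f : ℕ → ℕ) (V : ℕ → ℝ) (w : ℝ) (c : ER.Con) :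
    cerr V w (ren f c) = cerr (fun i => V (f i)) w c := by
  cases c <;> rfl

omit hE in
theorem qsum_append (V : ℕ → ℝ) (w : ℝ) (S S' : List ER.Con) :
    qsum V w (S ++ S') = qsum V w S + qsum V w S' := by
  simp [qsum]

omit hE in
theorem qsum_ren (f : ℕ → ℕ) (V : ℕ → ℝ) (w : ℝ) (S : List ER.Con) :
    qsum V w (S.map (ren f)) = qsum (fun i => V (f i)) w S := by
  unfold qsum
  rw [List.map_map]
  congr 1
  refine List.map_congr_left fun c _ => ?_
  simp [cerr_ren]

/-- The extended system. -/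
def S1 : List ER.Con := S.map (ren fun i => (lo i : ℕ)) ++
  (ER.Con.add N N N :: El.map fun e => ER.Con.add (N + 1 + e) N e)

omit hE in
theorem length_S1 : (S1 lo S El).length = S.length + (1 + El.length) := by
  simp [S1]; ring

/-- The places. -/
def loc1 (N : ℕ) (i : ℕ) : Fin N ⊕ (Fin 0 ⊕ Fin (N + 1)) :=
  if h : i < N + 1 then Sum.inr (Sum.inr ⟨i, h⟩)
  else if h : i - (N + 1) < N then Sum.inl ⟨i - (N + 1), h⟩ else Sum.inr (Sum.inr ⟨0, by omega⟩)

theorem qsum_S1 (x v : Fin N → ℝ) :
    qsum (pick (loc1 N) x (fun _ => 0) (Fin.snoc v 0 : Fin (N + 1) → ℝ)) 1 (S1 lo S El) =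
      bt (mkD lo S El K) 0 x v := by
  have h1 := bt_mkD lo S El hE K 0 (exV x) (exV v)
  rw [exV_eq, exV_eq] at h1
  rw [h1, S1, qsum_append, qsum_ren, qsum_cons]
  have p1 : ∀ i < N, pick (loc1 N) x (fun _ => 0) (Fin.snoc v 0 : Fin (N + 1) → ℝ) i =
      exV v i := by
    intro i hi
    unfold pick loc1 exV
    rw [dif_pos (by omega), dif_pos hi]
    simp only [Sum.elim_inr]
    have : (⟨i, by omega⟩ : Fin (N + 1)) = Fin.castSucc ⟨i, hi⟩ := rfl
    rw [this, Fin.snoc_castSucc]
  have p2 : pick (loc1 N) x (fun _ => 0) (Fin.snoc v 0 : Fin (N + 1) → ℝ) N = 0 := by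
    unfold pick loc1
    rw [dif_pos (by omega)]
    simp only [Sum.elim_inr]
    have : (⟨N, by omega⟩ : Fin (N + 1)) = Fin.last N := rfl
    rw [this, Fin.snoc_last]
  have p3 : ∀ i < N, pick (loc1 N) x (fun _ => 0) (Fin.snoc v 0 : Fin (N + 1) → ℝ) (N + 1 + i) =
      exV x i := by
    intro i hi
    unfold pick loc1 exV
    rw [dif_neg (by omega), dif_pos (by omega), dif_pos hi]
    simp only [Sum.elim_inl]
    congr 1
    exact Fin.ext (by simp)
  have e1 : (fun i => pick (loc1 N) x (fun _ => 0) (Fin.snoc v 0 : Fin (N + 1) → ℝ)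
      ((lo i : Fin N) : ℕ)) = fun i => exV v (lo i : ℕ) := by
    funext i
    exact p1 _ (lo i).2
  rw [e1]
  have e2 : qsum (pick (loc1 N) x (fun _ => 0) (Fin.snoc v 0 : Fin (N + 1) → ℝ)) 1
      (El.map fun e => ER.Con.add (N + 1 + e) N e) = (El.map fun e => (exV x e - exV v e) ^ 2).sum := by
    unfold qsum
    rw [List.map_map]
    congr 1
    refine List.map_congr_left fun e he => ?_
    simp only [Function.comp_apply, cerr, p2, p3 e (hE e he), p1 e (hE e he)]
    ring
  rw [e2]
  simp only [cerr, p2]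
  ring

/-- The exponent. -/
def kp (N s e : ℕ) : ℕ := kap (N + 1) (s + (1 + e))

/-- **The Łojasiewicz inequality at infinity.** -/
theorem loj_mkD (hK : K = 2 ^ kp N S.length El.length) (x : Fin N → ℝ)
    (hx : ∀ v, bt (mkD lo S El K) 0 x v ≠ 0) :
    ∃ c : ℝ, 0 < c ∧ ∀ v, c ≤ q1 v ^ K * bt (mkD lo S El K) 0 x v := by
  have hno : ¬ ∃ z : Fin (N + 1) → ℝ, SysHolds (pick (loc1 N) x (fun _ => 0) z)
      (S1 lo S El) := by
    rintro ⟨z, hz⟩
    rw [← qsum_one_iff] at hz
    have hz0 : z (Fin.last N) = 0 := by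
      rw [S1, qsum_append, qsum_cons] at hz
      have h1 := qsum_nonneg (pick (loc1 N) x (fun _ => 0) z) 1
        (S.map (ren fun i => (lo i : ℕ)))
      have h2 := qsum_nonneg (pick (loc1 N) x (fun _ => 0) z) 1
        (El.map fun e => ER.Con.add (N + 1 + e) N e)
      have h3 : cerr (pick (loc1 N) x (fun _ => 0) z) 1 (ER.Con.add N N N) ^ 2 = 0 := by
        have := sq_nonneg (cerr (pick (loc1 N) x (fun _ => 0) z) 1 (ER.Con.add N N N))
        linarith
      have h4 := (pow_eq_zero_iff two_ne_zero).1 h3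
      simp only [cerr] at h4
      have h5 : pick (loc1 N) x (fun _ => 0) z N = z (Fin.last N) := by
        unfold pick loc1
        rw [dif_pos (by omega)]
        rfl
      rw [h5] at h4
      linarith
    have hzz : z = (Fin.snoc (fun l => z l.castSucc) 0 : Fin (N + 1) → ℝ) := by
      funext i
      refine Fin.lastCases ?_ (fun i => ?_) i
      · rw [Fin.snoc_last, hz0]
      · rw [Fin.snoc_castSucc]
    rw [hzz, qsum_S1 lo S El hE K] at hz
    exact hx _ hz
  obtain ⟨c, hc0, hc⟩ := L1 (loc1 N) (S1 lo S El) x (fun _ => 0) hno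
  refine ⟨c, hc0, fun v => ?_⟩
  have hq : 1 ≤ q1 v := by
    unfold q1
    have : 0 ≤ ∑ l, v l ^ 2 := Finset.sum_nonneg fun _ _ => sq_nonneg _
    linarith
  have hq0 : 0 < q1 v := by linarith
  obtain ⟨t, ht⟩ : ∃ t, t = (q1 v)⁻¹ := ⟨_, rfl⟩
  have ht0 : 0 < t := by rw [ht]; positivity
  have ht1 : t ≤ 1 := by rw [ht]; exact inv_le_one_of_one_le₀ hq
  have hcube : (fun j => t * (Fin.snoc v 0 : Fin (N + 1) → ℝ) j) ∈ cube (N + 1) := by
    intro j
    rw [abs_mul, abs_of_pos ht0, ht, inv_mul_le_iff₀ hq0, mul_one]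
    refine Fin.lastCases ?_ (fun i => ?_) j
    · rw [Fin.snoc_last, abs_zero]; linarith
    · rw [Fin.snoc_castSucc]
      have h1 : v i ^ 2 ≤ ∑ l, v l ^ 2 :=
        Finset.single_le_sum (f := fun l => v l ^ 2) (fun _ _ => sq_nonneg _) (mem_univ i)
      unfold q1
      rw [← sq_abs] at h1
      nlinarith [sq_nonneg (|v i| - 1), abs_nonneg (v i)]
  have h1 := hc _ hcube t ht0.le ht1
  rw [qsum_t, qsum_S1 lo S El hE K, length_S1] at h1
  have hb : 0 ≤ bt (mkD lo S El K) 0 x v := by
    rw [← qsum_S1 lo S El hE K]; exact qsum_nonneg _ _ _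
  have h2 : c * t ^ K ≤ bt (mkD lo S El K) 0 x v := by
    have h3 : t ^ 4 * bt (mkD lo S El K) 0 x v ≤ 1 * bt (mkD lo S El K) 0 x v :=
      mul_le_mul_of_nonneg_right (pow_le_one₀ ht0.le ht1) hb
    rw [one_mul] at h3
    refine le_trans ?_ h3
    refine le_trans (le_of_eq ?_) h1
    rw [hK]
    rfl
  have h4 : q1 v ^ K * (c * t ^ K) = c := by
    rw [ht, inv_pow]
    field_simp
  calc c = q1 v ^ K * (c * t ^ K) := h4.symm
    _ ≤ _ := mul_le_mul_of_nonneg_left h2 (by positivity)

end real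

/-! ### The data of a sentence -/

section sentence

variable (p : List ℕ × Fm)

/-- The system. -/
def pS : List ER.Con := sysOf (Fm.not p.2)
/-- The list of the variables. -/
def pV : List ℕ := p.1.map (2 * ·) ++ (pS p).flatMap ER.Con.vars
/-- The number of the variables. -/
def pN : ℕ := (pV p).length + 1
/-- The places of the variables. -/
def plo (i : ℕ) : Fin (pN p) := ⟨(pV p).idxOf i, Nat.lt_succ_of_le List.idxOf_le_length⟩
/-- The places of the variables of the first block. -/
def pE : List ℕ := p.1.map fun i => (pV p).idxOf (2 * i)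
/-- The logarithm of the exponent. -/
def pk : ℕ := kp (pN p) (pS p).length (pE p).length
/-- The game. -/
noncomputable def pD : Dat (pN p) := mkD (plo p) (pS p) (pE p) (2 ^ pk p)

theorem pE_lt : ∀ e ∈ pE p, e < pN p := by
  intro e he
  rw [pE, List.mem_map] at he
  obtain ⟨i, _, rfl⟩ := he
  exact Nat.lt_succ_of_le List.idxOf_le_length

theorem pD_K : 1 ≤ (pD p).K := Nat.one_le_two_pow

theorem getD_idx {V : List ℕ} {k : ℕ} (h : k ∈ V) : V.getD (V.idxOf k) 0 = k := by
  have h1 := List.idxOf_lt_length_iff.2 h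
  rw [List.getD_eq_getElem _ _ h1, List.getElem_idxOf]

/-- The truth of the sentence in terms of the game. -/
theorem ear_iff_game : EAR p ↔ ∃ x : Fin (pN p) → ℝ, ∀ v, bt (pD p) 0 x v ≠ 0 := by
  rw [ear_iff_sys]
  have hE2 : ∀ i ∈ p.1, 2 * i ∈ pV p := fun i hi => by
    rw [pV, List.mem_append, List.mem_map]
    exact Or.inl ⟨i, hi, rfl⟩
  have hS2 : ∀ c ∈ pS p, ∀ i ∈ c.vars, i ∈ pV p := fun c hc i hi => by
    rw [pV, List.mem_append]
    exact Or.inr (List.mem_flatMap.2 ⟨c, hc, hi⟩)
  constructor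
  · rintro ⟨x, hx⟩
    refine ⟨fun l => x ((pV p).getD l 0 / 2), fun v hv => ?_⟩
    rw [pD, bt_zero_iff _ _ _ (pE_lt p)] at hv
    refine hx (fun i => v (plo p i)) (fun i hi => ?_) hv.2
    have h1 := hv.1 ((pV p).idxOf (2 * i)) (by rw [pE, List.mem_map]; exact ⟨i, hi, rfl⟩)
    have h2 := exV_fin v (plo p (2 * i))
    have h3 := exV_fin (fun l : Fin (pN p) => x ((pV p).getD l 0 / 2)) (plo p (2 * i))
    change exV v ((pV p).idxOf (2 * i)) = _ at h2
    change exV _ ((pV p).idxOf (2 * i)) = x ((pV p).getD ((pV p).idxOf (2 * i)) 0 / 2) at h3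
    rw [h1, getD_idx (hE2 i hi)] at h3
    rw [← h2, h3]
    congr 1
    omega
  · rintro ⟨x, hx⟩
    refine ⟨fun i => x (plo p (2 * i)), fun V hV hS => ?_⟩
    refine hx (fun l => V ((pV p).getD l 0)) ?_
    rw [pD, bt_zero_iff _ _ _ (pE_lt p)]
    constructor
    · intro e he
      rw [pE, List.mem_map] at he
      obtain ⟨i, hi, rfl⟩ := he
      have h2 := exV_fin x (plo p (2 * i))
      have h3 := exV_fin (fun l : Fin (pN p) => V ((pV p).getD l 0)) (plo p (2 * i))
      change exV _ ((pV p).idxOf (2 * i)) = _ at h2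
      change exV _ ((pV p).idxOf (2 * i)) = V ((pV p).getD ((pV p).idxOf (2 * i)) 0) at h3
      rw [h2, h3, getD_idx (hE2 i hi), hV i hi]
    · intro c hc
      refine (ER.Con.holds_congr fun i hi => ?_).1 (hS c hc)
      change V i = V ((pV p).getD ((pV p).idxOf i) 0)
      rw [getD_idx (hS2 c hc i hi)]

end sentence

end Pool.Agent.U7.Iso
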