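import Mathlib
import Pool.Agent.U7.Iso.Forms

/-!
# The algebraic relations for the coordinates of the solutions of the system
-/

set_option autoImplicit false
set_option linter.unusedSimpArgs false

namespace Pool.Agent.U7.Iso

open Finset Pool.Agent.H612 Pool.Agent.R537.RN

variable {N r : ℕ}

/-- The norms of the entries of the system are bounded by `2 ^ s`. -/
def Bnd (D : Dat N) (r s : ℕ) : Prop :=
  ∀ (R : Type) [CommRing R] (nr : RNorm R) (Z : Un r N → R) (P : Pm N → R) (ε : R),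
    (∀ u, nr.ν (Z u) ≤ 2) → (∀ p, nr.ν (P p) ≤ 2) → nr.ν ε ≤ 2 →
    (∀ e p, nr.ν (Am D Z ε e p) ≤ 2 ^ s) ∧ ∀ e, nr.ν (Sys D Z P ε e) ≤ 2 ^ s

/-- The exponent of the bound of the norms of the minors. -/
def hh (n s : ℕ) : ℕ := n * (n + 1) + s * n + s + 1

theorem adj_le {R : Type} [CommRing R] (nr : RNorm R) {E : Type} [Fintype E] [DecidableEq E]
    (A : Matrix E E R) (ρ : ℕ) (hρ : 1 ≤ ρ) (hA : ∀ i, ∑ j, nr.ν (A i j) ≤ ρ) (i j : E) :
    nr.ν (A.adjugate i j) ≤ ρ ^ Fintype.card E := by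
  rw [Matrix.adjugate_apply]
  refine (nr.det_le _).trans ?_
  rw [← Finset.card_univ, ← Finset.prod_const]
  refine Finset.prod_le_prod' fun k _ => ?_
  by_cases hk : k = j
  · subst hk
    simp only [Matrix.updateRow_self]
    refine le_trans ?_ hρ
    have h1 : ∀ l, nr.ν ((Pi.single i (1 : R) : E → R) l) ≤ if l = i then 1 else 0 := by
      intro l
      by_cases h : l = i
      · subst h; simpa using nr.one
      · simp [Pi.single_apply, h, nr.zero]
    refine (Finset.sum_le_sum fun l _ => h1 l).trans ?_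
    simp
  · simp only [Matrix.updateRow_ne hk]
    exact hA k

/-- **The relations.** -/
theorem rel (D : Dat N) (s : ℕ) (hs : Bnd D r s) (I : Un r N → Pm N) (hI : Function.Injective I)
    (u : Un r N) (L : ℕ)
    (hL : 2 * (hh (Fintype.card (Un r N)) s * (Fintype.card (Pm N) + 2) + 1) ^
      (Fintype.card (Pm N) + 1) ≤ L + 1) :
    ∃ q : MvPolynomial (Pm N ⊕ Bool) ℤ, q ≠ 0 ∧ (∀ α ∈ q.support, ∀ j, α j ≤ L) ∧
      RNorm.int.mν q ≤ ((L + 1) ^ (Fintype.card (Pm N) + 2)) ^ 2 *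
        2 ^ (hh (Fintype.card (Un r N)) s * (Fintype.card (Pm N) + 2) * L) ∧
      ∀ (Z : Un r N → ℝ) (P : Pm N → ℝ) (ε : ℝ), (∀ e, Sys D Z P ε e = 0) →
        ((Matrix.of (Am D Z ε)).submatrix id I).det ≠ 0 →
        MvPolynomial.aeval (Sum.elim P (fun b : Bool => if b then ε else Z u)) q = 0 := by
  classical
  obtain ⟨E, hE⟩ : ∃ E, E = Fintype.card (Un r N) := ⟨_, rfl⟩
  rw [← hE] at hL ⊢
  have hEpos : 1 ≤ E := by
    rw [hE]; exact Fintype.card_pos_iff.2 ⟨(none, none)⟩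
  have hcardJ : Fintype.card (Pm N ⊕ Bool) = Fintype.card (Pm N) + 2 := by simp
  -- the variables
  have hcardV : Fintype.card (Un r N ⊕ ({p // p ∉ Set.range I} ⊕ Unit)) =
      Fintype.card (Pm N) + 1 := by
    rw [Fintype.card_sum, Fintype.card_sum, Fintype.card_unit]
    have h1 : Fintype.card {p // p ∉ Set.range I} =
        Fintype.card (Pm N) - Fintype.card {p // p ∈ Set.range I} :=
      Fintype.card_subtype_compl fun p => p ∈ Set.range I
    have h3 : Fintype.card {p // p ∈ Set.range I} ≤ Fintype.card (Pm N) :=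
      Fintype.card_subtype_le fun p => p ∈ Set.range I
    have h2 : Fintype.card {p // p ∈ Set.range I} = Fintype.card (Un r N) :=
      (Fintype.card_congr (Equiv.ofInjective I hI)).symm
    omega
  obtain ⟨n, hn⟩ : ∃ n, n = Fintype.card (Pm N) + 1 := ⟨_, rfl⟩
  obtain ⟨ev⟩ : Nonempty ((Un r N ⊕ ({p // p ∉ Set.range I} ⊕ Unit)) ≃ Fin n) := by
    rw [hn, ← hcardV]
    exact ⟨Fintype.equivFin _⟩
  obtain ⟨Zp, hZp⟩ : ∃ Zp : Un r N → MvPolynomial (Fin n) ℤ, ∀ u,
      Zp u = MvPolynomial.X (ev (Sum.inl u)) := ⟨_, fun _ => rfl⟩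
  obtain ⟨Pp, hPp⟩ : ∃ Pp : Pm N → MvPolynomial (Fin n) ℤ, ∀ p,
      Pp p = if h : p ∈ Set.range I then 0 else MvPolynomial.X (ev (Sum.inr (Sum.inl ⟨p, h⟩))) :=
    ⟨_, fun _ => rfl⟩
  obtain ⟨εp, hεp⟩ : ∃ εp : MvPolynomial (Fin n) ℤ,
      εp = MvPolynomial.X (ev (Sum.inr (Sum.inr ()))) := ⟨_, rfl⟩
  obtain ⟨nr, hnr⟩ : ∃ nr : RNorm (MvPolynomial (Fin n) ℤ), nr = wm RNorm.int n := ⟨_, rfl⟩
  have hX : ∀ i : Fin n, nr.ν (MvPolynomial.X i) ≤ 2 := fun i => by
    rw [hnr]
    change wν RNorm.int (MvPolynomial.monomial (Finsupp.single i 1) 1) ≤ 2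
    rw [wν_monomial]
    have h1 : ∑ j, (Finsupp.single i 1 : Fin n →₀ ℕ) j = 1 := by
      rw [← fin_sum_eq, Finsupp.sum_single_index]
      rfl
    rw [h1]
    have := RNorm.int.one
    omega
  obtain ⟨hA, hb⟩ := hs (MvPolynomial (Fin n) ℤ) nr Zp Pp εp (fun u => by rw [hZp]; exact hX _)
    (fun p => by
      rw [hPp]
      split_ifs
      · rw [nr.zero]; omega
      · exact hX _) (by rw [hεp]; exact hX _)
  obtain ⟨A, hAdef⟩ : ∃ A : Matrix (Un r N) (Un r N) (MvPolynomial (Fin n) ℤ),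
      A = (Matrix.of (Am D Zp εp)).submatrix id I := ⟨_, rfl⟩
  have hrow : ∀ i, ∑ j, nr.ν (A i j) ≤ E * 2 ^ s := by
    intro i
    refine (Finset.sum_le_sum fun j _ => (show nr.ν (A i j) ≤ 2 ^ s by
      rw [hAdef]; exact hA _ _)).trans ?_
    rw [Finset.sum_const, Finset.card_univ, smul_eq_mul, hE]
  have hρ1 : 1 ≤ E * 2 ^ s := Nat.mul_pos hEpos (by positivity)
  have hE2 : E ≤ 2 ^ E := Nat.lt_two_pow_self.le
  have hρh : (E * 2 ^ s) ^ E ≤ 2 ^ (E * E + s * E) := by
    calc (E * 2 ^ s) ^ E ≤ (2 ^ E * 2 ^ s) ^ E :=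
          Nat.pow_le_pow_left (Nat.mul_le_mul_right _ hE2) _
      _ = 2 ^ (E * E + s * E) := by rw [← pow_add, ← pow_mul, add_mul]
  have hdet : nr.ν A.det ≤ 2 ^ (E * E + s * E) := by
    refine le_trans ?_ hρh
    refine (nr.det_le _).trans ?_
    refine (Finset.prod_le_prod' fun k _ => hrow k).trans ?_
    rw [Finset.prod_const, Finset.card_univ, hE]
  -- the numerators
  obtain ⟨num, hnum⟩ : ∃ num : Un r N → MvPolynomial (Fin n) ℤ, ∀ e, num e =
      - ∑ e', A.adjugate e e' * Sys D Zp Pp εp e' := ⟨_, fun _ => rfl⟩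
  have hnumν : ∀ e, nr.ν (num e) ≤ 2 ^ hh E s := by
    intro e
    rw [hnum]
    refine (nr.neg _).trans ((nr.sum _ _).trans ?_)
    have h1 : ∀ e' ∈ (univ : Finset (Un r N)), nr.ν (A.adjugate e e' * Sys D Zp Pp εp e') ≤
        2 ^ (E * E + s * E) * 2 ^ s := by
      intro e' _
      refine (nr.mul _ _).trans (Nat.mul_le_mul ?_ (hb _))
      refine le_trans ?_ hρh
      have := adj_le nr A _ hρ1 hrow e e'
      rwa [← hE] at this
    refine (Finset.sum_le_sum h1).trans ?_
    rw [Finset.sum_const, Finset.card_univ, ← hE, smul_eq_mul, ← pow_add]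
    refine (Nat.mul_le_mul_right _ hE2).trans ?_
    rw [← pow_add]
    refine Nat.pow_le_pow_right (by norm_num) ?_
    unfold hh
    nlinarith
  have hXdet : ∀ i : Fin n, nr.ν (MvPolynomial.X i * A.det) ≤ 2 ^ hh E s := by
    intro i
    refine (nr.mul _ _).trans ((Nat.mul_le_mul (hX i) hdet).trans ?_)
    rw [← pow_succ']
    refine Nat.pow_le_pow_right (by norm_num) ?_
    unfold hh
    nlinarith
  have hdet' : nr.ν A.det ≤ 2 ^ hh E s := by
    refine hdet.trans (Nat.pow_le_pow_right (by norm_num) ?_)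
    unfold hh
    nlinarith
  obtain ⟨p, hp⟩ : ∃ p : Pm N ⊕ Bool → MvPolynomial (Fin n) ℤ, ∀ j, p j = match j with
      | Sum.inl j => if h : j ∈ Set.range I then num h.choose else
          MvPolynomial.X (ev (Sum.inr (Sum.inl ⟨j, h⟩))) * A.det
      | Sum.inr true => MvPolynomial.X (ev (Sum.inr (Sum.inr ()))) * A.det
      | Sum.inr false => MvPolynomial.X (ev (Sum.inl u)) * A.det := ⟨_, fun _ => rfl⟩
  obtain ⟨q, hq0, hqL, hqν, hq⟩ := relation (n := n) (ι := Pm N ⊕ Bool) (by rw [hcardJ]; omega)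
    p A.det (hh E s) L (by
      intro j
      rw [hp, ← hnr]
      rcases j with j | _ | _
      · simp only
        split_ifs
        · exact hnumν _
        · exact hXdet _
      · exact hXdet _
      · exact hXdet _) (by rw [← hnr]; exact hdet') (by rw [hcardJ, hn]; exact hL)
  rw [hcardJ] at hqν
  refine ⟨q, hq0, hqL, hqν, fun Z P ε hZ hdetne => ?_⟩
  -- the point
  obtain ⟨y, hy⟩ : ∃ y : Fin n → ℝ, ∀ i, y i = match ev.symm i with
      | Sum.inl u => Z u
      | Sum.inr (Sum.inl p) => P p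
      | Sum.inr (Sum.inr _) => ε := ⟨_, fun _ => rfl⟩
  have yZ : ∀ u, y (ev (Sum.inl u)) = Z u := fun u => by rw [hy, Equiv.symm_apply_apply]
  have yP : ∀ p, y (ev (Sum.inr (Sum.inl p))) = P p := fun u => by
    rw [hy, Equiv.symm_apply_apply]
  have yε : y (ev (Sum.inr (Sum.inr ()))) = ε := by rw [hy, Equiv.symm_apply_apply]
  obtain ⟨f, hf⟩ : ∃ f : MvPolynomial (Fin n) ℤ →+* ℝ, f = (MvPolynomial.aeval y).toRingHom :=
    ⟨_, rfl⟩
  have hfa : ∀ z, MvPolynomial.aeval y z = f z := fun z => by rw [hf]; rfl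
  have fZ : (fun u => f (Zp u)) = Z := by
    funext u
    rw [← hfa, hZp, MvPolynomial.aeval_X, yZ]
  have fε : f εp = ε := by rw [← hfa, hεp, MvPolynomial.aeval_X, yε]
  obtain ⟨P0, hP0⟩ : ∃ P0 : Pm N → ℝ, ∀ p, P0 p = if p ∈ Set.range I then 0 else P p :=
    ⟨_, fun _ => rfl⟩
  have fP : (fun p => f (Pp p)) = P0 := by
    funext p
    rw [← hfa, hPp, hP0]
    split_ifs
    · simp
    · rw [MvPolynomial.aeval_X, yP]
  have fA : f.mapMatrix A = (Matrix.of (Am D Z ε)).submatrix id I := by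
    ext e e'
    rw [RingHom.mapMatrix_apply, Matrix.map_apply, hAdef, Matrix.submatrix_apply,
      Matrix.of_apply, Am_map, fZ, fε]
    rfl
  have fdet : f A.det = ((Matrix.of (Am D Z ε)).submatrix id I).det := by
    rw [RingHom.map_det, fA]
  -- Cramer's rule
  have hlin : (f.mapMatrix A).mulVec (fun e => P (I e)) = fun e => - Sys D Z P0 ε e := by
    funext e
    have h1 := Sys_eq D Z P ε e
    have h2 := Sys_eq D Z P0 ε e
    rw [hZ e] at h1
    have h3 : ∑ p, Am D Z ε e p * P p = ∑ p, Am D Z ε e p * P0 p +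
        ∑ e', Am D Z ε e (I e') * P (I e') := by
      have h4 : ∑ e', Am D Z ε e (I e') * P (I e') =
          ∑ p, Am D Z ε e p * (P p - P0 p) := by
        rw [← Finset.sum_subset (Finset.subset_univ (univ.image I)),
          Finset.sum_image fun a _ b _ h => hI h]
        · refine Finset.sum_congr rfl fun e' _ => ?_
          rw [hP0, if_pos ⟨e', rfl⟩, sub_zero]
        · intro p _ hp
          rw [hP0, if_neg fun ⟨e', he'⟩ => hp (Finset.mem_image.2 ⟨e', mem_univ _, he'⟩), sub_self,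
            mul_zero]
      rw [h4, ← Finset.sum_add_distrib]
      refine Finset.sum_congr rfl fun p _ => ?_
      ring
    rw [fA]
    simp only [Matrix.mulVec, dotProduct, Matrix.submatrix_apply, Matrix.of_apply, id]
    rw [h3] at h1
    linarith
  have hcramer : ∀ e, P (I e) * f A.det = f (num e) := by
    intro e
    have h1 : (f.mapMatrix A).adjugate.mulVec ((f.mapMatrix A).mulVec (fun e => P (I e))) =
        (f.mapMatrix A).det • (fun e => P (I e)) := by
      rw [Matrix.mulVec_mulVec, Matrix.adjugate_mul, Matrix.smul_mulVec, Matrix.one_mulVec]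
    rw [hlin] at h1
    have h2 := congrFun h1 e
    simp only [Pi.smul_apply, smul_eq_mul] at h2
    rw [RingHom.map_det, mul_comm, ← h2, hnum, map_neg, map_sum]
    simp only [Matrix.mulVec, dotProduct, mul_neg, Finset.sum_neg_distrib]
    congr 1
    refine Finset.sum_congr rfl fun e' _ => ?_
    rw [map_mul, Sys_map, fZ, fP, fε, ← RingHom.map_adjugate]
    rfl
  refine hq y _ ?_ ?_
  · rw [hfa, fdet]; exact hdetne
  · intro j
    rw [hp]
    rcases j with j | _ | _
    · simp only [Sum.elim_inl]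
      split_ifs with h
      · rw [hfa, hfa, ← hcramer, h.choose_spec]
      · rw [map_mul, MvPolynomial.aeval_X, yP]
    · simp only [Sum.elim_inr]
      rw [map_mul, MvPolynomial.aeval_X, yZ]
      simp
    · simp only [Sum.elim_inr]
      rw [map_mul, MvPolynomial.aeval_X, yε]
      simp

end Pool.Agent.U7.Iso
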