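import Mathlib
import Pool.Agent.U7.Iso.Inst
import Pool.Agent.U7.Iso.Rel

/-!
# The norms of the entries of the system
-/

set_option autoImplicit false
set_option linter.unusedSimpArgs false

namespace Pool.Agent.U7.Iso

open Finset Pool.Agent.NPC Pool.Agent.NPC.ER Pool.Agent.H612 Pool.Agent.NPC.H612
  Pool.Agent.R537.RN

section basic

variable {R : Type} [CommRing R] (nr : RNorm R)

theorem nadd {x y : R} {a b : ℕ} (hx : nr.ν x ≤ a) (hy : nr.ν y ≤ b) : nr.ν (x + y) ≤ a + b :=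
  (nr.add _ _).trans (Nat.add_le_add hx hy)

theorem nsub {x y : R} {a b : ℕ} (hx : nr.ν x ≤ a) (hy : nr.ν y ≤ b) : nr.ν (x - y) ≤ a + b :=
  (nr.sub _ _).trans (Nat.add_le_add hx hy)

theorem nmul {x y : R} {a b : ℕ} (hx : nr.ν x ≤ a) (hy : nr.ν y ≤ b) : nr.ν (x * y) ≤ a * b :=
  (nr.mul _ _).trans (Nat.mul_le_mul hx hy)

theorem npow {x : R} {a : ℕ} (hx : nr.ν x ≤ a) (k : ℕ) : nr.ν (x ^ k) ≤ a ^ k := by
  induction k with
  | zero => simpa using nr.one
  | succ k ih =>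
    rw [pow_succ, pow_succ]
    exact nmul nr ih hx

theorem nneg {x : R} {a : ℕ} (hx : nr.ν x ≤ a) : nr.ν (-x) ≤ a := (nr.neg _).trans hx

theorem nsum {ι : Type} [Fintype ι] {f : ι → R} {a c : ℕ} (h : ∀ i, nr.ν (f i) ≤ a)
    (hc : Fintype.card ι ≤ c) : nr.ν (∑ i, f i) ≤ c * a := by
  refine (nr.sum _ _).trans ((Finset.sum_le_sum fun i _ => h i).trans ?_)
  rw [Finset.sum_const, Finset.card_univ, smul_eq_mul]
  exact Nat.mul_le_mul_right _ hc

theorem nnat (n : ℕ) : nr.ν (n : R) ≤ n := nr.natCast n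

theorem ntwo : nr.ν (2 : R) ≤ 2 := by
  have := nr.natCast 2
  simpa using this

theorem nfour : nr.ν (4 : R) ≤ 4 := by
  have := nr.natCast 4
  simpa using this

theorem nzero (a : ℕ) : nr.ν (0 : R) ≤ a := by rw [nr.zero]; exact Nat.zero_le _

end basic

section

variable {N : ℕ} (lo : ℕ → Fin N) (S : List ER.Con) (El : List ℕ) (K : ℕ)

/-- The bound of the coordinates. -/
def bA (σ W : ℕ) : ℕ := 4 * W + 144 * σ + 2

variable {R : Type} [CommRing R] (nr : RNorm R)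

theorem n_gv {v : Fin N → R} (hv : ∀ l, nr.ν (v l) ≤ 2) :
    nr.ν (gv (mkD lo S El K) v) ≤ 144 * S.length := by
  rw [gv_mkD]
  have h := qsum_ν nr (fun i => v (lo i)) 1 2 (fun i => hv _) (nr.one.trans (by norm_num)) S
  exact h.trans (le_of_eq (by norm_num))

theorem n_dg {v : Fin N → R} (hv : ∀ l, nr.ν (v l) ≤ 2) (l : Fin N) :
    nr.ν (dg (mkD lo S El K) v l) ≤ 120 * S.length := by
  rw [dg_mkD]
  unfold dqs
  have h1 : ∀ c : ER.Con, nr.ν (2 * (cerr (fun i => v (lo i)) 1 c *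
      derr (fun i => v (lo i)) (fun i => if lo i = l then 1 else 0) c)) ≤ 120 := by
    intro c
    have h2 := cerr_ν nr (fun i => v (lo i)) 1 2 (fun i => hv _) (nr.one.trans (by norm_num)) c
    have h3 : ∀ i : ℕ, nr.ν (if lo i = l then (1 : R) else 0) ≤ 1 := by
      intro i
      split_ifs
      · exact nr.one
      · exact nzero nr 1
    have h4 : nr.ν (derr (fun i => v (lo i)) (fun i => if lo i = l then (1 : R) else 0) c) ≤
        5 := by
      cases c with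
      | one i => exact (h3 i).trans (by norm_num)
      | add i j k =>
        exact (nsub nr (nadd nr (h3 i) (h3 j)) (h3 k)).trans (by norm_num)
      | mul i j k =>
        exact (nsub nr (nadd nr (nmul nr (h3 i) (hv _)) (nmul nr (hv _) (h3 j))) (h3 k)).trans
          (by norm_num)
    exact (nmul nr (ntwo nr) (nmul nr h2 h4)).trans (by norm_num)
  induction S with
  | nil => simp [nr.zero]
  | cons c S ih =>
    rw [List.map_cons, List.sum_cons, List.length_cons]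
    exact (nadd nr (h1 c) ih).trans (by omega)

theorem count_le (l : ℕ) : El.count l ≤ El.length := List.count_le_length

theorem sum_count_le : ∑ l : Fin N, El.count (l : ℕ) ≤ El.length := by
  induction El with
  | nil => simp
  | cons e El ih =>
    have h1 : ∀ l : Fin N, (e :: El).count (l : ℕ) = El.count (l : ℕ) +
        if e = (l : ℕ) then 1 else 0 := by
      intro l
      rw [List.count_cons]
      simp
    simp only [h1, Finset.sum_add_distrib, List.length_cons]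
    have h2 : ∑ l : Fin N, (if e = (l : ℕ) then 1 else 0) ≤ 1 := by
      rw [← Finset.card_filter]
      rw [Finset.card_le_one]
      intro a ha b hb
      rw [Finset.mem_filter] at ha hb
      exact Fin.ext (ha.2.symm.trans hb.2)
    omega

theorem n_wsum {f : Fin N → R} {a : ℕ} (hf : ∀ l, nr.ν (f l) ≤ a) :
    nr.ν (∑ l, ((mkD lo S El K).w l : R) * f l) ≤ El.length * a := by
  refine (nr.sum _ _).trans ((Finset.sum_le_sum (g := fun l : Fin N => El.count (l : ℕ) * a)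
    fun l _ => nmul nr (nnat nr _) (hf l)).trans ?_)
  rw [← Finset.sum_mul]
  exact Nat.mul_le_mul_right _ (sum_count_le El)

theorem n_w (l : Fin N) : nr.ν ((mkD lo S El K).w l : R) ≤ El.length :=
  (nnat nr _).trans (count_le El l)

theorem n_Hv {v : Fin N → R} (hv : ∀ l, nr.ν (v l) ≤ 2) :
    nr.ν (Hv (mkD lo S El K) v) ≤ bA S.length El.length := by
  unfold Hv bA
  have h1 := n_wsum lo S El K nr (f := fun l => v l ^ 2) (a := 2 ^ 2) fun l => npow nr (hv l) 2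
  exact (nadd nr h1 (n_gv lo S El K nr hv)).trans (by omega)

theorem n_dH {v : Fin N → R} (hv : ∀ l, nr.ν (v l) ≤ 2) (l : Fin N) :
    nr.ν (dH (mkD lo S El K) v l) ≤ 4 * El.length + 120 * S.length := by
  unfold dH
  exact (nadd nr (nmul nr (nmul nr (ntwo nr) (n_w lo S El K nr l)) (hv l))
    (n_dg lo S El K nr hv l)).trans (by omega)

theorem n_zt {v : Fin N → R} (hv : ∀ l, nr.ν (v l) ≤ 2) (a : J N) :
    nr.ν (zt (mkD lo S El K) v a) ≤ bA S.length El.length := by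
  rcases a with _ | _ | l
  · exact nr.one.trans (by unfold bA; omega)
  · exact n_Hv lo S El K nr hv
  · exact (hv l).trans (by unfold bA; omega)

theorem n_dz {v : Fin N → R} (hv : ∀ l, nr.ν (v l) ≤ 2) (l : Fin N) (a : J N) :
    nr.ν (dz (mkD lo S El K) v l a) ≤ bA S.length El.length := by
  rcases a with _ | _ | l'
  · exact nzero nr _
  · exact (n_dH lo S El K nr hv l).trans (by unfold bA; omega)
  · simp only [dz]
    split_ifs
    · exact nr.one.trans (by unfold bA; omega)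
    · exact nzero nr _

theorem n_bt {ε : R} {x v : Fin N → R} (hε : nr.ν ε ≤ 2) (hx : ∀ l, nr.ν (x l) ≤ 2)
    (hv : ∀ l, nr.ν (v l) ≤ 2) :
    nr.ν (bt (mkD lo S El K) ε x v) ≤ 4 * bA S.length El.length := by
  unfold bt bA
  have h1 := n_wsum lo S El K nr (f := fun l => (x l - v l) ^ 2) (a := (2 + 2) ^ 2)
    fun l => npow nr (nsub nr (hx l) (hv l)) 2
  exact (nadd nr (nadd nr h1 (n_gv lo S El K nr hv)) hε).trans (by omega)

theorem n_dbt {x v : Fin N → R} (hx : ∀ l, nr.ν (x l) ≤ 2)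
    (hv : ∀ l, nr.ν (v l) ≤ 2) (l : Fin N) :
    nr.ν (dbt (mkD lo S El K) x v l) ≤ 2 * bA S.length El.length := by
  unfold dbt bA
  exact (nsub nr (n_dH lo S El K nr hv l) (nmul nr (nmul nr (ntwo nr) (n_w lo S El K nr l))
    (hx l))).trans (by omega)

theorem n_q1 {v : Fin N → R} (hv : ∀ l, nr.ν (v l) ≤ 2) : nr.ν (q1 v) ≤ 4 * (N + 2) := by
  unfold q1
  exact (nadd nr nr.one (nsum nr (f := fun l => v l ^ 2) (fun l => npow nr (hv l) 2)
    (c := N) (by simp))).trans (by omega)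

theorem n_mon {v : Fin N → R} (hv : ∀ l, nr.ν (v l) ≤ 2) (t : T3 N) :
    nr.ν (mon (zt (mkD lo S El K) v) t) ≤ bA S.length El.length ^ 3 := by
  unfold mon
  exact (nmul nr (nmul nr (n_zt lo S El K nr hv _) (n_zt lo S El K nr hv _))
    (n_zt lo S El K nr hv _)).trans (le_of_eq (by ring))

theorem n_dmon {v : Fin N → R} (hv : ∀ l, nr.ν (v l) ≤ 2) (l : Fin N) (t : T3 N) :
    nr.ν (dmon (zt (mkD lo S El K) v) (dz (mkD lo S El K) v l) t) ≤
      3 * bA S.length El.length ^ 3 := by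
  unfold dmon
  have z := n_zt lo S El K nr hv
  have d := n_dz lo S El K nr hv l
  exact (nadd nr (nadd nr (nmul nr (nmul nr (d _) (z _)) (z _))
    (nmul nr (nmul nr (z _) (d _)) (z _))) (nmul nr (nmul nr (z _) (z _)) (d _))).trans
    (le_of_eq (by ring))

theorem n_sz {v : Fin N → R} (hv : ∀ l, nr.ν (v l) ≤ 2) :
    nr.ν (∑ a, zt (mkD lo S El K) v a ^ 2) ≤ (N + 2) * bA S.length El.length ^ 2 :=
  nsum nr (fun a => npow nr (n_zt lo S El K nr hv a) 2) (by simp)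

theorem bA_pos : 1 ≤ bA S.length El.length := by unfold bA; omega

theorem n_Mf {P : Pm N → R} (hP : ∀ p, nr.ν (P p) ≤ 2) {v : Fin N → R}
    (hv : ∀ l, nr.ν (v l) ≤ 2) :
    nr.ν (Mf (mkD lo S El K) P v) ≤ 4 * (N + 2) ^ 5 * bA S.length El.length ^ 4 := by
  unfold Mf
  have hA := bA_pos S El
  generalize hAA : bA S.length El.length = A at *
  have h1 := nmul nr (nnat nr (C0 N)) (npow nr (n_sz lo S El K nr hv) 2)
  have h2 := nsum nr (f := fun t => P (Sum.inl t) * mon (zt (mkD lo S El K) v) t)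
    (c := (N + 2) ^ 3) (fun t => nmul nr (hP (Sum.inl t)) (n_mon lo S El K nr hv t))
    (le_of_eq (by simp only [Fintype.card_prod, Fintype.card_option, Fintype.card_fin]; ring))
  refine (nadd nr h1 h2).trans ?_
  rw [hAA]
  unfold C0
  have hT : 1 ≤ N + 2 := by omega
  generalize N + 2 = T at *
  have a1 : A ^ 3 ≤ A ^ 4 := Nat.pow_le_pow_right hA (by norm_num)
  have t1 : T ^ 2 ≤ T ^ 5 := Nat.pow_le_pow_right hT (by norm_num)
  have t2 : T ^ 3 ≤ T ^ 5 := Nat.pow_le_pow_right hT (by norm_num)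
  have e1 := Nat.mul_le_mul t1 (le_refl (A ^ 4))
  have e2 := Nat.mul_le_mul t2 a1
  calc (T ^ 3 + 1) * (T * A ^ 2) ^ 2 + T ^ 3 * (2 * A ^ 3)
      = T ^ 5 * A ^ 4 + T ^ 2 * A ^ 4 + 2 * (T ^ 3 * A ^ 3) := by ring
    _ ≤ T ^ 5 * A ^ 4 + T ^ 5 * A ^ 4 + 2 * (T ^ 5 * A ^ 4) := by omega
    _ = 4 * T ^ 5 * A ^ 4 := by ring

theorem n_dM {P : Pm N → R} (hP : ∀ p, nr.ν (P p) ≤ 2) {v : Fin N → R}
    (hv : ∀ l, nr.ν (v l) ≤ 2) (l : Fin N) :
    nr.ν (dM (mkD lo S El K) P v l) ≤ 14 * (N + 2) ^ 5 * bA S.length El.length ^ 4 := by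
  unfold dM
  have hA := bA_pos S El
  generalize hAA : bA S.length El.length = A at *
  have z := n_zt lo S El K nr hv
  have d := n_dz lo S El K nr hv l
  have h1 := nmul nr (nnat nr (C0 N)) (nmul nr (nmul nr (ntwo nr) (n_sz lo S El K nr hv))
    (nsum nr (f := fun a => 2 * (zt (mkD lo S El K) v a * dz (mkD lo S El K) v l a))
      (fun a => nmul nr (ntwo nr) (nmul nr (z a) (d a))) (c := N + 2) (by simp)))
  have h2 := nsum nr (f := fun t => P (Sum.inl t) * dmon (zt (mkD lo S El K) v)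
    (dz (mkD lo S El K) v l) t)
    (c := (N + 2) ^ 3) (fun t => nmul nr (hP (Sum.inl t)) (n_dmon lo S El K nr hv l t))
    (le_of_eq (by simp only [Fintype.card_prod, Fintype.card_option, Fintype.card_fin]; ring))
  refine (nadd nr h1 h2).trans ?_
  rw [hAA]
  unfold C0
  have hT : 1 ≤ N + 2 := by omega
  generalize N + 2 = T at *
  have a1 : A ^ 3 ≤ A ^ 4 := Nat.pow_le_pow_right hA (by norm_num)
  have t1 : T ^ 2 ≤ T ^ 5 := Nat.pow_le_pow_right hT (by norm_num)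
  have t2 : T ^ 3 ≤ T ^ 5 := Nat.pow_le_pow_right hT (by norm_num)
  have e1 := Nat.mul_le_mul t1 (le_refl (A ^ 4))
  have e2 := Nat.mul_le_mul t2 a1
  calc (T ^ 3 + 1) * (2 * (T * A ^ 2) * (T * (2 * (A * A)))) + T ^ 3 * (2 * (3 * A ^ 3))
      = 4 * (T ^ 5 * A ^ 4) + 4 * (T ^ 2 * A ^ 4) + 6 * (T ^ 3 * A ^ 3) := by ring
    _ ≤ 4 * (T ^ 5 * A ^ 4) + 4 * (T ^ 5 * A ^ 4) + 6 * (T ^ 5 * A ^ 4) := by omega
    _ = 14 * T ^ 5 * A ^ 4 := by ring

theorem n_nf {P : Pm N → R} (hP : ∀ p, nr.ν (P p) ≤ 2) {x : Fin N → R}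
    (hx : ∀ l, nr.ν (x l) ≤ 2) : nr.ν (nf P x) ≤ 20 * (N + 2) ^ 3 := by
  unfold nf
  refine (nadd nr (nmul nr (nnat nr (N + 2)) (npow nr (n_q1 nr hx) 2))
    (nadd nr (hP _) (nsum nr (f := fun l => P (Sum.inr (some l)) * x l)
      (fun l => nmul nr (hP _) (hx l)) (c := N) (by simp)))).trans ?_
  have h1 : N + 2 ≤ (N + 2) ^ 3 := Nat.le_self_pow (by norm_num) _
  have h2 : (N + 2) * (4 * (N + 2)) ^ 2 = 16 * (N + 2) ^ 3 := by ring
  rw [h2]
  omega

theorem n_dn {P : Pm N → R} (hP : ∀ p, nr.ν (P p) ≤ 2) {x : Fin N → R}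
    (hx : ∀ l, nr.ν (x l) ≤ 2) (l : Fin N) : nr.ν (dn P x l) ≤ 34 * (N + 2) ^ 2 := by
  unfold dn
  refine (nadd nr (nmul nr (nnat nr (N + 2)) (nmul nr (nmul nr (nfour nr) (n_q1 nr hx)) (hx l)))
    (hP _)).trans ?_
  have h1 : 1 ≤ (N + 2) ^ 2 := Nat.one_le_pow _ _ (by omega)
  have h2 : (N + 2) * (4 * (4 * (N + 2)) * 2) = 32 * (N + 2) ^ 2 := by ring
  rw [h2]
  omega

/-- The exponent of the bound. -/
def bs (N σ W K : ℕ) : ℕ := 9 + 6 * (N + 2) + 5 * bA σ W + (N + 5) * K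

/-- **The bound.** -/
theorem bnd_mkD {r : ℕ} (hr : r ≤ N + 1) :
    Bnd (mkD lo S El K) r (bs N S.length El.length K) := by
  intro R _ nr Z P ε hZ hP hε
  obtain ⟨A, hAA⟩ : ∃ A, A = bA S.length El.length := ⟨_, rfl⟩
  obtain ⟨T, hT⟩ : ∃ T, T = N + 2 := ⟨_, rfl⟩
  have hA : 1 ≤ A := by rw [hAA]; exact bA_pos S El
  have hT1 : 2 ≤ T := by omega
  have hrT : r ≤ T := by omega
  have hW : El.length ≤ A := by rw [hAA]; unfold bA; omega
  obtain ⟨Q, hQ⟩ : ∃ Q, Q = (4 * T) ^ K := ⟨_, rfl⟩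
  have hQ1 : 1 ≤ Q := by rw [hQ]; exact Nat.one_le_pow _ _ (by omega)
  -- the total bound
  obtain ⟨X, hX⟩ : ∃ X, X = 512 * (T ^ 6 * A ^ 5) * (Q * (K + 1)) := ⟨_, rfl⟩
  have hX2 : X ≤ 2 ^ bs N S.length El.length K := by
    have h2 : ∀ k : ℕ, k ≤ 2 ^ k := fun k => Nat.lt_two_pow_self.le
    have e1 : T ^ 6 ≤ 2 ^ (6 * T) := by
      calc T ^ 6 ≤ (2 ^ T) ^ 6 := Nat.pow_le_pow_left (h2 T) 6
        _ = 2 ^ (6 * T) := by rw [← pow_mul, mul_comm]
    have e2 : A ^ 5 ≤ 2 ^ (5 * A) := by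
      calc A ^ 5 ≤ (2 ^ A) ^ 5 := Nat.pow_le_pow_left (h2 A) 5
        _ = 2 ^ (5 * A) := by rw [← pow_mul, mul_comm]
    have e3 : Q ≤ 2 ^ ((T + 2) * K) := by
      rw [hQ, pow_mul]
      refine Nat.pow_le_pow_left ?_ K
      rw [pow_add, mul_comm]
      exact Nat.mul_le_mul_right 4 (h2 T)
    have e4 : K + 1 ≤ 2 ^ K := Nat.lt_two_pow_self
    calc X = 2 ^ 9 * (T ^ 6 * A ^ 5) * (Q * (K + 1)) := by rw [hX]; norm_num
      _ ≤ 2 ^ 9 * (2 ^ (6 * T) * 2 ^ (5 * A)) * (2 ^ ((T + 2) * K) * 2 ^ K) :=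
          Nat.mul_le_mul (Nat.mul_le_mul_left _ (Nat.mul_le_mul e1 e2)) (Nat.mul_le_mul e3 e4)
      _ = 2 ^ (9 + (6 * T + 5 * A) + ((T + 2) * K + K)) := by simp only [pow_add]
      _ ≤ 2 ^ bs N S.length El.length K := by
          refine Nat.pow_le_pow_right (by norm_num) (le_of_eq ?_)
          unfold bs
          rw [← hAA, hT]
          ring
  have hmain : ∀ (a b : ℕ), a ≤ 512 * (T ^ 6 * A ^ 5) → b ≤ Q * (K + 1) → a * b ≤
      2 ^ bs N S.length El.length K := fun a b ha hb =>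
    (Nat.mul_le_mul ha hb).trans (by rw [← hX]; exact hX2)
  have hQK : 1 ≤ Q * (K + 1) := Nat.mul_pos hQ1 (by omega)
  have hmain1 : ∀ a : ℕ, a ≤ 512 * (T ^ 6 * A ^ 5) → a ≤ 2 ^ bs N S.length El.length K :=
    fun a ha => by simpa using hmain a 1 ha hQK
  have hbase : 1 ≤ T ^ 6 * A ^ 5 := Nat.mul_pos (by positivity) (by positivity)
  have hx : ∀ l, nr.ν ((fun l => Z (none, some l)) l) ≤ 2 := fun l => hZ _
  have hv : ∀ i l, nr.ν ((fun l => Z (some i, some l)) l) ≤ 2 := fun i l => hZ _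
  have hMf := fun i => n_Mf lo S El K nr hP (hv i)
  have hdM := fun i l => n_dM lo S El K nr hP (hv i) l
  have hbt := fun i => n_bt lo S El K nr hε hx (hv i)
  have hdbt := fun i l => n_dbt lo S El K nr hx (hv i) l
  have hq := fun i => n_q1 nr (hv i)
  have hmn := fun i t => n_mon lo S El K nr (hv i) t
  have hdmn := fun i l t => n_dmon lo S El K nr (hv i) l t
  have hnf := n_nf nr hP hx
  have hdn := fun l => n_dn nr hP hx l
  have hKK : (mkD lo S El K).K = K := rfl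
  rw [← hAA, ← hT] at *
  -- comparisons of powers
  have pA : ∀ k ≤ 5, A ^ k ≤ A ^ 5 := fun k hk => Nat.pow_le_pow_right hA hk
  have pT : ∀ k ≤ 6, T ^ k ≤ T ^ 6 := fun k hk => Nat.pow_le_pow_right (by omega) hk
  have pTA : ∀ j ≤ 6, ∀ k ≤ 5, T ^ j * A ^ k ≤ T ^ 6 * A ^ 5 := fun j hj k hk =>
    Nat.mul_le_mul (pT j hj) (pA k hk)
  constructor
  · rintro ⟨_ | i, _ | l⟩ (t | _ | l')
    · exact nzero nr _
    · exact (nneg nr nr.one).trans (hmain1 1 (by omega))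
    · exact (nneg nr (hZ _)).trans (hmain1 2 (by omega))
    · exact nzero nr _
    · exact nzero nr _
    · simp only [Am]
      split_ifs
      · exact (nneg nr nr.one).trans (hmain1 1 (by omega))
      · exact nzero nr _
    · simp only [Am]
      refine (nmul nr (nmul nr (hmn i t) (npow nr (hq i) _)) (hbt i)).trans ?_
      rw [hKK, ← hQ]
      have h1 := pTA 0 (by omega) 4 (by omega)
      calc A ^ 3 * Q * (4 * A) = 4 * (T ^ 0 * A ^ 4) * Q := by ring
        _ ≤ _ := hmain _ _ (by omega) (Nat.le_mul_of_pos_right _ (by omega))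
    · exact (nneg nr (hZ _)).trans (hmain1 2 (by omega))
    · exact (nneg nr (nmul nr (hZ _) (hZ _))).trans (hmain1 4 (by omega))
    · simp only [Am]
      refine (nadd nr (nmul nr (hq i) (nadd nr (nmul nr (hbt i) (hdmn i l t))
        (nmul nr (hmn i t) (hdbt i l)))) (nmul nr (nmul nr (ntwo nr) (nnat nr _))
        (nmul nr (nmul nr (hmn i t) (hbt i)) (hZ _)))).trans ?_
      rw [hKK]
      have h1 := pTA 1 (by omega) 4 (by omega)
      have h2 := pTA 0 (by omega) 4 (by omega)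
      have h3 : 4 * T * (4 * A * (3 * A ^ 3) + A ^ 3 * (2 * A)) + 2 * K * (A ^ 3 * (4 * A) * 2) ≤
          (72 * (T ^ 1 * A ^ 4)) * (K + 1) := by
        have h4 : 1 ≤ T ^ 1 := by rw [pow_one]; omega
        have h5 : A ^ 4 ≤ T ^ 1 * A ^ 4 := Nat.le_mul_of_pos_left _ h4
        calc _ = 56 * (T ^ 1 * A ^ 4) + 16 * (K * A ^ 4) := by ring
          _ ≤ 56 * (T ^ 1 * A ^ 4) + 16 * (K * (T ^ 1 * A ^ 4)) :=
              Nat.add_le_add_left (Nat.mul_le_mul_left _ (Nat.mul_le_mul_left _ h5)) _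
          _ ≤ _ := by
              have : 0 ≤ K * (T ^ 1 * A ^ 4) := Nat.zero_le _
              nlinarith
      exact h3.trans (hmain _ _ (by omega) (Nat.le_mul_of_pos_left _ hQ1))
    · exact nzero nr _
    · exact nzero nr _
  · rintro ⟨_ | i, _ | l⟩
    · simp only [Sys]
      refine (nsub nr (nsum nr (fun i => nmul nr (hZ _) (hbt i)) (c := T)
        (by rw [Fintype.card_fin]; exact hrT)) hnf).trans (hmain1 _ ?_)
      have h1 := pTA 1 (by omega) 1 (by omega)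
      have h2 := pTA 3 (by omega) 0 (by omega)
      calc T * (2 * (4 * A)) + 20 * T ^ 3 = 8 * (T ^ 1 * A ^ 1) + 20 * (T ^ 3 * A ^ 0) := by ring
        _ ≤ _ := by omega
    · simp only [Sys]
      refine (nsub nr (nmul nr (ntwo nr) (nsum nr (fun i => nmul nr (hZ _)
        (nmul nr (n_w lo S El K nr l) (nsub nr (hZ _) (hZ _)))) (c := T)
        (by rw [Fintype.card_fin]; exact hrT))) (hdn l)).trans (hmain1 _ ?_)
      have h1 := pTA 1 (by omega) 1 (by omega)
      have h2 := pTA 2 (by omega) 0 (by omega)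
      calc 2 * (T * (2 * (El.length * (2 + 2)))) + 34 * T ^ 2
          ≤ 2 * (T * (2 * (A * (2 + 2)))) + 34 * T ^ 2 := by
            have : T * (2 * (El.length * (2 + 2))) ≤ T * (2 * (A * (2 + 2))) :=
              Nat.mul_le_mul_left _ (by omega)
            omega
        _ = 16 * (T ^ 1 * A ^ 1) + 34 * (T ^ 2 * A ^ 0) := by ring
        _ ≤ _ := by omega
    · simp only [Sys, fi]
      refine (nsub nr (nmul nr (nmul nr (hMf i) (npow nr (hq i) _)) (hbt i))
        (nmul nr (hZ _) hnf)).trans ?_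
      rw [hKK, ← hQ]
      have h1 := pTA 5 (by omega) 5 (by omega)
      have h2 := pTA 3 (by omega) 0 (by omega)
      have h3 : 4 * T ^ 5 * A ^ 4 * Q * (4 * A) + 2 * (20 * T ^ 3) ≤
          (16 * (T ^ 5 * A ^ 5) + 40 * (T ^ 3 * A ^ 0)) * Q := by
        have h4 : T ^ 3 * A ^ 0 ≤ T ^ 3 * A ^ 0 * Q := Nat.le_mul_of_pos_right _ hQ1
        nlinarith
      exact h3.trans (hmain _ _ (by omega) (Nat.le_mul_of_pos_right _ (by omega)))
    · simp only [Sys, dfi]
      refine (nadd nr (nmul nr (hq i) (nadd nr (nmul nr (hbt i) (hdM i l))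
        (nmul nr (hMf i) (hdbt i l)))) (nmul nr (nmul nr (ntwo nr) (nnat nr _))
        (nmul nr (nmul nr (hMf i) (hbt i)) (hZ _)))).trans ?_
      rw [hKK]
      have h1 := pTA 6 (by omega) 5 (by omega)
      have h3 : 4 * T * (4 * A * (14 * T ^ 5 * A ^ 4) + 4 * T ^ 5 * A ^ 4 * (2 * A)) +
          2 * K * (4 * T ^ 5 * A ^ 4 * (4 * A) * 2) ≤ (320 * (T ^ 6 * A ^ 5)) * (K + 1) := by
        have h5 : T ^ 5 * A ^ 5 ≤ T ^ 6 * A ^ 5 := pTA 5 (by omega) 5 (by omega)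
        calc _ = 256 * (T ^ 6 * A ^ 5) + 64 * (K * (T ^ 5 * A ^ 5)) := by ring
          _ ≤ 256 * (T ^ 6 * A ^ 5) + 64 * (K * (T ^ 6 * A ^ 5)) :=
              Nat.add_le_add_left (Nat.mul_le_mul_left _ (Nat.mul_le_mul_left _ h5)) _
          _ ≤ _ := by nlinarith
      exact h3.trans (hmain _ _ (by omega) (Nat.le_mul_of_pos_left _ hQ1))

end

end Pool.Agent.U7.Iso
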