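import Mathlib
import Pool.Agent.H612.EAR

/-!
# Isolated points and an additional universal quantifier
-/

set_option autoImplicit false
set_option linter.unusedSimpArgs false

namespace Pool.Agent.U7.Iso

open Pool.Agent.NPC Pool.Agent.NPC.ER Pool.Agent.NPC.H612

/-- The set given by `φ` in `ℝⁿ` has an isolated point (with assignments in place of points). -/
def IsoN (n : ℕ) (φ : Fm) : Prop := ∃ x : ℕ → ℝ, (∀ i, n ≤ i → x i = 0) ∧ φ.Holds x ∧
  ∃ δ > 0, ∀ y : ℕ → ℝ, (∀ i, n ≤ i → y i = 0) → φ.Holds y → (∀ i < n, |y i - x i| < δ) →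
    ∀ i < n, y i = x i

/-- The scaled constraint; the scaled variable `k` has the place `b + vl.idxOf k`, and the scaling
factor has the place `a`. -/
def sCon (a b : ℕ) (vl : List ℕ) : ER.Con → Fm
  | ER.Con.one i => Fm.eq (Tm.var (b + vl.idxOf i)) (Tm.var a)
  | ER.Con.add i j k => Fm.eq (Tm.add (Tm.var (b + vl.idxOf i)) (Tm.var (b + vl.idxOf j)))
      (Tm.var (b + vl.idxOf k))
  | ER.Con.mul i j k => Fm.eq (Tm.mul (Tm.var (b + vl.idxOf i)) (Tm.var (b + vl.idxOf j)))
      (Tm.mul (Tm.var a) (Tm.var (b + vl.idxOf k)))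

/-- The list of the variables. -/
def cvl (nP : ℕ) (ψ : Fm) : List ℕ := (List.range nP).map (2 * ·) ++ (sysOf ψ).flatMap ER.Con.vars

/-- The dimension. -/
def cdim (nP : ℕ) (ψ : Fm) : ℕ := nP + 1 + (cvl nP ψ).length

/-- The formula. -/
def coneF (nP : ℕ) (χ ψ : Fm) : Fm :=
  Fm.and χ (Fm.or
    (Fm.and (Fm.eq (Tm.var nP) Tm.zero)
      (conj ((List.range (cvl nP ψ).length).map fun j => Fm.eq (Tm.var (nP + 1 + j)) Tm.zero)))
    (Fm.and (Fm.lt Tm.zero (Tm.var nP))
      (Fm.and (conj ((sysOf ψ).map (sCon nP (nP + 1) (cvl nP ψ))))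
        (conj ((List.range nP).map fun i =>
          Fm.eq (Tm.var (nP + 1 + i)) (Tm.mul (Tm.var nP) (Tm.var i)))))))

theorem holds_coneF (nP : ℕ) (χ ψ : Fm) (x : ℕ → ℝ) : (coneF nP χ ψ).Holds x ↔
    χ.Holds x ∧ ((x nP = 0 ∧ ∀ j < (cvl nP ψ).length, x (nP + 1 + j) = 0) ∨
      (0 < x nP ∧ (∀ c ∈ sysOf ψ, (sCon nP (nP + 1) (cvl nP ψ) c).Holds x) ∧
        ∀ i < nP, x (nP + 1 + i) = x nP * x i)) := by
  simp only [coneF, Fm.Holds, holds_conj, Tm.eval]
  simp [Fm.Holds, Tm.eval]

theorem idx_even {nP : ℕ} (ψ : Fm) {i : ℕ} (hi : i < nP) : (cvl nP ψ).idxOf (2 * i) = i := by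
  unfold cvl
  have hmem : 2 * i ∈ (List.range nP).map (2 * ·) := by
    simp only [List.mem_map, List.mem_range]
    exact ⟨i, hi, rfl⟩
  rw [List.idxOf_append_of_mem hmem]
  have hnd : ((List.range nP).map (2 * ·)).Nodup := by
    refine List.Nodup.map ?_ List.nodup_range
    intro a b h
    simpa using h
  have h1 : i < ((List.range nP).map (2 * ·)).length := by simpa using hi
  have h2 : ((List.range nP).map (2 * ·))[i] = 2 * i := by simp
  have h3 := hnd.idxOf_getElem i h1
  rwa [h2] at h3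

theorem idx_lt {nP : ℕ} {ψ : Fm} {c : ER.Con} (hc : c ∈ sysOf ψ) {k : ℕ} (hk : k ∈ c.vars) :
    (cvl nP ψ).idxOf k < (cvl nP ψ).length := by
  refine List.idxOf_lt_length_iff.2 ?_
  unfold cvl
  rw [List.mem_append]
  exact Or.inr (List.mem_flatMap.2 ⟨c, hc, hk⟩)

theorem sCon_iff {a b : ℕ} {vl : List ℕ} {c : ER.Con} {x u : ℕ → ℝ} (ha : x a ≠ 0)
    (h : ∀ k ∈ c.vars, x (b + vl.idxOf k) = x a * u k) :
    (sCon a b vl c).Holds x ↔ c.Holds u := by
  cases c with
  | one i =>
    simp only [ER.Con.vars, List.mem_singleton, forall_eq] at h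
    simp only [sCon, Fm.Holds, Tm.eval, ER.Con.Holds, h]
    constructor
    · intro h1
      have : x a * u i = x a * 1 := by rw [h1, mul_one]
      exact mul_left_cancel₀ ha this
    · intro h1; rw [h1, mul_one]
  | add i j k =>
    simp only [ER.Con.vars, List.mem_cons, List.not_mem_nil, or_false, forall_eq_or_imp,
      forall_eq] at h
    simp only [sCon, Fm.Holds, Tm.eval, ER.Con.Holds, h]
    rw [← mul_add]
    exact mul_right_inj' ha
  | mul i j k =>
    simp only [ER.Con.vars, List.mem_cons, List.not_mem_nil, or_false, forall_eq_or_imp,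
      forall_eq] at h
    simp only [sCon, Fm.Holds, Tm.eval, ER.Con.Holds, h]
    rw [show x a * u i * (x a * u j) = x a * (x a * (u i * u j)) by ring]
    rw [mul_right_inj' ha, mul_right_inj' ha]

theorem cone_iff (nP : ℕ) (χ ψ : Fm)
    (hχ : ∀ x y : ℕ → ℝ, (∀ i < nP, x i = y i) → χ.Holds x → χ.Holds y) :
    IsoN (cdim nP ψ) (coneF nP χ ψ) ↔ ∃ p : ℕ → ℝ, (∀ i, nP ≤ i → p i = 0) ∧ χ.Holds p ∧
      (∃ δ > 0, ∀ p' : ℕ → ℝ, (∀ i, nP ≤ i → p' i = 0) → χ.Holds p' →
        (∀ i < nP, |p' i - p i| < δ) → ∀ i < nP, p' i = p i) ∧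
      ∀ z : ℕ → ℝ, (∀ i < nP, z i = p i) → ¬ ψ.Holds z := by
  classical
  obtain ⟨m, hm⟩ : ∃ m, m = (cvl nP ψ).length := ⟨_, rfl⟩
  have hdim : cdim nP ψ = nP + 1 + m := by rw [cdim, hm]
  have hnm : nP ≤ m := by
    rw [hm, cvl, List.length_append]
    simp
  constructor
  · rintro ⟨x, hx0, hx, δ, hδ, hiso⟩
    rw [hdim] at hx0 hiso
    rw [holds_coneF] at hx
    obtain ⟨hχx, hx⟩ := hx
    rcases hx with ⟨ht, hw⟩ | ⟨ht, hc, hp⟩
    · rw [← hm] at hw
      obtain ⟨p, hp⟩ : ∃ p : ℕ → ℝ, ∀ i, p i = if i < nP then x i else 0 := ⟨_, fun _ => rfl⟩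
      have hpx : ∀ i < nP, p i = x i := fun i hi => by rw [hp, if_pos hi]
      refine ⟨p, fun i hi => by rw [hp, if_neg (by omega)], hχ x p (fun i hi => (hpx i hi).symm) hχx,
        ⟨δ, hδ, ?_⟩, ?_⟩
      · intro p' hp'0 hp' hclose i hi
        have h1 := hiso p' (fun j hj => hp'0 j (by omega)) (by
          rw [holds_coneF]
          exact ⟨hp', Or.inl ⟨hp'0 _ le_rfl, fun j _ => hp'0 _ (by omega)⟩⟩) (fun j hj => by
            by_cases hjn : j < nP
            · rw [← hpx j hjn]; exact hclose j hjn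
            · have h2 : x j = 0 := by
                rcases Nat.lt_or_ge nP j with h | h
                · obtain ⟨k, rfl⟩ : ∃ k, j = nP + 1 + k := ⟨j - (nP + 1), by omega⟩
                  exact hw k (by omega)
                · have : j = nP := by omega
                  rw [this]; exact ht
              rw [h2, hp'0 j (by omega)]
              simpa using hδ) i (by omega)
        rw [h1, hpx i hi]
      · intro z hz hψ
        obtain ⟨u, hu1, hu2⟩ := (sysOf_spec ψ).2 z hψ
        -- the scaled point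
        obtain ⟨C, hC0, hC⟩ : ∃ C : ℝ, 0 < C ∧ ∀ j < m, |u ((cvl nP ψ).getD j 0)| < C := by
          refine ⟨1 + ∑ j ∈ Finset.range m, |u ((cvl nP ψ).getD j 0)|, ?_, fun j hj => ?_⟩
          · have : 0 ≤ ∑ j ∈ Finset.range m, |u ((cvl nP ψ).getD j 0)| :=
              Finset.sum_nonneg fun _ _ => abs_nonneg _
            linarith
          · have := Finset.single_le_sum (f := fun j => |u ((cvl nP ψ).getD j 0)|)
              (fun _ _ => abs_nonneg _) (Finset.mem_range.2 hj)
            linarith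
        obtain ⟨t, ht0, htδ, htC⟩ : ∃ t : ℝ, 0 < t ∧ t < δ ∧ t * C < δ := by
          refine ⟨min (δ / 2) (δ / (2 * C)), lt_min (by positivity) (by positivity), ?_, ?_⟩
          · exact lt_of_le_of_lt (min_le_left _ _) (by linarith)
          · have h1 : min (δ / 2) (δ / (2 * C)) ≤ δ / (2 * C) := min_le_right _ _
            have h2 : δ / (2 * C) * C = δ / 2 := by field_simp
            have h3 := mul_le_mul_of_nonneg_right h1 hC0.le
            linarith
        obtain ⟨y, hy⟩ : ∃ y : ℕ → ℝ, ∀ i, y i = if i < nP then x i else if i = nP then t else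
            if i < nP + 1 + m then t * u ((cvl nP ψ).getD (i - (nP + 1)) 0) else 0 :=
          ⟨_, fun _ => rfl⟩
        have y1 : ∀ i < nP, y i = x i := fun i hi => by rw [hy, if_pos hi]
        have y2 : y nP = t := by rw [hy, if_neg (lt_irrefl _), if_pos rfl]
        have y3 : ∀ j < m, y (nP + 1 + j) = t * u ((cvl nP ψ).getD j 0) := fun j hj => by
          rw [hy, if_neg (by omega), if_neg (by omega), if_pos (by omega)]
          congr 3
          omega
        have hyidx : ∀ k, (cvl nP ψ).idxOf k < m → y (nP + 1 + (cvl nP ψ).idxOf k) = t * u k := by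
          intro k hk
          rw [y3 _ hk]
          congr 2
          rw [hm] at hk
          rw [List.getD_eq_getElem _ _ hk, List.getElem_idxOf]
        have hyH : (coneF nP χ ψ).Holds y := by
          rw [holds_coneF]
          refine ⟨hχ x y (fun i hi => (y1 i hi).symm) hχx, Or.inr ⟨by rw [y2]; exact ht0,
            fun c hc => ?_, fun i hi => ?_⟩⟩
          · rw [sCon_iff (u := u) (by rw [y2]; exact ht0.ne') (fun k hk => by
              rw [y2]
              exact hyidx k (by rw [hm]; exact idx_lt hc hk))]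
            exact hu2 c hc
          · have h1 := hyidx (2 * i) (by rw [idx_even ψ hi]; omega)
            rw [idx_even ψ hi] at h1
            rw [h1, y2, hu1, hz i hi, hpx i hi, y1 i hi]
        have h2 := hiso y (fun i hi => by
          rw [hy, if_neg (by omega), if_neg (by omega), if_neg (by omega)]) hyH (fun i hi => by
            by_cases h1 : i < nP
            · rw [y1 i h1, sub_self, abs_zero]; exact hδ
            · by_cases h2 : i = nP
              · rw [h2, y2, ht, sub_zero, abs_of_pos ht0]; exact htδ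
              · obtain ⟨k, rfl⟩ : ∃ k, i = nP + 1 + k := ⟨i - (nP + 1), by omega⟩
                rw [y3 k (by omega), hw k (by omega), sub_zero, abs_mul, abs_of_pos ht0]
                have h3 := hC k (by omega)
                nlinarith) nP (by omega)
        rw [y2, ht] at h2
        exact ht0.ne' h2
    · exfalso
      -- scale the point
      obtain ⟨C, hC0, hC⟩ : ∃ C : ℝ, 0 < C ∧ ∀ i < nP + 1 + m, |x i| < C := by
        refine ⟨1 + ∑ j ∈ Finset.range (nP + 1 + m), |x j|, ?_, fun j hj => ?_⟩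
        · have : 0 ≤ ∑ j ∈ Finset.range (nP + 1 + m), |x j| :=
            Finset.sum_nonneg fun _ _ => abs_nonneg _
          linarith
        · have := Finset.single_le_sum (f := fun j => |x j|)
            (fun _ _ => abs_nonneg _) (Finset.mem_range.2 hj)
          linarith
      obtain ⟨s, hs0, hsC⟩ : ∃ s : ℝ, 0 < s ∧ s * C < δ := by
        refine ⟨δ / (2 * C), by positivity, ?_⟩
        have h2 : δ / (2 * C) * C = δ / 2 := by field_simp
        linarith
      obtain ⟨y, hy⟩ : ∃ y : ℕ → ℝ, ∀ i, y i = if i < nP then x i else (1 + s) * x i :=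
        ⟨_, fun _ => rfl⟩
      have y1 : ∀ i < nP, y i = x i := fun i hi => by rw [hy, if_pos hi]
      have y2 : ∀ i, nP ≤ i → y i = (1 + s) * x i := fun i hi => by rw [hy, if_neg (by omega)]
      obtain ⟨u, hu⟩ : ∃ u : ℕ → ℝ, ∀ k, u k = x (nP + 1 + (cvl nP ψ).idxOf k) / x nP :=
        ⟨_, fun _ => rfl⟩
      have hyH : (coneF nP χ ψ).Holds y := by
        rw [holds_coneF]
        have hyn : y nP = (1 + s) * x nP := y2 nP le_rfl
        have hynp : 0 < y nP := by rw [hyn]; positivity
        refine ⟨hχ x y (fun i hi => (y1 i hi).symm) hχx, Or.inr ⟨hynp, fun c hc' => ?_,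
          fun i hi => ?_⟩⟩
        · have e1 := hc c hc'
          rw [sCon_iff (u := u) ht.ne' (fun k _ => by rw [hu]; field_simp)] at e1
          rw [sCon_iff (u := u) hynp.ne' (fun k _ => by
            rw [y2 _ (by omega), hyn, hu]; field_simp)]
          exact e1
        · rw [y2 _ (by omega), hp i hi, hyn, y1 i hi]
          ring
      have h2 := hiso y (fun i hi => by rw [y2 i (by omega), hx0 i hi, mul_zero]) hyH
        (fun i hi => by
          by_cases h1 : i < nP
          · rw [y1 i h1, sub_self, abs_zero]; exact hδ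
          · rw [y2 i (by omega), show (1 + s) * x i - x i = s * x i by ring, abs_mul,
              abs_of_pos hs0]
            have h3 := hC i hi
            nlinarith) nP (by omega)
      rw [y2 nP le_rfl] at h2
      nlinarith
  · rintro ⟨p, hp0, hp, ⟨δ, hδ, hiso⟩, hψ⟩
    refine ⟨p, fun i hi => hp0 i (by rw [hdim] at hi; omega), ?_, δ, hδ, ?_⟩
    · rw [holds_coneF]
      exact ⟨hp, Or.inl ⟨hp0 _ le_rfl, fun j _ => hp0 _ (by omega)⟩⟩
    · intro y hy0 hy hclose
      rw [hdim] at hclose hy0 ⊢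
      rw [holds_coneF] at hy
      obtain ⟨hχy, hy⟩ := hy
      obtain ⟨p', hp'⟩ : ∃ p' : ℕ → ℝ, ∀ i, p' i = if i < nP then y i else 0 := ⟨_, fun _ => rfl⟩
      have hpy : ∀ i < nP, p' i = y i := fun i hi => by rw [hp', if_pos hi]
      have h1 := hiso p' (fun i hi => by rw [hp', if_neg (by omega)])
        (hχ y p' (fun i hi => (hpy i hi).symm) hχy) (fun i hi => by
          rw [hpy i hi]; exact hclose i (by omega))
      have hyp : ∀ i < nP, y i = p i := fun i hi => by rw [← hpy i hi, h1 i hi]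
      rcases hy with ⟨ht, hw⟩ | ⟨ht, hc, hpp⟩
      · intro i hi
        by_cases h1 : i < nP
        · exact hyp i h1
        · rw [hp0 i (by omega)]
          by_cases h2 : i = nP
          · rw [h2, ht]
          · obtain ⟨k, rfl⟩ : ∃ k, i = nP + 1 + k := ⟨i - (nP + 1), by omega⟩
            exact hw k (by omega)
      · exfalso
        obtain ⟨u, hu⟩ : ∃ u : ℕ → ℝ, ∀ k, u k = y (nP + 1 + (cvl nP ψ).idxOf k) / y nP :=
          ⟨_, fun _ => rfl⟩
        have hsys : SysHolds u (sysOf ψ) := fun c hc' => by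
          have e1 := hc c hc'
          rwa [sCon_iff (u := u) ht.ne' (fun k _ => by rw [hu]; field_simp)] at e1
        refine hψ _ (fun i hi => ?_) ((sysOf_spec ψ).1 u hsys)
        rw [hu, idx_even ψ hi, hpp i hi, hyp i hi]
        field_simp

end Pool.Agent.U7.Iso
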