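import Mathlib
import Pool.Agent.U7.Iso.Forms

/-!
# The matrix of the coefficients of the parameters has full rank
-/

set_option autoImplicit false
set_option linter.unusedSimpArgs false

namespace Pool.Agent.U7.Iso

open Finset Pool.Agent.H612 Pool.Agent.R537.RN

variable {N r : ℕ} (D : Dat N)

theorem tri (p q s x y z : J N → ℝ) :
    ∑ t : T3 N, (p t.1 * q t.2.1 * s t.2.2) * (x t.1 * y t.2.1 * z t.2.2) =
      (p ⬝ᵥ x) * (q ⬝ᵥ y) * (s ⬝ᵥ z) := by
  rw [Fintype.sum_prod_type]
  simp only [Fintype.sum_prod_type, dotProduct]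
  rw [Finset.sum_mul_sum, Finset.sum_mul]
  refine Finset.sum_congr rfl fun a _ => ?_
  rw [Finset.sum_mul]
  refine Finset.sum_congr rfl fun b _ => ?_
  rw [Finset.mul_sum]
  refine Finset.sum_congr rfl fun c _ => ?_
  ring

/-- Cubic Hermite interpolation at linearly independent points. -/
theorem interp (v : Fin r → Fin N → ℝ) (hind : LinearIndependent ℝ fun i => zt D (v i))
    (τ : Fin r → ℝ) (g : Fin r → Fin N → ℝ) :
    ∃ c : T3 N → ℝ, ∀ i, ∑ t, c t * mon (zt D (v i)) t = τ i ∧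
      ∀ l, ∑ t, c t * dmon (zt D (v i)) (dz D (v i) l) t = g i l := by
  classical
  -- dual functionals
  obtain ⟨ℓ, hℓ⟩ : ∃ ℓ : Fin r → J N → ℝ, ∀ i j, ℓ i ⬝ᵥ zt D (v j) = if i = j then 1 else 0 := by
    obtain ⟨f, hf⟩ : ∃ f : (Fin r → ℝ) →ₗ[ℝ] (J N → ℝ), f = Fintype.linearCombination ℝ
        (fun i => zt D (v i)) := ⟨_, rfl⟩
    have hinj : LinearMap.ker f = ⊥ := by
      rw [hf]
      exact LinearMap.ker_eq_bot.2 (linearIndependent_iff_injective_fintypeLinearCombination.1 hind)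
    obtain ⟨g', hg'⟩ := f.exists_leftInverse_of_injective hinj
    refine ⟨fun i a => g' (Pi.single a 1) i, fun i j => ?_⟩
    have h1 : g' (zt D (v j)) = Pi.single j 1 := by
      have h2 : f (Pi.single j 1) = zt D (v j) := by
        rw [hf, Fintype.linearCombination_apply_single, one_smul]
      rw [← h2]
      exact LinearMap.congr_fun hg' _
    have h3 : g' (zt D (v j)) i = ∑ a, g' (Pi.single a 1) i * zt D (v j) a := by
      conv_lhs => rw [pi_eq_sum_univ' (zt D (v j))]
      rw [map_sum, Finset.sum_apply]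
      refine Finset.sum_congr rfl fun a _ => ?_
      rw [map_smul, Pi.smul_apply, smul_eq_mul, mul_comm]
    rw [dotProduct, ← h3, h1, Pi.single_apply]
  obtain ⟨γ, hγ⟩ : ∃ γ : Fin r → Fin N → ℝ, ∀ i l, γ i l =
      g i l - 3 * τ i * (ℓ i ⬝ᵥ dz D (v i) l) := ⟨_, fun _ _ => rfl⟩
  obtain ⟨m, hm⟩ : ∃ m : Fin r → J N → ℝ, ∀ i, m i = fun a => match a with
      | none => - ∑ l, γ i l * v i l
      | some none => 0
      | some (some l) => γ i l := ⟨_, fun _ => rfl⟩
  have hm1 : ∀ i, m i ⬝ᵥ zt D (v i) = 0 := by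
    intro i
    rw [hm, dotProduct, Fintype.sum_option, Fintype.sum_option]
    simp [zt]
  have hm2 : ∀ i l, m i ⬝ᵥ dz D (v i) l = γ i l := by
    intro i l
    rw [hm, dotProduct, Fintype.sum_option, Fintype.sum_option]
    simp [dz]
  obtain ⟨c, hc⟩ : ∃ c : T3 N → ℝ, ∀ t, c t =
      ∑ i, ℓ i t.1 * ℓ i t.2.1 * (τ i * ℓ i t.2.2 + m i t.2.2) := ⟨_, fun _ => rfl⟩
  have key : ∀ x y z : J N → ℝ, ∑ t : T3 N, c t * (x t.1 * y t.2.1 * z t.2.2) =
      ∑ i, (ℓ i ⬝ᵥ x) * (ℓ i ⬝ᵥ y) * (τ i * (ℓ i ⬝ᵥ z) + m i ⬝ᵥ z) := by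
    intro x y z
    simp only [hc, Finset.sum_mul]
    rw [Finset.sum_comm]
    refine Finset.sum_congr rfl fun i _ => ?_
    have h1 := tri (ℓ i) (ℓ i) (fun a => τ i * ℓ i a + m i a) x y z
    rw [h1]
    congr 1
    simp only [dotProduct, Finset.mul_sum, ← Finset.sum_add_distrib]
    exact Finset.sum_congr rfl fun _ _ => by ring
  refine ⟨c, fun j => ⟨?_, ?_⟩⟩
  · simp only [mon]
    rw [key, Finset.sum_eq_single j]
    · simp [hℓ, hm1]
    · intro i _ hij
      simp [hℓ, hij]
    · simp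
  · intro l
    simp only [dmon, mul_add, Finset.sum_add_distrib]
    rw [key, key, key]
    rw [Finset.sum_eq_single j (by intro i _ hij; simp [hℓ, hij]) (by simp),
      Finset.sum_eq_single j (by intro i _ hij; simp [hℓ, hij]) (by simp),
      Finset.sum_eq_single j (by intro i _ hij; simp [hℓ, hij]) (by simp)]
    simp only [hℓ, hm1, hm2, if_true, mul_one, one_mul, hγ]
    ring

theorem q1_pos (v : Fin N → ℝ) : 0 < q1 v := by
  unfold q1
  have : 0 ≤ ∑ l, v l ^ 2 := Finset.sum_nonneg fun _ _ => sq_nonneg _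
  linarith

/-- The matrix of the coefficients is surjective. -/
theorem Am_surj (Z : Un r N → ℝ) (ε : ℝ)
    (hβ : ∀ i, bt D ε (fun l => Z (none, some l)) (fun l => Z (some i, some l)) ≠ 0)
    (hind : LinearIndependent ℝ fun i : Fin r => zt D (fun l => Z (some i, some l)))
    (T : Un r N → ℝ) : ∃ P : Pm N → ℝ, ∀ e, ∑ p, Am D Z ε e p * P p = T e := by
  classical
  obtain ⟨x, hx⟩ : ∃ x : Fin N → ℝ, x = fun l => Z (none, some l) := ⟨_, rfl⟩
  obtain ⟨v, hv⟩ : ∃ v : Fin r → Fin N → ℝ, v = fun i l => Z (some i, some l) := ⟨_, rfl⟩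
  obtain ⟨a, ha⟩ : ∃ a : Option (Fin N) → ℝ, a = fun o => match o with
    | none => - T (none, none) + ∑ l, T (none, some l) * x l
    | some l => - T (none, some l) := ⟨_, rfl⟩
  have hβ' : ∀ i, bt D ε x (v i) ≠ 0 := by rw [hx, hv]; exact hβ
  have hind' : LinearIndependent ℝ fun i => zt D (v i) := by rw [hv]; exact hind
  have h3 : ∀ i, q1 (v i) ^ D.K * bt D ε x (v i) ≠ 0 := fun i =>
    mul_ne_zero (pow_ne_zero _ (q1_pos _).ne') (hβ' i)
  have h5 : ∀ i, q1 (v i) * bt D ε x (v i) ≠ 0 := fun i => mul_ne_zero (q1_pos _).ne' (hβ' i)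
  obtain ⟨τ, hτ⟩ : ∃ τ : Fin r → ℝ, ∀ i, τ i * (q1 (v i) ^ D.K * bt D ε x (v i)) =
      T (some i, none) + Z (none, none) * (a none + ∑ l, a (some l) * x l) :=
    ⟨fun i => (T (some i, none) + Z (none, none) * (a none + ∑ l, a (some l) * x l)) /
      (q1 (v i) ^ D.K * bt D ε x (v i)), fun i => div_mul_cancel₀ _ (h3 i)⟩
  obtain ⟨g, hg⟩ : ∃ g : Fin r → Fin N → ℝ, ∀ i l, g i l * (q1 (v i) * bt D ε x (v i)) =
      T (some i, some l) - 2 * (D.K : ℝ) * (τ i * bt D ε x (v i) * v i l) -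
        q1 (v i) * (τ i * dbt D x (v i) l) :=
    ⟨fun i l => (T (some i, some l) - 2 * (D.K : ℝ) * (τ i * bt D ε x (v i) * v i l) -
        q1 (v i) * (τ i * dbt D x (v i) l)) / (q1 (v i) * bt D ε x (v i)),
      fun i l => div_mul_cancel₀ _ (h5 i)⟩
  obtain ⟨c, hc⟩ := interp D v hind' τ g
  have e2 : ∀ l, Z (none, some l) = x l := fun l => by rw [hx]
  refine ⟨Sum.elim c a, fun e => ?_⟩
  rw [Fintype.sum_sum_type, Fintype.sum_option]
  rcases e with ⟨_ | i, _ | l⟩
  · simp only [Am, Sum.elim_inl, Sum.elim_inr, zero_mul, Finset.sum_const_zero, zero_add, ha, e2]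
    have h2 : ∑ l, -x l * -T (none, some l) = ∑ l, T (none, some l) * x l :=
      Finset.sum_congr rfl fun _ _ => by ring
    rw [h2]
    ring
  · simp only [Am, Sum.elim_inl, Sum.elim_inr, zero_mul, Finset.sum_const_zero, zero_add, ha,
      ite_mul, Finset.sum_ite_eq', Finset.mem_univ, if_true]
    ring
  · have h1 := (hc i).1
    simp only [Am, Sum.elim_inl, Sum.elim_inr]
    have e1 : (fun l => Z (some i, some l)) = v i := by rw [hv]
    rw [e1, ← hx]
    simp only [e2]
    have h2 : ∑ t, mon (zt D (v i)) t * q1 (v i) ^ D.K * bt D ε x (v i) * c t =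
        (∑ t, c t * mon (zt D (v i)) t) * (q1 (v i) ^ D.K * bt D ε x (v i)) := by
      rw [Finset.sum_mul]
      exact Finset.sum_congr rfl fun _ _ => by ring
    rw [h2, h1, hτ]
    have h4 : ∑ l, -(Z (none, none) * x l) * a (some l) =
        - (Z (none, none) * ∑ l, a (some l) * x l) := by
      rw [Finset.mul_sum, ← Finset.sum_neg_distrib]
      exact Finset.sum_congr rfl fun _ _ => by ring
    rw [h4]
    ring
  · have h1 := (hc i).1
    have h2 := (hc i).2 l
    simp only [Am, Sum.elim_inl, Sum.elim_inr, zero_mul, Finset.sum_const_zero, add_zero]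
    have e1 : (fun l => Z (some i, some l)) = v i := by rw [hv]
    have e3 : Z (some i, some l) = v i l := by rw [hv]
    rw [e1, ← hx, e3]
    have h3 : ∀ q B β k y : ℝ, ∑ t, (q * (B * dmon (zt D (v i)) (dz D (v i) l) t +
        mon (zt D (v i)) t * β) + k * (mon (zt D (v i)) t * B * y)) * c t =
        q * (B * (∑ t, c t * dmon (zt D (v i)) (dz D (v i) l) t) +
          (∑ t, c t * mon (zt D (v i)) t) * β) +
        k * ((∑ t, c t * mon (zt D (v i)) t) * B * y) := by
      intro q B β k y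
      simp only [Finset.mul_sum, Finset.sum_mul, ← Finset.sum_add_distrib]
      exact Finset.sum_congr rfl fun _ _ => by ring
    rw [h3, h1, h2]
    linear_combination hg i l

/-- A surjective matrix has a non-vanishing maximal minor. -/
theorem exists_minor {E P : Type} [Fintype E] [DecidableEq E] [Fintype P] [DecidableEq P]
    (A : Matrix E P ℝ) (hA : ∀ T : E → ℝ, ∃ p, A.mulVec p = T) :
    ∃ I : E → P, Function.Injective I ∧ (A.submatrix id I).det ≠ 0 := by
  classical
  have hspan : Submodule.span ℝ (Set.range A.transpose) = ⊤ := by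
    rw [eq_top_iff]
    rintro T -
    obtain ⟨p, rfl⟩ := hA T
    rw [Matrix.mulVec_eq_sum]
    refine Submodule.sum_mem _ fun i _ => ?_
    rw [op_smul_eq_smul]
    exact Submodule.smul_mem _ _ (Submodule.subset_span ⟨i, rfl⟩)
  obtain ⟨b, hb1, hb2, hb3⟩ := exists_linearIndependent ℝ (Set.range A.transpose)
  rw [hspan] at hb2
  have hbas : Nonempty (Module.Basis b ℝ (E → ℝ)) :=
    ⟨Module.Basis.mk hb3 (by rw [Subtype.range_coe, hb2])⟩
  obtain ⟨B⟩ := hbas
  have hfin : Finite b := Set.Finite.subset (Set.finite_range _) hb1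
  haveI : Fintype b := Fintype.ofFinite b
  have hcard : Fintype.card E = Fintype.card b := by
    have h1 := Module.finrank_eq_card_basis B
    rw [Module.finrank_fintype_fun_eq_card] at h1
    exact h1
  obtain ⟨e⟩ : Nonempty (E ≃ b) := Fintype.card_eq.1 hcard
  have hch : ∀ x : E, ∃ i : P, A.transpose i = (e x : E → ℝ) := fun x => hb1 (e x).2
  choose I hI using hch
  have hli : LinearIndependent ℝ (fun x => A.transpose (I x)) := by
    have : (fun x => A.transpose (I x)) = (fun y : b => (y : E → ℝ)) ∘ e := by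
      funext x; exact hI x
    rw [this]
    exact hb3.comp _ e.injective
  refine ⟨I, ?_, ?_⟩
  · intro x y hxy
    exact hli.injective (by simp only [hxy])
  · have h1 : (A.submatrix id I).col = fun x => A.transpose (I x) := by
      funext x; rfl
    have h2 : LinearIndependent ℝ (A.submatrix id I).col := by rw [h1]; exact hli
    rw [Matrix.linearIndependent_cols_iff_isUnit, Matrix.isUnit_iff_isUnit_det] at h2
    exact h2.ne_zero

end Pool.Agent.U7.Iso
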