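import Mathlib
import Pool.Agent.U7.Iso.Interp
import Pool.Agent.H612.Limit

/-!
# The game: estimates, continuity and derivatives
-/

set_option autoImplicit false
set_option linter.unusedSimpArgs false

namespace Pool.Agent.U7.Iso

open Finset Filter Topology Pool.Agent.H612 Pool.Agent.R537.RN

variable {N r : ℕ} (D : Dat N)

theorem cont_gv : Continuous fun v : Fin N → ℝ => gv D v := by
  have : (fun v : Fin N → ℝ => gv D v) = fun v => D.G.eval₂ (Int.castRingHom ℝ) v := by
    funext v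
    rw [gv, MvPolynomial.aeval_def]
    rfl
  rw [this]
  exact eval₂_cont _ _

theorem deriv_gv (v : Fin N → ℝ) (l : Fin N) :
    HasDerivAt (fun t : ℝ => gv D (Function.update v l t)) (dg D v l) (v l) :=
  hasDerivAt_eval₂ (Int.castRingHom ℝ) v l D.G

theorem cont_Hv : Continuous fun v : Fin N → ℝ => Hv D v := by
  unfold Hv
  exact (continuous_finsetSum _ fun l _ => by fun_prop).add (cont_gv D)

theorem cont_zt (a : J N) : Continuous fun v : Fin N → ℝ => zt D v a := by
  rcases a with _ | _ | l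
  · exact continuous_const
  · exact cont_Hv D
  · exact continuous_apply l

theorem cont_mon (t : T3 N) : Continuous fun v : Fin N → ℝ => mon (zt D v) t :=
  ((cont_zt D _).mul (cont_zt D _)).mul (cont_zt D _)

theorem cont_Mf (P : Pm N → ℝ) : Continuous fun v : Fin N → ℝ => Mf D P v := by
  unfold Mf
  refine (continuous_const.mul ((continuous_finsetSum _ fun a _ => (cont_zt D a).pow 2).pow 2)).add
    (continuous_finsetSum _ fun t _ => continuous_const.mul (cont_mon D t))

theorem cont_q1 : Continuous fun v : Fin N → ℝ => q1 v := by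
  unfold q1; fun_prop

theorem cont_nf (P : Pm N → ℝ) : Continuous fun x : Fin N → ℝ => nf P x := by
  unfold nf
  exact (continuous_const.mul (cont_q1.pow 2)).add (by fun_prop)

theorem cont_dn (P : Pm N → ℝ) (l : Fin N) : Continuous fun x : Fin N → ℝ => dn P x l := by
  unfold dn
  exact (continuous_const.mul ((continuous_const.mul cont_q1).mul (continuous_apply l))).add
    continuous_const

theorem cont_bt {X : Type} [TopologicalSpace X] {ε : X → ℝ} {x v : X → Fin N → ℝ}
    (hε : Continuous ε) (hx : Continuous x) (hv : Continuous v) :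
    Continuous fun s => bt D (ε s) (x s) (v s) := by
  unfold bt
  exact ((continuous_finsetSum _ fun l _ => by fun_prop).add ((cont_gv D).comp hv)).add hε

theorem cont_fi (P : Pm N → ℝ) {X : Type} [TopologicalSpace X] {ε : X → ℝ} {x v : X → Fin N → ℝ}
    (hε : Continuous ε) (hx : Continuous x) (hv : Continuous v) :
    Continuous fun s => fi D P (ε s) (x s) (v s) := by
  unfold fi
  exact (((cont_Mf D P).comp hv).mul ((cont_q1.comp hv).pow _)).mul (cont_bt D hε hx hv)

/-! ### Estimates -/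

theorem one_le_q1 (v : Fin N → ℝ) : 1 ≤ q1 v := by
  unfold q1
  have : 0 ≤ ∑ l, v l ^ 2 := Finset.sum_nonneg fun _ _ => sq_nonneg _
  linarith

theorem one_le_sz (v : Fin N → ℝ) : 1 ≤ ∑ a, zt D v a ^ 2 := by
  rw [Fintype.sum_option]
  have : 0 ≤ ∑ a, zt D v (some a) ^ 2 := Finset.sum_nonneg fun _ _ => sq_nonneg _
  have h1 : zt D v none = 1 := rfl
  rw [h1]
  linarith

theorem abs_mon_le (v : Fin N → ℝ) (t : T3 N) :
    |mon (zt D v) t| ≤ (∑ a, zt D v a ^ 2) ^ 2 := by
  obtain ⟨S, hS⟩ : ∃ S, S = ∑ a, zt D v a ^ 2 := ⟨_, rfl⟩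
  have h1 : 1 ≤ S := by rw [hS]; exact one_le_sz D v
  have h2 : ∀ a, zt D v a ^ 2 ≤ S := fun a => by
    rw [hS]
    exact Finset.single_le_sum (f := fun a => zt D v a ^ 2) (fun _ _ => sq_nonneg _) (mem_univ a)
  rw [← hS]
  have h3 : ∀ a, |zt D v a| ≤ S := fun a => by
    have := h2 a
    rw [← sq_abs] at this
    nlinarith [abs_nonneg (zt D v a), sq_nonneg (|zt D v a| - 1)]
  have h4 : |zt D v t.1| * |zt D v t.2.1| ≤ S := by
    have e1 := h2 t.1
    have e2 := h2 t.2.1
    rw [← sq_abs] at e1 e2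
    nlinarith [sq_nonneg (|zt D v t.1| - |zt D v t.2.1|)]
  unfold mon
  rw [abs_mul, abs_mul, sq]
  exact mul_le_mul h4 (h3 _) (abs_nonneg _) (by linarith)

theorem card_T3 : Fintype.card (T3 N) = (N + 2) ^ 3 := by
  simp only [Fintype.card_prod, Fintype.card_option, Fintype.card_fin]
  ring

theorem one_le_Mf (P : Pm N → ℝ) (hP : ∀ p, 0 ≤ P p ∧ P p ≤ 1) (v : Fin N → ℝ) :
    1 ≤ Mf D P v := by
  have h1 := one_le_sz D v
  have h2 : |∑ t, P (Sum.inl t) * mon (zt D v) t| ≤
      ((N + 2) ^ 3 : ℕ) * (∑ a, zt D v a ^ 2) ^ 2 := by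
    refine (Finset.abs_sum_le_sum_abs _ _).trans ?_
    have h3 : ∀ t ∈ (univ : Finset (T3 N)), |P (Sum.inl t) * mon (zt D v) t| ≤
        (∑ a, zt D v a ^ 2) ^ 2 := by
      intro t _
      rw [abs_mul, abs_of_nonneg (hP _).1]
      refine (mul_le_mul_of_nonneg_right (hP _).2 (abs_nonneg _)).trans ?_
      rw [one_mul]
      exact abs_mon_le D v t
    refine (Finset.sum_le_sum h3).trans ?_
    rw [Finset.sum_const, Finset.card_univ, card_T3, nsmul_eq_mul]
  unfold Mf C0
  have h4 := neg_abs_le (∑ t, P (Sum.inl t) * mon (zt D v) t)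
  push_cast at h2 ⊢
  nlinarith [sq_nonneg ((∑ a, zt D v a ^ 2) - 1)]

theorem q1_sq_le_nf (P : Pm N → ℝ) (hP : ∀ p, 0 ≤ P p ∧ P p ≤ 1) (x : Fin N → ℝ) :
    q1 x ^ 2 ≤ nf P x := by
  have h1 := one_le_q1 x
  have h2 : |∑ l, P (Sum.inr (some l)) * x l| ≤ (N : ℝ) * q1 x ^ 2 := by
    refine (Finset.abs_sum_le_sum_abs _ _).trans ?_
    have h3 : ∀ l ∈ (univ : Finset (Fin N)), |P (Sum.inr (some l)) * x l| ≤ q1 x ^ 2 := by
      intro l _
      rw [abs_mul, abs_of_nonneg (hP _).1]
      refine (mul_le_mul_of_nonneg_right (hP _).2 (abs_nonneg _)).trans ?_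
      rw [one_mul]
      have h4 : x l ^ 2 ≤ q1 x := by
        have : x l ^ 2 ≤ ∑ l, x l ^ 2 :=
          Finset.single_le_sum (f := fun l => x l ^ 2) (fun _ _ => sq_nonneg _) (mem_univ l)
        unfold q1
        linarith
      rw [← sq_abs] at h4
      nlinarith [abs_nonneg (x l), sq_nonneg (|x l| - 1)]
    refine (Finset.sum_le_sum h3).trans ?_
    rw [Finset.sum_const, Finset.card_univ, Fintype.card_fin, nsmul_eq_mul]
  unfold nf
  have h4 := neg_abs_le (∑ l, P (Sum.inr (some l)) * x l)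
  have h5 := (hP (Sum.inr none)).1
  push_cast
  nlinarith [sq_nonneg (q1 x)]

theorem one_le_nf (P : Pm N → ℝ) (hP : ∀ p, 0 ≤ P p ∧ P p ≤ 1) (x : Fin N → ℝ) :
    1 ≤ nf P x := by
  have h1 := q1_sq_le_nf P hP x
  have h2 := one_le_q1 x
  nlinarith

theorem bt_ge (hG : ∀ v : Fin N → ℝ, 0 ≤ gv D v) (ε : ℝ) (x v : Fin N → ℝ) :
    ε ≤ bt D ε x v := by
  unfold bt
  have h1 : 0 ≤ ∑ l, (D.w l : ℝ) * (x l - v l) ^ 2 := Finset.sum_nonneg fun _ _ => by positivity
  have h2 := hG v
  linarith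

theorem fi_ge (hG : ∀ v : Fin N → ℝ, 0 ≤ gv D v) (hK : 1 ≤ D.K) (P : Pm N → ℝ)
    (hP : ∀ p, 0 ≤ P p ∧ P p ≤ 1) {ε : ℝ} (hε : 0 ≤ ε) (x v : Fin N → ℝ) :
    ε * q1 v ≤ fi D P ε x v := by
  unfold fi
  have h1 := one_le_Mf D P hP v
  have h2 : q1 v ≤ q1 v ^ D.K := le_self_pow₀ (one_le_q1 v) (by omega)
  have h3 := bt_ge D hG ε x v
  have h4 := one_le_q1 v
  calc ε * q1 v = 1 * q1 v * ε := by ring
    _ ≤ Mf D P v * q1 v ^ D.K * bt D ε x v := by
        refine mul_le_mul (mul_le_mul h1 h2 (by linarith) (by linarith)) h3 hε ?_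
        exact mul_nonneg (by linarith) (by positivity)

theorem W_pos (P : Pm N → ℝ) (hP : ∀ p, 0 ≤ P p ∧ P p ≤ 1) (v : Fin N → ℝ) :
    0 < Mf D P v * q1 v ^ D.K :=
  mul_pos (by have := one_le_Mf D P hP v; linarith) (pow_pos (q1_pos v) _)

/-- The set where `q1` is bounded is bounded. -/
theorem mem_box {c : ℝ} {v : Fin N → ℝ} (h : q1 v ≤ c) : v ∈ Set.pi Set.univ
    (fun _ : Fin N => Set.Icc (-c) c) := by
  intro l _
  have h1 : v l ^ 2 ≤ q1 v - 1 := by
    have : v l ^ 2 ≤ ∑ l, v l ^ 2 :=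
      Finset.single_le_sum (f := fun l => v l ^ 2) (fun _ _ => sq_nonneg _) (mem_univ l)
    unfold q1
    linarith
  have h2 := one_le_q1 v
  have h3 : v l ^ 2 ≤ c ^ 2 := by nlinarith
  exact ⟨by nlinarith [abs_le_of_sq_le_sq h3 (by linarith)], by
    nlinarith [abs_le_of_sq_le_sq h3 (by linarith)]⟩

theorem isCompact_box (c : ℝ) : IsCompact (Set.pi Set.univ
    (fun _ : Fin N => Set.Icc (-c) c)) := isCompact_univ_pi fun _ => isCompact_Icc

/-! ### Derivatives -/

theorem deriv_sumsq (a : Fin N → ℝ) (b v : Fin N → ℝ) (l : Fin N) :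
    HasDerivAt (fun t : ℝ => ∑ j, a j * (b j - Function.update v l t j) ^ 2)
      (-(2 * a l * (b l - v l))) (v l) := by
  have h1 : (fun t : ℝ => ∑ j, a j * (b j - Function.update v l t j) ^ 2) =
      fun t : ℝ => a l * (b l - t) ^ 2 + ∑ j ∈ univ.erase l, a j * (b j - v j) ^ 2 := by
    funext t
    rw [← Finset.add_sum_erase univ _ (mem_univ l), Function.update_self]
    congr 1
    refine Finset.sum_congr rfl fun j hj => ?_
    rw [Function.update_of_ne (Finset.ne_of_mem_erase hj)]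
  rw [h1]
  have h2 : HasDerivAt (fun t : ℝ => b l - t) (-1) (v l) := by
    simpa using (hasDerivAt_id (v l)).const_sub (b l)
  have h3 := ((h2.pow 2).const_mul (a l)).add_const (∑ j ∈ univ.erase l, a j * (b j - v j) ^ 2)
  refine h3.congr_deriv ?_
  simp
  ring

theorem deriv_q1 (v : Fin N → ℝ) (l : Fin N) :
    HasDerivAt (fun t : ℝ => q1 (Function.update v l t)) (2 * v l) (v l) := by
  have h := (deriv_sumsq (fun _ => 1) (fun _ => 0) v l).const_add 1
  have h2 : (fun t : ℝ => q1 (Function.update v l t)) =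
      fun t : ℝ => 1 + ∑ j, (1 : ℝ) * (0 - Function.update v l t j) ^ 2 := by
    funext t
    unfold q1
    congr 1
    refine Finset.sum_congr rfl fun j _ => by ring
  rw [h2]
  refine h.congr_deriv ?_
  ring

theorem deriv_Hv (v : Fin N → ℝ) (l : Fin N) :
    HasDerivAt (fun t : ℝ => Hv D (Function.update v l t)) (dH D v l) (v l) := by
  have h := (deriv_sumsq (fun l => (D.w l : ℝ)) (fun _ => 0) v l).add (deriv_gv D v l)
  have h2 : (fun t : ℝ => Hv D (Function.update v l t)) =
      (fun t : ℝ => ∑ j, (D.w j : ℝ) * (0 - Function.update v l t j) ^ 2) +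
        fun t : ℝ => gv D (Function.update v l t) := by
    funext t
    simp only [Hv, Pi.add_apply]
    congr 1
    refine Finset.sum_congr rfl fun j _ => by ring
  rw [h2]
  refine h.congr_deriv ?_
  unfold dH
  ring

theorem deriv_zt (v : Fin N → ℝ) (l : Fin N) (a : J N) :
    HasDerivAt (fun t : ℝ => zt D (Function.update v l t) a) (dz D v l a) (v l) := by
  rcases a with _ | _ | l'
  · exact hasDerivAt_const _ _
  · exact deriv_Hv D v l
  · simp only [zt, dz]
    by_cases h : l' = l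
    · subst h
      simp only [Function.update_self, if_true]
      exact hasDerivAt_id' _
    · simp only [if_neg h, Function.update_of_ne h]
      exact hasDerivAt_const _ _

theorem deriv_mon (v : Fin N → ℝ) (l : Fin N) (t : T3 N) :
    HasDerivAt (fun s : ℝ => mon (zt D (Function.update v l s)) t)
      (dmon (zt D v) (dz D v l) t) (v l) := by
  have h := ((deriv_zt D v l t.1).mul (deriv_zt D v l t.2.1)).mul (deriv_zt D v l t.2.2)
  refine h.congr_deriv ?_
  simp only [Function.update_eq_self, dmon, Pi.mul_apply]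
  ring

theorem deriv_Mf (P : Pm N → ℝ) (v : Fin N → ℝ) (l : Fin N) :
    HasDerivAt (fun t : ℝ => Mf D P (Function.update v l t)) (dM D P v l) (v l) := by
  have h1 : HasDerivAt (fun t : ℝ => ∑ a, zt D (Function.update v l t) a ^ 2)
      (∑ a, 2 * (zt D v a * dz D v l a)) (v l) := by
    refine HasDerivAt.fun_sum fun a _ => ?_
    refine ((deriv_zt D v l a).pow 2).congr_deriv ?_
    simp only [Function.update_eq_self]
    simp
    ring
  have h2 : HasDerivAt (fun t : ℝ => ∑ s, P (Sum.inl s) * mon (zt D (Function.update v l t)) s)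
      (∑ s, P (Sum.inl s) * dmon (zt D v) (dz D v l) s) (v l) :=
    HasDerivAt.fun_sum fun s _ => (deriv_mon D v l s).const_mul _
  have h3 := ((h1.pow 2).const_mul (C0 N : ℝ)).add h2
  refine h3.congr_deriv ?_
  simp only [Function.update_eq_self, dM]
  simp

theorem deriv_bt (ε : ℝ) (x v : Fin N → ℝ) (l : Fin N) :
    HasDerivAt (fun t : ℝ => bt D ε x (Function.update v l t)) (dbt D x v l) (v l) := by
  have h := ((deriv_sumsq (fun l => (D.w l : ℝ)) x v l).add (deriv_gv D v l)).add_const ε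
  refine h.congr_deriv ?_
  unfold dbt dH
  ring

theorem deriv_fi (hK : 1 ≤ D.K) (P : Pm N → ℝ) (ε : ℝ) (x v : Fin N → ℝ) (l : Fin N) :
    HasDerivAt (fun t : ℝ => fi D P ε x (Function.update v l t))
      (q1 v ^ (D.K - 1) * dfi D P ε x v l) (v l) := by
  have h := ((deriv_Mf D P v l).mul ((deriv_q1 v l).pow D.K)).mul (deriv_bt D ε x v l)
  refine h.congr_deriv ?_
  simp only [Function.update_eq_self, dfi, Pi.mul_apply, Pi.pow_apply]
  have h1 : q1 v ^ D.K = q1 v ^ (D.K - 1) * q1 v := by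
    rw [← pow_succ]; congr 1; omega
  rw [h1]
  ring

/-- The reduced derivative vanishes at the minimisers. -/
theorem dfi_eq_zero (hK : 1 ≤ D.K) (P : Pm N → ℝ) (ε : ℝ) (x v : Fin N → ℝ)
    (h : ∀ v', fi D P ε x v ≤ fi D P ε x v') (l : Fin N) : dfi D P ε x v l = 0 := by
  have h1 : IsLocalMin (fun t : ℝ => fi D P ε x (Function.update v l t)) (v l) := by
    refine Filter.Eventually.of_forall fun t => ?_
    simp only [Function.update_eq_self]
    exact h _
  have h2 := h1.hasDerivAt_eq_zero (deriv_fi D hK P ε x v l)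
  exact (mul_eq_zero.1 h2).resolve_left (pow_pos (q1_pos v) _).ne'

end Pool.Agent.U7.Iso
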