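import Mathlib
import Pool.Agent.U7.Iso.Game
import Pool.Agent.U7.Iso.Hull

/-!
# The value of the game and the conditions at an optimal strategy
-/

set_option autoImplicit false
set_option linter.unusedSimpArgs false

namespace Pool.Agent.U7.Iso

open Finset Filter Topology Pool.Agent.H612 Pool.Agent.R537.RN

variable {N r : ℕ} (D : Dat N)

/-- The number `μ` is the value and `x` is an optimal strategy. -/
def IsVal (P : Pm N → ℝ) (ε μ : ℝ) (x : Fin N → ℝ) : Prop :=
  (∀ v, μ * nf P x ≤ fi D P ε x v) ∧ ∀ y, ∃ v, fi D P ε y v ≤ μ * nf P y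

section

variable (hG : ∀ v : Fin N → ℝ, 0 ≤ gv D v) (hK : 1 ≤ D.K) (P : Pm N → ℝ)
  (hP : ∀ p, 0 ≤ P p ∧ P p ≤ 1) {ε : ℝ} (hε : 0 < ε)

include hG hK hP hε

theorem exists_min (x : Fin N → ℝ) : ∃ v0, ∀ v, fi D P ε x v0 ≤ fi D P ε x v := by
  obtain ⟨c, hc⟩ : ∃ c, c = fi D P ε x 0 / ε := ⟨_, rfl⟩
  have h0 := fi_ge D hG hK P hP hε.le x 0
  have hc1 : ε * c = fi D P ε x 0 := by rw [hc]; field_simp
  have hcpos : 1 ≤ c := by
    have h1 := one_le_q1 (0 : Fin N → ℝ)
    by_contra h
    push Not at h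
    nlinarith
  have hcont : Continuous fun v => fi D P ε x v :=
    cont_fi D P continuous_const continuous_const continuous_id
  obtain ⟨v0, hv0, hmin⟩ := (isCompact_box (N := N) c).exists_isMinOn
    ⟨0, fun l _ => ⟨by simp; linarith, by simp; linarith⟩⟩ hcont.continuousOn
  refine ⟨v0, fun v => ?_⟩
  by_cases hv : q1 v ≤ c
  · exact hmin (mem_box hv)
  · push Not at hv
    have h2 := fi_ge D hG hK P hP hε.le x v
    have h3 : fi D P ε x v0 ≤ fi D P ε x 0 :=
      hmin (fun l _ => ⟨by simp; linarith, by simp; linarith⟩)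
    nlinarith

theorem exists_val : ∃ μ : ℝ, 0 < μ ∧ ∃ x, IsVal D P ε μ x := by
  choose v0 hv0 using exists_min D hG hK P hP hε
  obtain ⟨ψ, hψ⟩ : ∃ ψ : (Fin N → ℝ) → ℝ, ∀ x, ψ x = fi D P ε x (v0 x) / nf P x :=
    ⟨_, fun _ => rfl⟩
  have hn : ∀ x, 0 < nf P x := fun x => by have := one_le_nf P hP x; linarith
  have hψn : ∀ x, ψ x * nf P x = fi D P ε x (v0 x) := fun x => by
    rw [hψ, div_mul_cancel₀ _ (hn x).ne']
  -- upper bound
  obtain ⟨C, hC0, hC⟩ : ∃ C : ℝ, 0 < C ∧ ∀ x, fi D P ε x (v0 x) ≤ C * q1 x := by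
    obtain ⟨W, hW⟩ : ∃ W, W = ∑ l, (D.w l : ℝ) := ⟨_, rfl⟩
    have hW0 : 0 ≤ W := by rw [hW]; exact Finset.sum_nonneg fun _ _ => by positivity
    have hw := W_pos D P hP (0 : Fin N → ℝ)
    have hg := hG 0
    refine ⟨(Mf D P 0 * q1 0 ^ D.K) * (W + gv D (0 : Fin N → ℝ) + ε), by positivity, fun x => ?_⟩
    refine (hv0 x 0).trans ?_
    have hfi : fi D P ε x 0 = (Mf D P 0 * q1 0 ^ D.K) * bt D ε x 0 := rfl
    rw [hfi, mul_assoc (Mf D P 0 * q1 0 ^ D.K)]
    refine mul_le_mul_of_nonneg_left ?_ hw.le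
    unfold bt
    have h1 := one_le_q1 x
    have h2 : ∑ l, (D.w l : ℝ) * (x l - (0 : Fin N → ℝ) l) ^ 2 ≤ W * q1 x := by
      rw [hW, Finset.sum_mul]
      refine Finset.sum_le_sum fun l _ => mul_le_mul_of_nonneg_left ?_ (by positivity)
      have : x l ^ 2 ≤ ∑ l, x l ^ 2 :=
        Finset.single_le_sum (f := fun l => x l ^ 2) (fun _ _ => sq_nonneg _) (mem_univ l)
      simp only [Pi.zero_apply, sub_zero]
      unfold q1
      linarith
    nlinarith
  have hψC : ∀ x, ψ x * q1 x ≤ C := by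
    intro x
    have h1 := q1_sq_le_nf P hP x
    have h2 := one_le_q1 x
    have h3 := hC x
    rw [← hψn] at h3
    have h4 : 0 ≤ ψ x := by
      rw [hψ]
      have := fi_ge D hG hK P hP hε.le x (v0 x)
      have := one_le_q1 (v0 x)
      exact div_nonneg (by nlinarith) (hn x).le
    have h5 : ψ x * q1 x ^ 2 ≤ C * q1 x := (mul_le_mul_of_nonneg_left h1 h4).trans h3
    have h6 : (ψ x * q1 x) * q1 x ≤ C * q1 x := by nlinarith
    exact le_of_mul_le_mul_right h6 (by linarith)
  have hψC' : ∀ x, ψ x ≤ C := by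
    intro x
    have h1 := hψC x
    have h2 := one_le_q1 x
    by_contra h
    push Not at h
    nlinarith
  obtain ⟨μ, hμ⟩ : ∃ μ, μ = sSup (Set.range ψ) := ⟨_, rfl⟩
  have hbdd : BddAbove (Set.range ψ) := ⟨C, by rintro _ ⟨x, rfl⟩; exact hψC' x⟩
  have hle : ∀ x, ψ x ≤ μ := fun x => by rw [hμ]; exact le_csSup hbdd ⟨x, rfl⟩
  have hμ0 : 0 < μ := by
    refine lt_of_lt_of_le ?_ (hle 0)
    rw [hψ]
    have := fi_ge D hG hK P hP hε.le 0 (v0 0)
    have := one_le_q1 (v0 0)
    exact div_pos (by nlinarith) (hn 0)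
  obtain ⟨u, -, hu, hur⟩ := exists_seq_tendsto_sSup (Set.range_nonempty ψ) hbdd
  choose xs hxs using hur
  rw [← hμ] at hu
  have hev : ∀ᶠ n in atTop, μ / 2 < u n := hu.eventually (lt_mem_nhds (by linarith))
  obtain ⟨n0, hn0⟩ := eventually_atTop.1 hev
  have hbox : ∀ n, xs (n + n0) ∈ Set.pi Set.univ (fun _ : Fin N => Set.Icc (-(2 * C / μ))
      (2 * C / μ)) := by
    intro n
    apply mem_box
    have h1 := hn0 (n + n0) (by omega)
    rw [← hxs] at h1
    have h2 := hψC (xs (n + n0))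
    have h3 := one_le_q1 (xs (n + n0))
    rw [le_div_iff₀ hμ0]
    nlinarith
  obtain ⟨x, -, φ, hφ, hx⟩ := (isCompact_box (N := N) (2 * C / μ)).tendsto_subseq hbox
  refine ⟨μ, hμ0, x, fun v => ?_, fun y => ⟨v0 y, ?_⟩⟩
  · have h1 : Tendsto (fun n => fi D P ε (xs (φ n + n0)) v) atTop (𝓝 (fi D P ε x v)) :=
      ((cont_fi D P continuous_const continuous_id continuous_const).tendsto x).comp hx
    have h2 : Tendsto (fun n => u (φ n + n0) * nf P (xs (φ n + n0))) atTop (𝓝 (μ * nf P x)) := by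
      refine Tendsto.mul ?_ (((cont_nf P).tendsto x).comp hx)
      exact hu.comp ((tendsto_add_atTop_nat n0).comp hφ.tendsto_atTop)
    refine le_of_tendsto_of_tendsto' h2 h1 fun n => ?_
    rw [← hxs, hψn]
    exact hv0 _ _
  · rw [← hψn]
    exact mul_le_mul_of_nonneg_right (hle y) (hn y).le

/-- The gradient in `x` at a minimiser. -/
noncomputable def grad (μ : ℝ) (x v : Fin N → ℝ) (l : Fin N) : ℝ :=
  2 * (Mf D P v * q1 v ^ D.K) * ((D.w l : ℝ) * (x l - v l)) - μ * dn P x l

omit hG hK hP hε in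
theorem fi_shift (ε : ℝ) (x v d : Fin N → ℝ) (t : ℝ) :
    fi D P ε (fun l => x l + t * d l) v = fi D P ε x v +
      (Mf D P v * q1 v ^ D.K) * (t * (2 * ∑ l, (D.w l : ℝ) * (x l - v l) * d l) +
        t ^ 2 * ∑ l, (D.w l : ℝ) * d l ^ 2) := by
  have h : ∑ l, (D.w l : ℝ) * (x l + t * d l - v l) ^ 2 = ∑ l, (D.w l : ℝ) * (x l - v l) ^ 2 +
      (t * (2 * ∑ l, (D.w l : ℝ) * (x l - v l) * d l) + t ^ 2 * ∑ l, (D.w l : ℝ) * d l ^ 2) := by
    simp only [Finset.mul_sum, ← Finset.sum_add_distrib]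
    exact Finset.sum_congr rfl fun _ _ => by ring
  unfold fi bt
  rw [h]
  ring

omit hG hK hP hε in
theorem nf_shift (x d : Fin N → ℝ) (t : ℝ) :
    nf P (fun l => x l + t * d l) = nf P x + t * (∑ l, dn P x l * d l) +
      t ^ 2 * (((N + 2 : ℕ) : ℝ) * (2 * q1 x * ∑ l, d l ^ 2 +
        (2 * ∑ l, x l * d l + t * ∑ l, d l ^ 2) ^ 2)) := by
  have h1 : q1 (fun l => x l + t * d l) = q1 x + t * (2 * ∑ l, x l * d l + t * ∑ l, d l ^ 2) := by
    unfold q1
    rw [add_assoc]
    congr 1
    simp only [Finset.mul_sum, ← Finset.sum_add_distrib]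
    exact Finset.sum_congr rfl fun _ _ => by ring
  have h2 : ∑ l, dn P x l * d l = ((N + 2 : ℕ) : ℝ) * (4 * q1 x * ∑ l, x l * d l) +
      ∑ l, P (Sum.inr (some l)) * d l := by
    unfold dn
    simp only [Finset.mul_sum, ← Finset.sum_add_distrib]
    exact Finset.sum_congr rfl fun _ _ => by ring
  have h3 : ∑ l, P (Sum.inr (some l)) * (x l + t * d l) = ∑ l, P (Sum.inr (some l)) * x l +
      t * ∑ l, P (Sum.inr (some l)) * d l := by
    simp only [Finset.mul_sum, ← Finset.sum_add_distrib]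
    exact Finset.sum_congr rfl fun _ _ => by ring
  rw [h2]
  unfold nf
  rw [h1, h3]
  ring

omit hG hK hP hε in
theorem cont_grad {X : Type} [TopologicalSpace X] {μ : ℝ} {x v : X → Fin N → ℝ}
    (hx : Continuous x) (hv : Continuous v) :
    Continuous fun s => grad D P μ (x s) (v s) := by
  refine continuous_pi fun l => ?_
  unfold grad
  have h1 : Continuous fun s => (x s) l := (continuous_apply l).comp hx
  have h2 : Continuous fun s => (v s) l := (continuous_apply l).comp hv
  exact ((continuous_const.mul (((cont_Mf D P).comp hv).mul ((cont_q1.comp hv).pow _))).mul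
    (continuous_const.mul (h1.sub h2))).sub (continuous_const.mul ((cont_dn P l).comp hx))

/-- The first order condition. -/
theorem zero_mem_hull {μ : ℝ} (hμ : 0 < μ) {x : Fin N → ℝ} (h : IsVal D P ε μ x) :
    (0 : Fin N → ℝ) ∈ convexHull ℝ
      (grad D P μ x '' {v | fi D P ε x v = μ * nf P x}) := by
  by_contra hcon
  have hcompA : IsCompact {v | fi D P ε x v = μ * nf P x} := by
    refine (isCompact_box (N := N) (μ * nf P x / ε)).of_isClosed_subset ?_ ?_
    · exact isClosed_eq (cont_fi D P continuous_const continuous_const continuous_id)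
        continuous_const
    · intro v hv
      apply mem_box
      rw [le_div_iff₀ hε, mul_comm]
      have := fi_ge D hG hK P hP hε.le x v
      rw [hv] at this
      exact this
  have hcomp : IsCompact (grad D P μ x '' {v | fi D P ε x v = μ * nf P x}) :=
    hcompA.image (cont_grad D P continuous_const continuous_id)
  obtain ⟨f, u, hf0, hfu⟩ := geometric_hahn_banach_point_closed (convex_convexHull ℝ _)
    (isCompact_hull hcomp).isClosed hcon
  rw [map_zero] at hf0
  obtain ⟨d, hd⟩ : ∃ d : Fin N → ℝ, ∀ l, d l = f (Pi.single l 1) := ⟨_, fun _ => rfl⟩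
  have hfd : ∀ y : Fin N → ℝ, f y = ∑ l, y l * d l := by
    intro y
    conv_lhs => rw [pi_eq_sum_univ' y]
    rw [map_sum]
    refine Finset.sum_congr rfl fun l _ => ?_
    rw [map_smul, smul_eq_mul, hd]
  have hpos : ∀ v, fi D P ε x v = μ * nf P x → 0 < ∑ l, grad D P μ x v l * d l := by
    intro v hv
    rw [← hfd]
    exact hf0.trans (hfu _ (subset_convexHull ℝ _ ⟨v, hv, rfl⟩))
  -- the sequence
  obtain ⟨t, ht⟩ : ∃ t : ℕ → ℝ, ∀ n, t n = 1 / ((n : ℝ) + 1) := ⟨_, fun _ => rfl⟩
  have ht0 : ∀ n, 0 < t n := fun n => by rw [ht]; positivity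
  have ht1 : ∀ n, t n ≤ 1 := fun n => by
    rw [ht, div_le_one (by positivity)]
    have : (0 : ℝ) ≤ n := Nat.cast_nonneg n
    linarith
  have htend : Tendsto t atTop (𝓝 0) := by
    have : t = fun n : ℕ => 1 / ((n : ℝ) + 1) := funext ht
    rw [this]
    exact tendsto_one_div_add_atTop_nhds_zero_nat
  have hex : ∀ n, ∃ v, fi D P ε (fun l => x l + t n * d l) v ≤
      μ * nf P (fun l => x l + t n * d l) := fun n => h.2 _
  choose vs hvs using hex
  obtain ⟨M, hM⟩ : ∃ M : ℝ, ∀ n, nf P (fun l => x l + t n * d l) ≤ M := by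
    have hc : Continuous fun s : ℝ => nf P (fun l => x l + s * d l) :=
      (cont_nf P).comp (by fun_prop)
    obtain ⟨M, hM⟩ := (isCompact_Icc (a := (0 : ℝ)) (b := 1)).bddAbove_image hc.continuousOn
    exact ⟨M, fun n => hM ⟨t n, ⟨(ht0 n).le, ht1 n⟩, rfl⟩⟩
  have hbox : ∀ n, vs n ∈ Set.pi Set.univ (fun _ : Fin N => Set.Icc (-(μ * M / ε))
      (μ * M / ε)) := by
    intro n
    apply mem_box
    rw [le_div_iff₀ hε]
    have h1 := fi_ge D hG hK P hP hε.le (fun l => x l + t n * d l) (vs n)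
    have h2 := hvs n
    have h3 := hM n
    nlinarith
  obtain ⟨v, -, φ, hφ, hv⟩ := (isCompact_box (N := N) (μ * M / ε)).tendsto_subseq hbox
  have htφ : Tendsto (fun n => t (φ n)) atTop (𝓝 0) := htend.comp hφ.tendsto_atTop
  have hpair : Tendsto (fun n => (t (φ n), vs (φ n))) atTop (𝓝 (0, v)) :=
    htφ.prodMk_nhds hv
  have hvA : fi D P ε x v = μ * nf P x := by
    refine le_antisymm ?_ (h.1 v)
    have c1 : Continuous fun s : ℝ × (Fin N → ℝ) => fi D P ε (fun l => x l + s.1 * d l) s.2 :=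
      cont_fi D P continuous_const (by fun_prop) continuous_snd
    have c2 : Continuous fun s : ℝ × (Fin N → ℝ) => μ * nf P (fun l => x l + s.1 * d l) :=
      continuous_const.mul ((cont_nf P).comp (by fun_prop))
    have h1 := (c1.tendsto (0, v)).comp hpair
    have h2 := (c2.tendsto (0, v)).comp hpair
    have h3 := le_of_tendsto_of_tendsto' h1 h2 fun n => hvs (φ n)
    simpa using h3
  have hfinal : ∑ l, grad D P μ x v l * d l ≤ 0 := by
    obtain ⟨Φ, hΦ⟩ : ∃ Φ : ℝ × (Fin N → ℝ) → ℝ, Φ = fun s =>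
        (Mf D P s.2 * q1 s.2 ^ D.K) * (2 * ∑ l, (D.w l : ℝ) * (x l - s.2 l) * d l +
          s.1 * ∑ l, (D.w l : ℝ) * d l ^ 2) - μ * ((∑ l, dn P x l * d l) +
          s.1 * (((N + 2 : ℕ) : ℝ) * (2 * q1 x * ∑ l, d l ^ 2 +
            (2 * ∑ l, x l * d l + s.1 * ∑ l, d l ^ 2) ^ 2))) := ⟨_, rfl⟩
    have hcΦ : Continuous Φ := by
      rw [hΦ]
      exact ((((cont_Mf D P).comp continuous_snd).mul ((cont_q1.comp continuous_snd).pow _)).mul
        (by fun_prop)).sub (by fun_prop)
    have h1 := (hcΦ.tendsto (0, v)).comp hpair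
    have h2 : Φ (0, v) = ∑ l, grad D P μ x v l * d l := by
      rw [hΦ]
      simp only [zero_mul, add_zero, grad]
      have e1 : ∀ (W : ℝ) (s : Fin N → ℝ), W * (2 * ∑ l, (D.w l : ℝ) * (x l - v l) * d l) -
          μ * ∑ l, dn P x l * d l = ∑ l, (2 * W * ((D.w l : ℝ) * (x l - v l)) -
          μ * dn P x l) * d l := by
        intro W _
        simp only [Finset.mul_sum, ← Finset.sum_sub_distrib]
        exact Finset.sum_congr rfl fun _ _ => by ring
      rw [e1 _ x]
    rw [← h2]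
    refine le_of_tendsto' h1 fun n => ?_
    have h3 := hvs (φ n)
    rw [fi_shift, nf_shift] at h3
    have h4 := h.1 (vs (φ n))
    have h5 := ht0 (φ n)
    simp only [Function.comp_apply, hΦ]
    by_contra hc
    push Not at hc
    have h6 := mul_pos h5 hc
    nlinarith
  have := hpos v hvA
  linarith

/-- **The conditions at an optimal strategy.** -/
theorem kkt {μ : ℝ} (hμ : 0 < μ) {x : Fin N → ℝ} (h : IsVal D P ε μ x) :
    ∃ r ≤ N + 1, ∃ Z : Un r N → ℝ, (∀ l, Z (none, some l) = x l) ∧ Z (none, none) = μ ∧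
      (∀ e, Sys D Z P ε e = 0) ∧
      LinearIndependent ℝ fun i : Fin r => zt D (fun l => Z (some i, some l)) := by
  classical
  obtain ⟨ι, hι, z, w, hz, hind, hw0, hw1, hw⟩ := eq_pos_convex_span_of_mem_convexHull
    (zero_mem_hull D hG hK P hP hε hμ h)
  have hcard : Fintype.card ι ≤ N + 1 := by
    have h1 := hind.card_le_finrank_succ
    have h2 : Module.finrank ℝ (vectorSpan ℝ (Set.range z)) ≤ N := by
      have := Submodule.finrank_le (vectorSpan ℝ (Set.range z))
      simpa using this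
    omega
  have hn := one_le_nf P hP x
  have hv : ∀ i : ι, ∃ v, fi D P ε x v = μ * nf P x ∧ grad D P μ x v = z i := fun i =>
    hz ⟨i, rfl⟩
  choose v hv1 hv2 using hv
  obtain ⟨W, hW⟩ : ∃ W : ι → ℝ, ∀ i, W i = Mf D P (v i) * q1 (v i) ^ D.K := ⟨_, fun _ => rfl⟩
  have hWpos : ∀ i, 0 < W i := fun i => by rw [hW]; exact W_pos D P hP _
  have hWβ : ∀ i, W i * bt D ε x (v i) = μ * nf P x := fun i => by
    rw [hW, ← hv1 i]; rfl
  obtain ⟨E⟩ : Nonempty (Fin (Fintype.card ι) ≃ ι) := ⟨(Fintype.equivFin ι).symm⟩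
  obtain ⟨Z, hZ⟩ : ∃ Z : Un (Fintype.card ι) N → ℝ, ∀ u, Z u = match u with
      | (none, none) => μ
      | (none, some l) => x l
      | (some i, none) => w (E i) * W (E i) / μ
      | (some i, some l) => v (E i) l := ⟨_, fun _ => rfl⟩
  have hZx : (fun l => Z (none, some l)) = x := by funext l; rw [hZ]
  have hZv : ∀ i, (fun l => Z (some i, some l)) = v (E i) := fun i => by funext l; rw [hZ]
  have hZx' : ∀ l, Z (none, some l) = x l := fun l => by rw [hZ]
  have hZv' : ∀ i l, Z (some i, some l) = v (E i) l := fun i l => by rw [hZ]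
  have hZμ : Z (none, none) = μ := by rw [hZ]
  have hZw : ∀ i, Z (some i, none) = w (E i) * W (E i) / μ := fun i => by rw [hZ]
  refine ⟨Fintype.card ι, hcard, Z, hZx', hZμ, ?_, ?_⟩
  · rintro ⟨_ | i, _ | l⟩
    · simp only [Sys, hZx, hZv, hZw]
      have h1 : ∀ i : Fin (Fintype.card ι), w (E i) * W (E i) / μ * bt D ε x (v (E i)) =
          w (E i) * nf P x := by
        intro i
        have := hWβ (E i)
        field_simp
        linear_combination w (E i) * this
      simp only [h1]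
      rw [← Finset.sum_mul, E.sum_comp w, hw1]
      ring
    · simp only [Sys, hZx, hZv, hZw, hZx', hZv']
      have h1 := congrFun hw l
      rw [Finset.sum_apply, Pi.zero_apply] at h1
      simp only [Pi.smul_apply, smul_eq_mul, ← hv2, grad, ← hW] at h1
      have h2 : ∑ i : Fin (Fintype.card ι), w (E i) * W (E i) / μ *
          ((D.w l : ℝ) * (x l - v (E i) l)) =
          ∑ i, w i * W i / μ * ((D.w l : ℝ) * (x l - v i l)) :=
        E.sum_comp fun i => w i * W i / μ * ((D.w l : ℝ) * (x l - v i l))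
      rw [h2]
      have h3 : μ * (2 * ∑ i, w i * W i / μ * ((D.w l : ℝ) * (x l - v i l)) - dn P x l) = 0 := by
        rw [← h1]
        have h4 : ∑ i, w i * (2 * W i * ((D.w l : ℝ) * (x l - v i l)) - μ * dn P x l) =
            ∑ i, w i * (2 * W i * ((D.w l : ℝ) * (x l - v i l))) - μ * dn P x l := by
          simp only [mul_sub, Finset.sum_sub_distrib]
          rw [← Finset.sum_mul, hw1, one_mul]
        rw [h4, mul_sub]
        congr 1
        rw [Finset.mul_sum, Finset.mul_sum]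
        refine Finset.sum_congr rfl fun i _ => ?_
        field_simp
      exact (mul_eq_zero.1 h3).resolve_left hμ.ne'
    · simp only [Sys, hZx, hZv, hZμ, hv1, sub_self]
    · simp only [Sys, hZx, hZv]
      refine dfi_eq_zero D hK P ε x _ (fun v' => ?_) l
      rw [hv1]
      exact h.1 v'
  · simp only [hZv]
    rw [Fintype.linearIndependent_iff]
    intro c hc
    have hβ : ∀ a : J N, ∑ i, c i * zt D (v (E i)) a = 0 := by
      intro a
      have := congrFun hc a
      simpa [Finset.sum_apply] using this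
    have c0 : ∑ i, c i = 0 := by
      have := hβ none
      simpa [zt] using this
    have cH : ∑ i, c i * Hv D (v (E i)) = 0 := hβ (some none)
    have cl : ∀ l, ∑ i, c i * v (E i) l = 0 := fun l => hβ (some (some l))
    have cb : ∑ i, c i * bt D ε x (v (E i)) = 0 := by
      have h1 : ∀ i, c i * bt D ε x (v (E i)) = c i * (∑ l, (D.w l : ℝ) * x l ^ 2 + ε) -
          2 * ∑ l, (D.w l : ℝ) * x l * (c i * v (E i) l) + c i * Hv D (v (E i)) := by
        intro i
        rw [bt_eq]
        have h2 : ∑ l, (D.w l : ℝ) * x l * (c i * v (E i) l) =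
            c i * ∑ l, (D.w l : ℝ) * (x l * v (E i) l) := by
          rw [Finset.mul_sum]
          exact Finset.sum_congr rfl fun _ _ => by ring
        rw [h2]
        ring
      simp only [h1, Finset.sum_add_distrib, Finset.sum_sub_distrib]
      rw [cH, ← Finset.sum_mul, c0, ← Finset.mul_sum, Finset.sum_comm]
      simp only [← Finset.mul_sum, cl, mul_zero, Finset.sum_const_zero]
      ring
    have cx : ∀ l, ∑ i, c i * ((D.w l : ℝ) * (x l - v (E i) l)) = 0 := by
      intro l
      have h1 : ∀ i, c i * ((D.w l : ℝ) * (x l - v (E i) l)) =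
          c i * ((D.w l : ℝ) * x l) - (D.w l : ℝ) * (c i * v (E i) l) := fun i => by ring
      simp only [h1, Finset.sum_sub_distrib]
      rw [← Finset.sum_mul, c0, ← Finset.mul_sum, cl]
      ring
    -- the rescaled coefficients
    obtain ⟨c', hc'⟩ : ∃ c' : ι → ℝ, ∀ i, c' i = c (E.symm i) / W i := ⟨_, fun _ => rfl⟩
    have hcc : ∀ i, c i = c' (E i) * W (E i) := fun i => by
      rw [hc', Equiv.symm_apply_apply, div_mul_cancel₀ _ (hWpos _).ne']
    have s1 : ∑ i, c' i = 0 := by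
      have h1 : ∑ i, c' i * (μ * nf P x) = 0 := by
        rw [← E.sum_comp fun i => c' i * (μ * nf P x), ← cb]
        refine Finset.sum_congr rfl fun i _ => ?_
        rw [← hWβ (E i), hcc i]
        ring
      rw [← Finset.sum_mul] at h1
      exact (mul_eq_zero.1 h1).resolve_right (by nlinarith)
    have s2 : ∑ i, c' i • z i = 0 := by
      funext l
      rw [Finset.sum_apply, Pi.zero_apply]
      simp only [Pi.smul_apply, smul_eq_mul, ← hv2, grad, ← hW]
      have h1 : ∑ i, c' i * (2 * W i * ((D.w l : ℝ) * (x l - v i l)) - μ * dn P x l) =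
          2 * (∑ i, c' i * W i * ((D.w l : ℝ) * (x l - v i l))) -
            (∑ i, c' i) * (μ * dn P x l) := by
        rw [Finset.mul_sum, Finset.sum_mul, ← Finset.sum_sub_distrib]
        exact Finset.sum_congr rfl fun _ _ => by ring
      rw [h1, s1, zero_mul, sub_zero]
      have h2 : ∑ i, c' i * W i * ((D.w l : ℝ) * (x l - v i l)) = 0 := by
        rw [← E.sum_comp fun i => c' i * W i * ((D.w l : ℝ) * (x l - v i l)), ← cx l]
        refine Finset.sum_congr rfl fun i _ => ?_
        rw [hcc i]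
      rw [h2, mul_zero]
    have s3 := (affineIndependent_iff.1 hind) univ c' s1 s2
    intro i
    rw [hcc, s3 (E i) (mem_univ _), zero_mul]

end

end Pool.Agent.U7.Iso
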