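import Mathlib
import Pool.Agent.U7.Iso.Count

/-!
# Integer polynomials do not vanish at points with well separated small coordinates
-/

set_option autoImplicit false

namespace Pool.Agent.U7.Iso

open Finset Pool.Agent.H612 Pool.Agent.R537.RN

theorem mono_le {ι : Type} [Fintype ι] [DecidableEq ι] (ρ : ι → ℕ) (hρ : Function.Injective ρ)
    (L B : ℕ) (f : ι → ℝ) (h0 : ∀ i, 0 < f i) (h1 : ∀ i, f i ≤ 1)
    (hf : ∀ i, 2 * B * f i ≤ (∏ j ∈ univ.filter (fun j => ρ j < ρ i), f j) ^ L)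
    (a b : ι → ℕ) (ha : ∀ i, a i ≤ L) (j : ι) (hj : a j < b j)
    (hab : ∀ i, ρ j < ρ i → a i = b i) :
    2 * B * ∏ i, f i ^ b i ≤ ∏ i, f i ^ a i := by
  obtain ⟨g, hg⟩ : ∃ g : ι → ℝ, ∀ i, g i = if ρ i < ρ j then 1 else f i ^ a i :=
    ⟨_, fun _ => rfl⟩
  have hg0 : 0 ≤ ∏ i, g i := Finset.prod_nonneg fun i _ => by
    rw [hg]; split_ifs
    · exact zero_le_one
    · exact (pow_pos (h0 i) _).le
  have e1 : ∏ i, f i ^ b i ≤ (∏ i, g i) * f j := by
    have e2 : (∏ i, g i) * f j = ∏ i, g i * (if i = j then f j else 1) := by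
      rw [Finset.prod_mul_distrib]
      simp
    rw [e2]
    refine Finset.prod_le_prod (fun i _ => (pow_pos (h0 i) _).le) fun i _ => ?_
    rw [hg]
    by_cases hij : i = j
    · subst hij
      simp only [lt_irrefl, if_false, if_true]
      rw [← pow_succ]
      exact pow_le_pow_of_le_one (h0 i).le (h1 i) hj
    · rw [if_neg hij, mul_one]
      split_ifs with h
      · exact pow_le_one₀ (h0 i).le (h1 i)
      · have : ρ j < ρ i := lt_of_le_of_ne (not_lt.1 h) fun h => hij (hρ h.symm)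
        rw [hab i this]
  have e3 : (∏ i, g i) * (∏ i ∈ univ.filter (fun i => ρ i < ρ j), f i) ^ L ≤
      ∏ i, f i ^ a i := by
    have e4 : ∏ i, f i ^ a i = (∏ i, g i) * ∏ i ∈ univ.filter (fun i => ρ i < ρ j), f i ^ a i := by
      rw [Finset.prod_filter, ← Finset.prod_mul_distrib]
      refine Finset.prod_congr rfl fun i _ => ?_
      rw [hg]
      split_ifs <;> simp
    rw [e4, ← Finset.prod_pow]
    refine mul_le_mul_of_nonneg_left ?_ hg0
    refine Finset.prod_le_prod (fun i _ => (pow_pos (h0 i) _).le) fun i _ => ?_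
    exact pow_le_pow_of_le_one (h0 i).le (h1 i) (ha i)
  calc 2 * B * ∏ i, f i ^ b i ≤ 2 * B * ((∏ i, g i) * f j) :=
        mul_le_mul_of_nonneg_left e1 (by positivity)
    _ = (∏ i, g i) * (2 * B * f j) := by ring
    _ ≤ (∏ i, g i) * (∏ i ∈ univ.filter (fun i => ρ i < ρ j), f i) ^ L :=
        mul_le_mul_of_nonneg_left (hf j) hg0
    _ ≤ _ := e3

/-- **Non-vanishing.** -/
theorem nonvan {ι : Type} [Fintype ι] [DecidableEq ι] (ρ : ι → ℕ) (hρ : Function.Injective ρ)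
    (q : MvPolynomial ι ℤ) (hq : q ≠ 0) (L B : ℕ)
    (hL : ∀ α ∈ q.support, ∀ j, α j ≤ L) (hB : RNorm.int.mν q ≤ B) (f : ι → ℝ)
    (h0 : ∀ i, 0 < f i) (h1 : ∀ i, f i ≤ 1)
    (hf : ∀ i, 2 * B * f i ≤ (∏ j ∈ univ.filter (fun j => ρ j < ρ i), f j) ^ L) :
    MvPolynomial.aeval f q ≠ 0 := by
  let _ : LinearOrder ι := LinearOrder.lift' (fun i => OrderDual.toDual (ρ i))
    (fun a b h => hρ (by simpa using h))
  have hlt : ∀ i j : ι, i < j ↔ ρ j < ρ i := fun i j => Iff.rfl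
  obtain ⟨a, ha, hmin⟩ := Finset.exists_min_image q.support (fun α => toLex α)
    (MvPolynomial.support_nonempty.2 hq)
  have hlex : ∀ b ∈ q.support, b ≠ a → 2 * B * ∏ i, f i ^ b i ≤ ∏ i, f i ^ a i := by
    intro b hb hba
    have h2 : toLex a < toLex b := lt_of_le_of_ne (hmin b hb) fun h => hba (by
      have := congrArg ofLex h
      simpa using this.symm)
    obtain ⟨j, hj1, hj2⟩ := h2
    exact mono_le ρ hρ L B f h0 h1 hf a b (hL a ha) j hj2 fun i hi => hj1 i hi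
  have hBpos : (1 : ℝ) ≤ B := by
    have h3 : 1 ≤ RNorm.int.ν (q.coeff a) := Int.natAbs_pos.2 (MvPolynomial.mem_support_iff.1 ha)
    have h4 : RNorm.int.ν (q.coeff a) ≤ RNorm.int.mν q :=
      Finset.single_le_sum (f := fun d => RNorm.int.ν (q.coeff d)) (fun _ _ => Nat.zero_le _) ha
    exact_mod_cast h3.trans (h4.trans hB)
  have hMpos : 0 < ∏ i, f i ^ a i := Finset.prod_pos fun i _ => pow_pos (h0 i) _
  have hsum : MvPolynomial.aeval f q = ∑ α ∈ q.support, ((q.coeff α : ℤ) : ℝ) * ∏ i, f i ^ α i := by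
    rw [MvPolynomial.aeval_def, MvPolynomial.eval₂_eq']
    rfl
  rw [hsum, ← Finset.add_sum_erase _ _ ha]
  intro hz
  have h5 : |∑ α ∈ q.support.erase a, ((q.coeff α : ℤ) : ℝ) * ∏ i, f i ^ α i| ≤
      (∏ i, f i ^ a i) / 2 := by
    refine (Finset.abs_sum_le_sum_abs _ _).trans ?_
    have h6 : ∀ α ∈ q.support.erase a, |((q.coeff α : ℤ) : ℝ) * ∏ i, f i ^ α i| ≤
        (RNorm.int.ν (q.coeff α) : ℝ) * ((∏ i, f i ^ a i) / (2 * B)) := by
      intro α hα
      rw [Finset.mem_erase] at hα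
      have h7 := hlex α hα.2 hα.1
      have h8 : 0 ≤ ∏ i, f i ^ α i := (Finset.prod_pos fun i _ => pow_pos (h0 i) _).le
      rw [abs_mul, abs_of_nonneg h8]
      have h9 : |((q.coeff α : ℤ) : ℝ)| = (RNorm.int.ν (q.coeff α) : ℝ) := by
        change |((q.coeff α : ℤ) : ℝ)| = ((q.coeff α).natAbs : ℝ)
        rw [Nat.cast_natAbs]
        push_cast
        rfl
      rw [h9]
      refine mul_le_mul_of_nonneg_left ?_ (Nat.cast_nonneg _)
      rw [le_div_iff₀ (by positivity)]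
      linarith
    refine (Finset.sum_le_sum h6).trans ?_
    rw [← Finset.sum_mul]
    have h10 : (∑ α ∈ q.support.erase a, (RNorm.int.ν (q.coeff α) : ℝ)) ≤ B := by
      have h11 : ∑ α ∈ q.support.erase a, RNorm.int.ν (q.coeff α) ≤ B :=
        (Finset.sum_le_sum_of_subset (Finset.erase_subset _ _)).trans hB
      exact_mod_cast h11
    calc _ ≤ (B : ℝ) * ((∏ i, f i ^ a i) / (2 * B)) :=
          mul_le_mul_of_nonneg_right h10 (by positivity)
      _ = _ := by field_simp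
  have h12 : (1 : ℝ) ≤ |((q.coeff a : ℤ) : ℝ)| := by
    have : 1 ≤ |q.coeff a| := Int.one_le_abs (MvPolynomial.mem_support_iff.1 ha)
    exact_mod_cast this
  have h13 : |((q.coeff a : ℤ) : ℝ) * ∏ i, f i ^ a i| = |((q.coeff a : ℤ) : ℝ)| * ∏ i, f i ^ a i := by
    rw [abs_mul, abs_of_pos hMpos]
  have h14 : |((q.coeff a : ℤ) : ℝ) * ∏ i, f i ^ a i| ≤ (∏ i, f i ^ a i) / 2 := by
    rw [eq_neg_of_add_eq_zero_left hz, abs_neg]
    exact h5
  rw [h13] at h14
  nlinarith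

end Pool.Agent.U7.Iso
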