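import Mathlib
import Pool.Agent.U7.Iso.KKT
import Pool.Agent.U7.Iso.Rel
import Pool.Agent.U7.Iso.Nonvan

/-!
# The value of the game at explicit parameters
-/

set_option autoImplicit false
set_option linter.unusedSimpArgs false

namespace Pool.Agent.U7.Iso

open Finset Filter Topology Pool.Agent.H612 Pool.Agent.R537.RN

variable {N r : ℕ} (D : Dat N)

section

variable (hG : ∀ v : Fin N → ℝ, 0 ≤ gv D v) (hK : 1 ≤ D.K) (P : Pm N → ℝ)
  (hP : ∀ p, 0 ≤ P p ∧ P p ≤ 1)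

include hG hP

theorem fi_mono {ε ε' : ℝ} (h0 : 0 < ε) (h : ε ≤ ε') (x v : Fin N → ℝ) :
    fi D P ε x v ≤ fi D P ε' x v ∧ fi D P ε' x v ≤ ε' / ε * fi D P ε x v := by
  have hW := W_pos D P hP v
  have hb := bt_ge D hG ε x v
  have hbb : bt D ε' x v = bt D ε x v + (ε' - ε) := by unfold bt; ring
  constructor
  · unfold fi
    refine mul_le_mul_of_nonneg_left ?_ hW.le
    rw [hbb]; linarith
  · have h1 : fi D P ε' x v = (Mf D P v * q1 v ^ D.K) * bt D ε' x v := rfl
    have h2 : fi D P ε x v = (Mf D P v * q1 v ^ D.K) * bt D ε x v := rfl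
    have h3 : bt D ε' x v ≤ ε' / ε * bt D ε x v := by
      rw [hbb, div_mul_eq_mul_div, le_div_iff₀ h0]
      nlinarith
    rw [h1, h2]
    calc _ ≤ (Mf D P v * q1 v ^ D.K) * (ε' / ε * bt D ε x v) :=
          mul_le_mul_of_nonneg_left h3 hW.le
      _ = _ := by ring

theorem val_mono {ε ε' μ μ' : ℝ} (h0 : 0 < ε) (h : ε ≤ ε') {x x' : Fin N → ℝ}
    (h1 : IsVal D P ε μ x) (h2 : IsVal D P ε' μ' x') : μ ≤ μ' ∧ μ' ≤ ε' / ε * μ := by
  constructor
  · obtain ⟨v, hv⟩ := h2.2 x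
    have h3 := h1.1 v
    have h4 := (fi_mono D hG P hP h0 h x v).1
    have h5 := one_le_nf P hP x
    exact le_of_mul_le_mul_right (h3.trans (h4.trans hv)) (by linarith)
  · obtain ⟨v, hv⟩ := h1.2 x'
    have h3 := h2.1 v
    have h4 := (fi_mono D hG P hP h0 h x' v).2
    have h5 := one_le_nf P hP x'
    have h6 : ε' / ε * fi D P ε x' v ≤ ε' / ε * (μ * nf P x') :=
      mul_le_mul_of_nonneg_left hv (div_nonneg (h0.le.trans h) h0.le)
    rw [← mul_assoc] at h6
    exact le_of_mul_le_mul_right (h3.trans (h4.trans h6)) (by linarith)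

include hK

/-- The value function. -/
theorem exists_valf : ∃ V : ℝ → ℝ, ∃ X : ℝ → Fin N → ℝ, (∀ ε, 0 < ε → 0 < V ε ∧
    IsVal D P ε (V ε) (X ε)) ∧ ContinuousOn V (Set.Ioi 0) := by
  have h : ∀ ε : ℝ, ∃ μ : ℝ, ∃ x : Fin N → ℝ, 0 < ε → 0 < μ ∧ IsVal D P ε μ x := by
    intro ε
    by_cases hε : 0 < ε
    · obtain ⟨μ, hμ, x, hx⟩ := exists_val D hG hK P hP hε
      exact ⟨μ, x, fun _ => ⟨hμ, hx⟩⟩
    · exact ⟨0, 0, fun h => absurd h hε⟩
  choose V X hVX using h
  refine ⟨V, X, hVX, fun e he => ?_⟩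
  have he : 0 < e := he
  apply ContinuousAt.continuousWithinAt
  have l1 : Tendsto (fun ε : ℝ => min 1 (ε / e) * V e) (𝓝 e) (𝓝 (V e)) := by
    have : Continuous fun ε : ℝ => min 1 (ε / e) * V e := by fun_prop
    have h1 := this.tendsto e
    simpa [he.ne'] using h1
  have l2 : Tendsto (fun ε : ℝ => max 1 (ε / e) * V e) (𝓝 e) (𝓝 (V e)) := by
    have : Continuous fun ε : ℝ => max 1 (ε / e) * V e := by fun_prop
    have h1 := this.tendsto e
    simpa [he.ne'] using h1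
  have hev : ∀ᶠ ε in 𝓝 e, 0 < ε := lt_mem_nhds he
  refine tendsto_of_tendsto_of_tendsto_of_le_of_le' l1 l2 ?_ ?_
  · filter_upwards [hev] with ε hε
    have hVe := (hVX e he).1
    rcases le_total ε e with hle | hle
    · have h1 := (val_mono D hG P hP hε hle (hVX ε hε).2 (hVX e he).2).2
      have h2 : min 1 (ε / e) ≤ ε / e := min_le_right _ _
      have h3 : ε / e * V e ≤ V ε := by
        rw [div_mul_eq_mul_div, div_le_iff₀ he]
        rw [div_mul_eq_mul_div, le_div_iff₀ hε] at h1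
        linarith
      exact (mul_le_mul_of_nonneg_right h2 hVe.le).trans h3
    · have h1 := (val_mono D hG P hP he hle (hVX e he).2 (hVX ε hε).2).1
      exact (mul_le_mul_of_nonneg_right (min_le_left _ _) hVe.le).trans (by rwa [one_mul])
  · filter_upwards [hev] with ε hε
    have hVe := (hVX e he).1
    rcases le_total ε e with hle | hle
    · have h1 := (val_mono D hG P hP hε hle (hVX ε hε).2 (hVX e he).2).1
      refine h1.trans ?_
      have h2 := mul_le_mul_of_nonneg_right (le_max_left 1 (ε / e)) hVe.le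
      rwa [one_mul] at h2
    · have h1 := (val_mono D hG P hP he hle (hVX e he).2 (hVX ε hε).2).2
      exact h1.trans (mul_le_mul_of_nonneg_right (le_max_right _ _) hVe.le)

omit hK in
/-- The value is bounded from below if there is a good point. -/
theorem val_ge {x0 : Fin N → ℝ} {c : ℝ} (hc : ∀ v, c ≤ q1 v ^ D.K * bt D 0 x0 v) {ε μ : ℝ}
    (hε : 0 < ε) {x : Fin N → ℝ} (h : IsVal D P ε μ x) : c ≤ μ * nf P x0 := by
  obtain ⟨v, hv⟩ := h.2 x0
  refine le_trans ?_ hv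
  refine (hc v).trans ?_
  unfold fi
  have h1 := one_le_Mf D P hP v
  have h2 := q1_pos v
  have h3 : bt D 0 x0 v ≤ bt D ε x0 v := by unfold bt; linarith
  have h4 := bt_ge D hG ε x0 v
  have h5 : 0 < q1 v ^ D.K := pow_pos h2 _
  have h6 : 0 ≤ bt D ε x0 v := by linarith
  calc q1 v ^ D.K * bt D 0 x0 v ≤ q1 v ^ D.K * bt D ε x0 v :=
        mul_le_mul_of_nonneg_left h3 h5.le
    _ = 1 * (q1 v ^ D.K * bt D ε x0 v) := (one_mul _).symm
    _ ≤ Mf D P v * (q1 v ^ D.K * bt D ε x0 v) :=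
        mul_le_mul_of_nonneg_right h1 (by positivity)
    _ = _ := by ring

omit hK in
/-- The value is small for small `ε` if there is no good point. -/
theorem val_small (hX : ∀ x : Fin N → ℝ, ∃ v, bt D 0 x v = 0) {V : ℝ → ℝ}
    {X : ℝ → Fin N → ℝ} (hV : ∀ ε, 0 < ε → 0 < V ε ∧ IsVal D P ε (V ε) (X ε)) {γ : ℝ}
    (hγ : 0 < γ) {e : ℝ} (he : 0 < e) : ∃ ε, 0 < ε ∧ ε < e ∧ V ε < γ := by
  by_contra hcon
  push Not at hcon
  obtain ⟨t, ht⟩ : ∃ t : ℕ → ℝ, ∀ n, t n = (min e 1 / 2) * (1 / ((n : ℝ) + 1)) :=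
    ⟨_, fun _ => rfl⟩
  have hm : 0 < min e 1 := lt_min he one_pos
  have ht0 : ∀ n, 0 < t n := fun n => by rw [ht]; positivity
  have ht1 : ∀ n, t n ≤ min e 1 / 2 := fun n => by
    rw [ht]
    have h1 : 1 / ((n : ℝ) + 1) ≤ 1 := by
      rw [div_le_one (by positivity)]
      have : (0 : ℝ) ≤ n := Nat.cast_nonneg n
      linarith
    nlinarith
  have hte : ∀ n, t n < e := fun n => by
    have := ht1 n
    have := min_le_left e 1
    linarith
  have ht2 : ∀ n, t n ≤ 1 := fun n => by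
    have := ht1 n
    have := min_le_right e 1
    linarith
  have htend : Tendsto t atTop (𝓝 0) := by
    have h1 : t = fun n : ℕ => (min e 1 / 2) * (1 / ((n : ℝ) + 1)) := funext ht
    rw [h1]
    simpa using (tendsto_one_div_add_atTop_nhds_zero_nat (𝕜 := ℝ)).const_mul (min e 1 / 2)
  have hγV : ∀ n, γ ≤ V (t n) := fun n => hcon _ (ht0 n) (hte n)
  have hn : ∀ x, 0 < nf P x := fun x => by have := one_le_nf P hP x; linarith
  have hle : ∀ n v, γ * nf P (X (t n)) ≤ fi D P (t n) (X (t n)) v := fun n v =>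
    (mul_le_mul_of_nonneg_right (hγV n) (hn _).le).trans ((hV _ (ht0 n)).2.1 v)
  -- boundedness
  obtain ⟨C, hC0, hC⟩ : ∃ C : ℝ, 0 < C ∧ ∀ (ε : ℝ), ε ≤ 1 → ∀ x : Fin N → ℝ,
      fi D P ε x 0 ≤ C * q1 x := by
    obtain ⟨W, hW⟩ : ∃ W, W = ∑ l, (D.w l : ℝ) := ⟨_, rfl⟩
    have hW0 : 0 ≤ W := by rw [hW]; exact Finset.sum_nonneg fun _ _ => by positivity
    have hw := W_pos D P hP (0 : Fin N → ℝ)
    have hg := hG 0
    refine ⟨(Mf D P 0 * q1 0 ^ D.K) * (W + gv D (0 : Fin N → ℝ) + 1), by positivity,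
      fun ε hε x => ?_⟩
    have hfi : fi D P ε x 0 = (Mf D P 0 * q1 0 ^ D.K) * bt D ε x 0 := rfl
    rw [hfi, mul_assoc (Mf D P 0 * q1 0 ^ D.K)]
    refine mul_le_mul_of_nonneg_left ?_ hw.le
    unfold bt
    have h1 := one_le_q1 x
    have h2 : ∑ l, (D.w l : ℝ) * (x l - (0 : Fin N → ℝ) l) ^ 2 ≤ W * q1 x := by
      rw [hW, Finset.sum_mul]
      refine Finset.sum_le_sum fun l _ => mul_le_mul_of_nonneg_left ?_ (by positivity)
      have : x l ^ 2 ≤ ∑ l, x l ^ 2 :=
        Finset.single_le_sum (f := fun l => x l ^ 2) (fun _ _ => sq_nonneg _) (mem_univ l)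
      simp only [Pi.zero_apply, sub_zero]
      unfold q1
      linarith
    nlinarith
  have hbox : ∀ n, X (t n) ∈ Set.pi Set.univ (fun _ : Fin N => Set.Icc (-(C / γ)) (C / γ)) := by
    intro n
    apply mem_box
    rw [le_div_iff₀ hγ]
    have h1 := hle n 0
    have h2 := hC (t n) (ht2 n) (X (t n))
    have h3 := q1_sq_le_nf P hP (X (t n))
    have h4 := one_le_q1 (X (t n))
    have h5 : γ * q1 (X (t n)) ^ 2 ≤ C * q1 (X (t n)) :=
      (mul_le_mul_of_nonneg_left h3 hγ.le).trans (h1.trans h2)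
    have h6 : (q1 (X (t n)) * γ) * q1 (X (t n)) ≤ C * q1 (X (t n)) := by nlinarith
    exact le_of_mul_le_mul_right h6 (by linarith)
  obtain ⟨x, -, φ, hφ, hx⟩ := (isCompact_box (N := N) (C / γ)).tendsto_subseq hbox
  obtain ⟨v, hv⟩ := hX x
  have htφ : Tendsto (fun n => t (φ n)) atTop (𝓝 0) := htend.comp hφ.tendsto_atTop
  have hpair : Tendsto (fun n => (t (φ n), X (t (φ n)))) atTop (𝓝 (0, x)) :=
    htφ.prodMk_nhds hx
  have c1 : Continuous fun s : ℝ × (Fin N → ℝ) => fi D P s.1 s.2 v :=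
    cont_fi D P continuous_fst continuous_snd continuous_const
  have c2 : Continuous fun s : ℝ × (Fin N → ℝ) => γ * nf P s.2 :=
    continuous_const.mul ((cont_nf P).comp continuous_snd)
  have h1 := (c1.tendsto (0, x)).comp hpair
  have h2 := (c2.tendsto (0, x)).comp hpair
  have h3 := le_of_tendsto_of_tendsto' h2 h1 fun n => hle (φ n) v
  have h4 : fi D P 0 x v = 0 := by
    unfold fi
    rw [hv, mul_zero]
  simp only at h3
  rw [h4] at h3
  have := hn x
  nlinarith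

end

end Pool.Agent.U7.Iso
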