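import Mathlib
import Pool.Agent.U7.Iso.Val

/-!
# The main theorem on the game
-/

set_option autoImplicit false
set_option linter.unusedSimpArgs false

namespace Pool.Agent.U7.Iso

open Finset Filter Topology Pool.Agent.H612 Pool.Agent.R537.RN

variable {N : ℕ} (D : Dat N)

/-- Well separated parameters. -/
def Sep (ρ : Pm N ⊕ Bool → ℕ) (L B : ℕ) (f : Pm N ⊕ Bool → ℝ) : Prop :=
  (∀ i, 0 < f i) ∧ (∀ i, f i ≤ 1) ∧
    ∀ i, 2 * B * f i ≤ (∏ j ∈ univ.filter (fun j => ρ j < ρ i), f j) ^ L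

/-- The last two parameters are rescaled. -/
noncomputable def resc (f : Pm N ⊕ Bool → ℝ) (s t : ℝ) : Pm N ⊕ Bool → ℝ
  | Sum.inl p => f (Sum.inl p)
  | Sum.inr false => s * f (Sum.inr false)
  | Sum.inr true => t * f (Sum.inr true)

theorem sep_resc {ρ : Pm N ⊕ Bool → ℕ} (hρ1 : ∀ p, ρ (Sum.inl p) < ρ (Sum.inr false))
    (hρ2 : ρ (Sum.inr false) < ρ (Sum.inr true)) {L B : ℕ} {f : Pm N ⊕ Bool → ℝ}
    (hf : Sep ρ L B f) {s t : ℝ} (hs0 : 0 < s) (hs1 : s ≤ 1) (ht0 : 0 < t) (ht1 : t ≤ s ^ L) :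
    Sep ρ L B (resc f s t) := by
  classical
  have ht1' : t ≤ 1 := ht1.trans (pow_le_one₀ hs0.le hs1)
  have hpos : ∀ i, 0 < resc f s t i := by
    rintro (p | _ | _)
    · exact hf.1 _
    · exact mul_pos hs0 (hf.1 _)
    · exact mul_pos ht0 (hf.1 _)
  have hle : ∀ i, resc f s t i ≤ f i := by
    rintro (p | _ | _)
    · exact le_rfl
    · exact mul_le_of_le_one_left (hf.1 _).le hs1
    · exact mul_le_of_le_one_left (hf.1 _).le ht1'
  refine ⟨hpos, fun i => (hle i).trans (hf.2.1 i), ?_⟩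
  have hsame : ∀ i, i ≠ Sum.inr true → ρ i < ρ (Sum.inr true) →
      (∏ j ∈ univ.filter (fun j => ρ j < ρ i), resc f s t j) =
      ∏ j ∈ univ.filter (fun j => ρ j < ρ i), f j := by
    intro i _ hi
    refine Finset.prod_congr rfl fun j hj => ?_
    rw [Finset.mem_filter] at hj
    rcases j with p | _ | _
    · rfl
    · exfalso
      rcases i with p | _ | _
      · have := hρ1 p
        omega
      · omega
      · omega
    · omega
  rintro (p | _ | _)
  · rw [hsame _ (by simp) ((hρ1 p).trans hρ2)]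
    exact hf.2.2 _
  · rw [hsame _ (by simp) hρ2]
    refine le_trans ?_ (hf.2.2 _)
    exact mul_le_mul_of_nonneg_left (hle _) (by positivity)
  · have h1 := hf.2.2 (Sum.inr true)
    have h2 : (∏ j ∈ univ.filter (fun j => ρ j < ρ (Sum.inr true)), resc f s t j) =
        s * ∏ j ∈ univ.filter (fun j => ρ j < ρ (Sum.inr true)), f j := by
      have hm : (Sum.inr false : Pm N ⊕ Bool) ∈ univ.filter
          (fun j => ρ j < ρ (Sum.inr true)) := by
        rw [Finset.mem_filter]; exact ⟨mem_univ _, hρ2⟩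
      rw [← Finset.mul_prod_erase _ _ hm, ← Finset.mul_prod_erase _ (fun j => f j) hm]
      have h3 : ∏ x ∈ (univ.filter (fun j => ρ j < ρ (Sum.inr true))).erase (Sum.inr false),
          resc f s t x = ∏ x ∈ (univ.filter (fun j => ρ j < ρ (Sum.inr true))).erase
            (Sum.inr false), f x := by
        refine Finset.prod_congr rfl fun j hj => ?_
        rw [Finset.mem_erase, Finset.mem_filter] at hj
        rcases j with p | _ | _
        · rfl
        · exact absurd rfl hj.1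
        · exact absurd hj.2.2 (lt_irrefl _)
      rw [h3]
      simp only [resc]
      ring
    rw [h2, mul_pow]
    have h4 : 2 * (B : ℝ) * resc f s t (Sum.inr true) = t * (2 * B * f (Sum.inr true)) := by
      simp only [resc]; ring
    rw [h4]
    have h5 : 0 ≤ 2 * (B : ℝ) * f (Sum.inr true) := by
      have := hf.1 (Sum.inr true)
      positivity
    exact mul_le_mul ht1 h1 h5 (by positivity)

/-- The data of the bounds. -/
structure Bds (s L B : ℕ) (ρ : Pm N ⊕ Bool → ℕ) : Prop where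
  hs : ∀ r ≤ N + 1, Bnd D r s
  hL : 2 * (hh ((N + 2) * (N + 1)) s * (Fintype.card (Pm N) + 2) + 1) ^
      (Fintype.card (Pm N) + 1) ≤ L + 1
  hB : ((L + 1) ^ (Fintype.card (Pm N) + 2)) ^ 2 *
        2 ^ (hh ((N + 2) * (N + 1)) s * (Fintype.card (Pm N) + 2) * L) ≤ B
  inj : Function.Injective ρ
  lt1 : ∀ p, ρ (Sum.inl p) < ρ (Sum.inr false)
  lt2 : ρ (Sum.inr false) < ρ (Sum.inr true)

theorem hh_mono {a b s : ℕ} (h : a ≤ b) : hh a s ≤ hh b s := by
  unfold hh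
  have h1 : a * (a + 1) ≤ b * (b + 1) := Nat.mul_le_mul h (by omega)
  have h2 : s * a ≤ s * b := Nat.mul_le_mul_left _ h
  omega

theorem card_Un (r : ℕ) : Fintype.card (Un r N) = (r + 1) * (N + 1) := by
  simp [Fintype.card_prod, Fintype.card_option]

section

variable {D} {s L B : ℕ} {ρ : Pm N ⊕ Bool → ℕ} (hb : Bds D s L B ρ)

include hb

/-- The relation for a coordinate, with the uniform bounds. -/
theorem rel' {r : ℕ} (hr : r ≤ N + 1) (I : Un r N → Pm N) (hI : Function.Injective I)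
    (u : Un r N) :
    ∃ q : MvPolynomial (Pm N ⊕ Bool) ℤ, (∀ f, Sep ρ L B f → MvPolynomial.aeval f q ≠ 0) ∧
      ∀ (Z : Un r N → ℝ) (P : Pm N → ℝ) (ε : ℝ), (∀ e, Sys D Z P ε e = 0) →
        ((Matrix.of (Am D Z ε)).submatrix id I).det ≠ 0 →
        MvPolynomial.aeval (Sum.elim P (fun b : Bool => if b then ε else Z u)) q = 0 := by
  classical
  have hcard : Fintype.card (Un r N) ≤ (N + 2) * (N + 1) := by
    rw [card_Un]
    exact Nat.mul_le_mul_right _ (by omega)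
  have hhm := hh_mono (s := s) hcard
  have h1 : hh (Fintype.card (Un r N)) s * (Fintype.card (Pm N) + 2) ≤
      hh ((N + 2) * (N + 1)) s * (Fintype.card (Pm N) + 2) := Nat.mul_le_mul_right _ hhm
  obtain ⟨q, hq0, hqL, hqB, hq⟩ := rel D s (hb.hs r hr) I hI u L (by
    refine le_trans ?_ hb.hL
    exact Nat.mul_le_mul_left _ (Nat.pow_le_pow_left (by omega) _))
  refine ⟨q, fun f hf => ?_, hq⟩
  refine nonvan ρ hb.inj q hq0 L B hqL (hqB.trans (le_trans ?_ hb.hB)) f hf.1 hf.2.1 hf.2.2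
  exact Nat.mul_le_mul_left _ (Nat.pow_le_pow_right (by norm_num) (Nat.mul_le_mul_right _ h1))

omit hb in
theorem minor_of {r : ℕ} {Z : Un r N → ℝ} {ε : ℝ} (hG : ∀ v : Fin N → ℝ, 0 ≤ gv D v)
    (hε : 0 < ε) (hind : LinearIndependent ℝ fun i : Fin r => zt D (fun l => Z (some i, some l))) :
    ∃ I : Un r N → Pm N, Function.Injective I ∧
      ((Matrix.of (Am D Z ε)).submatrix id I).det ≠ 0 := by
  classical
  refine exists_minor _ fun T => ?_
  obtain ⟨P, hP⟩ := Am_surj D Z ε (fun i => by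
    have := bt_ge D hG ε (fun l => Z (none, some l)) (fun l => Z (some i, some l))
    exact (by linarith : (0 : ℝ) < _).ne') hind T
  exact ⟨P, funext hP⟩

/-- The value is never equal to the threshold. -/
theorem val_ne (hG : ∀ v : Fin N → ℝ, 0 ≤ gv D v) (hK : 1 ≤ D.K) {f : Pm N ⊕ Bool → ℝ}
    (hf : Sep ρ L B f) {x : Fin N → ℝ}
    (h : IsVal D (fun p => f (Sum.inl p)) (f (Sum.inr true)) (f (Sum.inr false)) x) : False := by
  have hP : ∀ p : Pm N, 0 ≤ f (Sum.inl p) ∧ f (Sum.inl p) ≤ 1 := fun p =>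
    ⟨(hf.1 _).le, hf.2.1 _⟩
  obtain ⟨r, hr, Z, hZx, hZμ, hZ, hind⟩ := kkt D hG hK _ hP (hf.1 _) (hf.1 _) h
  obtain ⟨I, hI, hdet⟩ := minor_of hG (hf.1 (Sum.inr true)) hind
  obtain ⟨q, hq1, hq2⟩ := rel' hb hr I hI (none, none)
  apply hq1 f hf
  have h1 := hq2 Z _ _ hZ hdet
  rw [hZμ] at h1
  have h2 : (Sum.elim (fun p => f (Sum.inl p)) fun b : Bool =>
      if b = true then f (Sum.inr true) else f (Sum.inr false)) = f := by
    funext j
    rcases j with p | _ | _ <;> simp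
  rwa [h2] at h1

/-- If there is a good point, then the value exceeds the threshold. -/
theorem val_gt (hG : ∀ v : Fin N → ℝ, 0 ≤ gv D v) (hK : 1 ≤ D.K) {f : Pm N ⊕ Bool → ℝ}
    (hf : Sep ρ L B f) {x0 : Fin N → ℝ} {c : ℝ} (hc0 : 0 < c)
    (hc : ∀ v, c ≤ q1 v ^ D.K * bt D 0 x0 v) {μ : ℝ} {x : Fin N → ℝ}
    (h : IsVal D (fun p => f (Sum.inl p)) (f (Sum.inr true)) μ x) : f (Sum.inr false) < μ := by
  have hP : ∀ p : Pm N, 0 ≤ f (Sum.inl p) ∧ f (Sum.inl p) ≤ 1 := fun p =>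
    ⟨(hf.1 _).le, hf.2.1 _⟩
  obtain ⟨V, X, hV, hVc⟩ := exists_valf D hG hK _ hP
  have hε := hf.1 (Sum.inr true)
  have hγ := hf.1 (Sum.inr false)
  have hVμ : V (f (Sum.inr true)) = μ := by
    have h1 := val_mono D hG _ hP hε le_rfl (hV _ hε).2 h
    have h2 := val_mono D hG _ hP hε le_rfl h (hV _ hε).2
    exact le_antisymm h1.1 h2.1
  by_contra hcon
  push Not at hcon
  have hn0 := one_le_nf _ hP x0
  -- the path
  obtain ⟨Φ, hΦ⟩ : ∃ Φ : ℝ → ℝ, ∀ s, Φ s = V (s ^ L * f (Sum.inr true)) - s * f (Sum.inr false) :=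
    ⟨_, fun _ => rfl⟩
  obtain ⟨s0, hs0, hs1, hs2⟩ : ∃ s0 : ℝ, 0 < s0 ∧ s0 ≤ 1 ∧ 0 < Φ s0 := by
    obtain ⟨c', hc'⟩ : ∃ c', c' = c / nf (fun p => f (Sum.inl p)) x0 := ⟨_, rfl⟩
    have hc'0 : 0 < c' := by rw [hc']; exact div_pos hc0 (by linarith)
    refine ⟨min 1 (c' / (2 * f (Sum.inr false))), lt_min one_pos (by positivity),
      min_le_left _ _, ?_⟩
    have hpos : 0 < min 1 (c' / (2 * f (Sum.inr false))) := lt_min one_pos (by positivity)
    rw [hΦ]
    have h1 := val_ge D hG _ hP hc (mul_pos (pow_pos hpos L) hε)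
      (hV _ (mul_pos (pow_pos hpos L) hε)).2
    have h2 : c' ≤ V ((min 1 (c' / (2 * f (Sum.inr false)))) ^ L * f (Sum.inr true)) := by
      rw [hc', div_le_iff₀ (by linarith), ← hc']
      exact h1
    have h3 : min 1 (c' / (2 * f (Sum.inr false))) * f (Sum.inr false) ≤ c' / 2 := by
      have h4 : min 1 (c' / (2 * f (Sum.inr false))) ≤ c' / (2 * f (Sum.inr false)) :=
        min_le_right _ _
      calc _ ≤ c' / (2 * f (Sum.inr false)) * f (Sum.inr false) :=
            mul_le_mul_of_nonneg_right h4 hγ.le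
        _ = c' / 2 := by field_simp
    linarith
  have hΦ1 : Φ 1 ≤ 0 := by
    rw [hΦ, one_pow, one_mul, one_mul, hVμ]
    linarith
  have hcontΦ : ContinuousOn Φ (Set.Icc s0 1) := by
    have h1 : Φ = fun s => V (s ^ L * f (Sum.inr true)) - s * f (Sum.inr false) := funext hΦ
    rw [h1]
    refine ContinuousOn.sub (hVc.comp (by fun_prop) fun s hs => ?_) (by fun_prop)
    exact mul_pos (pow_pos (lt_of_lt_of_le hs0 hs.1) L) hε
  obtain ⟨s, hs, hsΦ⟩ := intermediate_value_Icc' hs1 hcontΦ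
    (show (0 : ℝ) ∈ Set.Icc (Φ 1) (Φ s0) from ⟨hΦ1, hs2.le⟩)
  have hspos : 0 < s := lt_of_lt_of_le hs0 hs.1
  have hsep := sep_resc hb.lt1 hb.lt2 hf hspos hs.2 (pow_pos hspos L) le_rfl
  rw [hΦ] at hsΦ
  have h5 := (hV _ (mul_pos (pow_pos hspos L) hε)).2
  have h6 : V (s ^ L * f (Sum.inr true)) = s * f (Sum.inr false) := by linarith
  rw [h6] at h5
  exact val_ne hb hG hK hsep h5

/-- If there is no good point, then the value is below the threshold. -/
theorem val_lt (hG : ∀ v : Fin N → ℝ, 0 ≤ gv D v) (hK : 1 ≤ D.K) {f : Pm N ⊕ Bool → ℝ}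
    (hf : Sep ρ L B f) (hX : ∀ x : Fin N → ℝ, ∃ v, bt D 0 x v = 0) {μ : ℝ} {x : Fin N → ℝ}
    (h : IsVal D (fun p => f (Sum.inl p)) (f (Sum.inr true)) μ x) : μ < f (Sum.inr false) := by
  have hP : ∀ p : Pm N, 0 ≤ f (Sum.inl p) ∧ f (Sum.inl p) ≤ 1 := fun p =>
    ⟨(hf.1 _).le, hf.2.1 _⟩
  obtain ⟨V, X, hV, hVc⟩ := exists_valf D hG hK _ hP
  have hε := hf.1 (Sum.inr true)
  have hγ := hf.1 (Sum.inr false)
  have hVμ : V (f (Sum.inr true)) = μ := by
    have h1 := val_mono D hG _ hP hε le_rfl (hV _ hε).2 h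
    have h2 := val_mono D hG _ hP hε le_rfl h (hV _ hε).2
    exact le_antisymm h1.1 h2.1
  by_contra hcon
  push Not at hcon
  obtain ⟨ε1, h10, h11, h12⟩ := val_small D hG _ hP hX hV hγ hε
  obtain ⟨e, he, heV⟩ := intermediate_value_Icc h11.le
    (hVc.mono fun s hs => lt_of_lt_of_le h10 hs.1)
    (show f (Sum.inr false) ∈ Set.Icc (V ε1) (V (f (Sum.inr true))) from
      ⟨h12.le, by rw [hVμ]; exact hcon⟩)
  have hepos : 0 < e := lt_of_lt_of_le h10 he.1
  have hsep := sep_resc hb.lt1 hb.lt2 hf one_pos le_rfl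
    (t := e / f (Sum.inr true)) (div_pos hepos hε) (by
      rw [one_pow, div_le_one hε]; exact he.2)
  have h5 := (hV _ hepos).2
  rw [heV] at h5
  refine val_ne hb hG hK hsep (x := X e) ?_
  have e1 : resc f 1 (e / f (Sum.inr true)) (Sum.inr true) = e := by
    simp only [resc]; field_simp
  have e2 : resc f 1 (e / f (Sum.inr true)) (Sum.inr false) = f (Sum.inr false) := by
    simp only [resc]; ring
  rw [e1, e2]
  exact h5

/-- The univariate polynomial of a relation. -/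
theorem isolated {r : ℕ} (hr : r ≤ N + 1) (hG : ∀ v : Fin N → ℝ, 0 ≤ gv D v)
    {f : Pm N ⊕ Bool → ℝ} (hf : Sep ρ L B f) {Z : Un r N → ℝ}
    (hind : LinearIndependent ℝ fun i : Fin r => zt D (fun l => Z (some i, some l))) :
    ∃ δ > 0, ∀ Z' : Un r N → ℝ,
      (∀ e, Sys D Z' (fun p => f (Sum.inl p)) (f (Sum.inr true)) e = 0) →
      (∀ u, |Z' u - Z u| < δ) → Z' = Z := by
  classical
  obtain ⟨I, hI, hdet⟩ := minor_of hG (hf.1 (Sum.inr true)) hind
  -- the minor does not vanish nearby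
  have hcont : Continuous fun Z' : Un r N → ℝ =>
      ((Matrix.of (Am D Z' (f (Sum.inr true)))).submatrix id I).det := by
    obtain ⟨M, hM⟩ : ∃ M : Matrix (Un r N) (Un r N) (MvPolynomial (Un r N) ℝ), M =
        (Matrix.of (Am D (fun u => MvPolynomial.X u) (MvPolynomial.C (f (Sum.inr true))))).submatrix
          id I := ⟨_, rfl⟩
    have h1 : ∀ Z' : Un r N → ℝ, ((Matrix.of (Am D Z' (f (Sum.inr true)))).submatrix id I).det =
        MvPolynomial.eval Z' M.det := by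
      intro Z'
      rw [RingHom.map_det]
      congr 1
      ext e e'
      rw [RingHom.mapMatrix_apply, Matrix.map_apply, hM, Matrix.submatrix_apply,
        Matrix.submatrix_apply, Matrix.of_apply, Matrix.of_apply, Am_map]
      simp
    simp only [h1]
    exact MvPolynomial.continuous_eval _
  obtain ⟨δ1, hδ1, hnear⟩ : ∃ δ1 > 0, ∀ Z' : Un r N → ℝ, (∀ u, |Z' u - Z u| < δ1) →
      ((Matrix.of (Am D Z' (f (Sum.inr true)))).submatrix id I).det ≠ 0 := by
    have h1 := hcont.continuousAt.eventually_ne hdet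
    rw [Metric.eventually_nhds_iff] at h1
    obtain ⟨δ1, hδ1, h2⟩ := h1
    refine ⟨δ1, hδ1, fun Z' hZ' => h2 ?_⟩
    rw [dist_pi_lt_iff hδ1]
    intro u
    rw [Real.dist_eq]
    exact hZ' u
  choose q hq1 hq2 using fun u => rel' hb hr I hI u
  obtain ⟨g, hg⟩ : ∃ g : Pm N ⊕ Bool → Polynomial ℝ, g = Sum.elim
      (fun p => Polynomial.C (f (Sum.inl p)))
      (fun b : Bool => if b then Polynomial.C (f (Sum.inr true)) else Polynomial.X) := ⟨_, rfl⟩
  have hpoly : ∀ u (T : ℝ), (MvPolynomial.aeval g (q u)).eval T =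
      MvPolynomial.aeval (Sum.elim (fun p => f (Sum.inl p))
        (fun b : Bool => if b then f (Sum.inr true) else T)) (q u) := by
    intro u T
    have h1 : (Polynomial.evalRingHom T) (MvPolynomial.aeval g (q u)) =
        MvPolynomial.aeval (fun j => (g j).eval T) (q u) := by
      rw [MvPolynomial.aeval_def, MvPolynomial.aeval_def, MvPolynomial.hom_eval₂]
      congr 1
      exact RingHom.ext_int _ _
    rw [Polynomial.coe_evalRingHom] at h1
    rw [h1]
    congr 1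
    congr 1
    funext j
    rw [hg]
    rcases j with p | _ | _ <;> simp
  have hne : ∀ u, MvPolynomial.aeval g (q u) ≠ 0 := by
    intro u h0
    apply hq1 u f hf
    have h1 := hpoly u (f (Sum.inr false))
    rw [h0, Polynomial.eval_zero] at h1
    rw [h1]
    congr 1
    congr 1
    funext j
    rcases j with p | _ | _ <;> simp
  have hsep : ∀ u, ∃ δ > 0, ∀ T : ℝ, (MvPolynomial.aeval g (q u)).eval T = 0 → |T - Z u| < δ →
      T = Z u := by
    intro u
    have hfin : Set.Finite {T : ℝ | (MvPolynomial.aeval g (q u)).eval T = 0 ∧ T ≠ Z u} :=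
      (Polynomial.finite_setOfPred_isRoot (hne u)).subset fun T hT => hT.1
    have hop : IsOpen {T : ℝ | (MvPolynomial.aeval g (q u)).eval T = 0 ∧ T ≠ Z u}ᶜ :=
      hfin.isClosed.isOpen_compl
    obtain ⟨δ, hδ, hball⟩ := Metric.isOpen_iff.1 hop (Z u) (fun h => h.2 rfl)
    refine ⟨δ, hδ, fun T hT hTδ => ?_⟩
    by_contra hTZ
    exact hball (show T ∈ Metric.ball (Z u) δ by rw [Metric.mem_ball, Real.dist_eq]; exact hTδ)
      ⟨hT, hTZ⟩
  choose δ hδ0 hδ using hsep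
  obtain ⟨δ2, hδ2, hδ2'⟩ : ∃ δ2 > 0, ∀ u, δ2 ≤ δ u := by
    obtain ⟨u0, hu0⟩ := Finite.exists_min δ
    exact ⟨δ u0, hδ0 u0, hu0⟩
  refine ⟨min δ1 δ2, lt_min hδ1 hδ2, fun Z' hZ' hclose => ?_⟩
  funext u
  apply hδ u
  · rw [hpoly]
    exact hq2 u Z' _ _ hZ' (hnear Z' fun u => lt_of_lt_of_le (hclose u) (min_le_left _ _))
  · exact lt_of_lt_of_le (hclose u) ((min_le_right _ _).trans (hδ2' u))

/-- **Main theorem, positive case.** -/
theorem main_yes (hG : ∀ v : Fin N → ℝ, 0 ≤ gv D v) (hK : 1 ≤ D.K) {f : Pm N ⊕ Bool → ℝ}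
    (hf : Sep ρ L B f) {x0 : Fin N → ℝ} {c : ℝ} (hc0 : 0 < c)
    (hc : ∀ v, c ≤ q1 v ^ D.K * bt D 0 x0 v) :
    ∃ r ≤ N + 1, ∃ Z : Un r N → ℝ,
      (∀ e, Sys D Z (fun p => f (Sum.inl p)) (f (Sum.inr true)) e = 0) ∧
      (∀ v, f (Sum.inr false) * nf (fun p => f (Sum.inl p)) (fun l => Z (none, some l)) <
        fi D (fun p => f (Sum.inl p)) (f (Sum.inr true)) (fun l => Z (none, some l)) v) ∧
      ∃ δ > 0, ∀ Z' : Un r N → ℝ,
        (∀ e, Sys D Z' (fun p => f (Sum.inl p)) (f (Sum.inr true)) e = 0) →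
        (∀ u, |Z' u - Z u| < δ) → Z' = Z := by
  have hP : ∀ p : Pm N, 0 ≤ f (Sum.inl p) ∧ f (Sum.inl p) ≤ 1 := fun p =>
    ⟨(hf.1 _).le, hf.2.1 _⟩
  obtain ⟨μ, hμ, x, hx⟩ := exists_val D hG hK _ hP (hf.1 (Sum.inr true))
  obtain ⟨r, hr, Z, hZx, hZμ, hZ, hind⟩ := kkt D hG hK _ hP (hf.1 _) hμ hx
  refine ⟨r, hr, Z, hZ, fun v => ?_, isolated hb hr hG hf hind⟩
  have h1 : (fun l => Z (none, some l)) = x := funext hZx
  rw [h1]
  have h2 := val_gt hb hG hK hf hc0 hc hx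
  have h3 := one_le_nf _ hP x
  refine lt_of_lt_of_le ?_ (hx.1 v)
  exact mul_lt_mul_of_pos_right h2 (by linarith)

/-- **Main theorem, negative case.** -/
theorem main_no (hG : ∀ v : Fin N → ℝ, 0 ≤ gv D v) (hK : 1 ≤ D.K) {f : Pm N ⊕ Bool → ℝ}
    (hf : Sep ρ L B f) (hX : ∀ x : Fin N → ℝ, ∃ v, bt D 0 x v = 0) (x : Fin N → ℝ) :
    ∃ v, fi D (fun p => f (Sum.inl p)) (f (Sum.inr true)) x v ≤
      f (Sum.inr false) * nf (fun p => f (Sum.inl p)) x := by
  have hP : ∀ p : Pm N, 0 ≤ f (Sum.inl p) ∧ f (Sum.inl p) ≤ 1 := fun p =>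
    ⟨(hf.1 _).le, hf.2.1 _⟩
  obtain ⟨μ, hμ, x', hx⟩ := exists_val D hG hK _ hP (hf.1 (Sum.inr true))
  have h1 := val_lt hb hG hK hf hX hx
  obtain ⟨v, hv⟩ := hx.2 x
  have h3 := one_le_nf _ hP x
  exact ⟨v, hv.trans (mul_le_mul_of_nonneg_right h1.le (by linarith))⟩

end

end Pool.Agent.U7.Iso
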