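import Mathlib
import Pool.Agent.U7.Iso.Bound
import Pool.Agent.U7.Iso.Main

/-!
# Explicit parameters
-/

set_option autoImplicit false
set_option linter.unusedSimpArgs false

namespace Pool.Agent.U7.Iso

open Finset Pool.Agent.NPC Pool.Agent.NPC.ER Pool.Agent.H612 Pool.Agent.NPC.H612
  Pool.Agent.R537.RN

/-- The number of an index. -/
def jx {N : ℕ} : J N → ℕ
  | none => 0
  | some none => 1
  | some (some l) => (l : ℕ) + 2

theorem jx_lt {N : ℕ} (a : J N) : jx a < N + 2 := by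
  rcases a with _ | _ | l
  · simp [jx]
  · simp [jx]
  · simp only [jx]; omega

theorem jx_inj {N : ℕ} : Function.Injective (jx : J N → ℕ) := by
  intro a b h
  rcases a with _ | _ | l <;> rcases b with _ | _ | l' <;> simp [jx] at h ⊢
  exact Fin.ext h

/-- The rank of a triple. -/
def r3 (T a b d : ℕ) : ℕ := (a * T + b) * T + d

theorem r3_lt {T a b d : ℕ} (ha : a < T) (hb : b < T) (hd : d < T) : r3 T a b d < T ^ 3 := by
  unfold r3
  have h1 : a * T + b < T * T := by nlinarith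
  nlinarith

theorem r3_inj {T a b d a' b' d' : ℕ} (hb : b < T) (hd : d < T) (hb' : b' < T) (hd' : d' < T)
    (h : r3 T a b d = r3 T a' b' d') : a = a' ∧ b = b' ∧ d = d' := by
  unfold r3 at h
  have key : ∀ x y x' y' : ℕ, y < T → y' < T → x * T + y = x' * T + y' → x = x' ∧ y = y' := by
    intro x y x' y' hy hy' hh
    have hT : 0 < T := by omega
    have h1 : (x * T + y) / T = x := by
      rw [mul_comm, Nat.mul_add_div hT, Nat.div_eq_of_lt hy, add_zero]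
    have h2 : (x' * T + y') / T = x' := by
      rw [mul_comm, Nat.mul_add_div hT, Nat.div_eq_of_lt hy', add_zero]
    have h3 : x = x' := by rw [← h1, ← h2, hh]
    subst h3
    exact ⟨rfl, by omega⟩
  obtain ⟨h1, h2⟩ := key _ _ _ _ hd hd' h
  obtain ⟨h3, h4⟩ := key _ _ _ _ hb hb' h1
  exact ⟨h3, h4, h2⟩

/-- The rank of a parameter. -/
def rk {N : ℕ} : Pm N ⊕ Bool → ℕ
  | Sum.inl (Sum.inl t) => r3 (N + 2) (jx t.1) (jx t.2.1) (jx t.2.2)
  | Sum.inl (Sum.inr none) => (N + 2) ^ 3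
  | Sum.inl (Sum.inr (some l)) => (N + 2) ^ 3 + 1 + (l : ℕ)
  | Sum.inr false => (N + 2) ^ 3 + N + 1
  | Sum.inr true => (N + 2) ^ 3 + N + 2

theorem rk_inj {N : ℕ} : Function.Injective (rk : Pm N ⊕ Bool → ℕ) := by
  intro i j h
  have h3 : ∀ t : T3 N, r3 (N + 2) (jx t.1) (jx t.2.1) (jx t.2.2) < (N + 2) ^ 3 := fun t =>
    r3_lt (jx_lt _) (jx_lt _) (jx_lt _)
  rcases i with (t | _ | l) | _ | _ <;> rcases j with (t' | _ | l') | _ | _ <;>
    simp only [rk] at h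
  · obtain ⟨h1, h2, h4⟩ := r3_inj (jx_lt _) (jx_lt _) (jx_lt _) (jx_lt _) h
    have e : t = t' := Prod.ext (jx_inj h1) (Prod.ext (jx_inj h2) (jx_inj h4))
    rw [e]
  all_goals first
    | rfl
    | (exfalso; have := h3 t; omega)
    | (exfalso; have := h3 t'; omega)
    | (exfalso; omega)
    | (have e : l = l' := Fin.ext (by omega); rw [e])

theorem rk_lt1 {N : ℕ} (p : Pm N) : rk (Sum.inl p : Pm N ⊕ Bool) < rk (Sum.inr false : Pm N ⊕ Bool) := by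
  rcases p with t | _ | l
  · simp only [rk]
    have := r3_lt (jx_lt t.1) (jx_lt t.2.1) (jx_lt t.2.2)
    omega
  · simp only [rk]; omega
  · simp only [rk]
    have := l.2
    omega

/-- The small numbers. -/
noncomputable def th (E m : ℕ) : ℝ := (1 / 2) ^ (2 ^ (E * (m + 1)))

theorem th_pos (E m : ℕ) : 0 < th E m := by unfold th; positivity

theorem th_le (E m : ℕ) : th E m ≤ 1 := by
  unfold th; exact pow_le_one₀ (by norm_num) (by norm_num)

theorem geom_le {E : ℕ} (hE : 1 ≤ E) (m : ℕ) :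
    ∑ k ∈ range m, 2 ^ (E * (k + 1)) ≤ 2 * 2 ^ (E * m) := by
  induction m with
  | zero => simp
  | succ m ih =>
    rw [Finset.sum_range_succ]
    have h1 : 2 ^ (E * (m + 1)) = 2 ^ E * 2 ^ (E * m) := by rw [mul_add, mul_one, pow_add]; ring
    have h2 : 2 ≤ 2 ^ E := by
      calc 2 = 2 ^ 1 := rfl
        _ ≤ 2 ^ E := Nat.pow_le_pow_right (by norm_num) hE
    have h3 : 2 * 2 ^ (E * m) ≤ 2 ^ E * 2 ^ (E * m) := Nat.mul_le_mul_right _ h2
    omega

theorem sep_th {N : ℕ} (ρ : Pm N ⊕ Bool → ℕ) (hρ : Function.Injective ρ) (L B H E : ℕ)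
    (hB : B ≤ 2 ^ H) (hE1 : 1 ≤ E) (hE : 1 + H + 2 * L ≤ 2 ^ E) :
    Sep ρ L B (fun j => th E (ρ j)) := by
  classical
  refine ⟨fun i => th_pos _ _, fun i => th_le _ _, fun i => ?_⟩
  have h1 : ∏ j ∈ univ.filter (fun j => ρ j < ρ i), th E (ρ j) =
      (1 / 2 : ℝ) ^ (∑ j ∈ univ.filter (fun j => ρ j < ρ i), 2 ^ (E * (ρ j + 1))) := by
    unfold th
    rw [Finset.prod_pow_eq_pow_sum]
  have h2 : ∑ j ∈ univ.filter (fun j => ρ j < ρ i), 2 ^ (E * (ρ j + 1)) ≤ 2 * 2 ^ (E * ρ i) := by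
    refine le_trans ?_ (geom_le hE1 (ρ i))
    rw [← Finset.sum_image (f := fun m => 2 ^ (E * (m + 1))) (g := ρ) fun a _ b _ h => hρ h]
    refine Finset.sum_le_sum_of_subset fun m hm => ?_
    rw [Finset.mem_image] at hm
    obtain ⟨j, hj, rfl⟩ := hm
    rw [Finset.mem_filter] at hj
    exact Finset.mem_range.2 hj.2
  rw [h1, ← pow_mul]
  have h3 : (∑ j ∈ univ.filter (fun j => ρ j < ρ i), 2 ^ (E * (ρ j + 1))) * L ≤
      2 * 2 ^ (E * ρ i) * L := Nat.mul_le_mul_right _ h2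
  have h4 : (1 / 2 : ℝ) ^ (2 * 2 ^ (E * ρ i) * L) ≤ (1 / 2 : ℝ) ^
      ((∑ j ∈ univ.filter (fun j => ρ j < ρ i), 2 ^ (E * (ρ j + 1))) * L) :=
    pow_le_pow_of_le_one (by norm_num) (by norm_num) h3
  refine le_trans ?_ h4
  have h5 : (B : ℝ) ≤ 2 ^ H := by exact_mod_cast hB
  have h6 : 2 ^ (E * (ρ i + 1)) = 2 ^ E * 2 ^ (E * ρ i) := by
    rw [mul_add, mul_one, pow_add]; ring
  have h7 : (1 + H) + 2 * 2 ^ (E * ρ i) * L ≤ 2 ^ (E * (ρ i + 1)) := by
    rw [h6]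
    have h8 : 1 ≤ 2 ^ (E * ρ i) := Nat.one_le_two_pow
    nlinarith
  obtain ⟨d, hd⟩ := Nat.exists_eq_add_of_le h7
  have h8 : (2 : ℝ) ^ (1 + H) * (1 / 2) ^ (1 + H) = 1 := by
    rw [← mul_pow]; norm_num
  change 2 * (B : ℝ) * (1 / 2) ^ (2 ^ (E * (ρ i + 1))) ≤ _
  rw [hd, pow_add, pow_add]
  have h9 : (1 / 2 : ℝ) ^ d ≤ 1 := pow_le_one₀ (by norm_num) (by norm_num)
  have h10 : 0 < (1 / 2 : ℝ) ^ (2 * 2 ^ (E * ρ i) * L) := by positivity
  have h11 : 2 * (B : ℝ) ≤ 2 ^ (1 + H) := by rw [pow_add, pow_one]; linarith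
  calc 2 * (B : ℝ) * ((1 / 2) ^ (1 + H) * (1 / 2) ^ (2 * 2 ^ (E * ρ i) * L) * (1 / 2) ^ d)
      ≤ 2 ^ (1 + H) * ((1 / 2) ^ (1 + H) * (1 / 2) ^ (2 * 2 ^ (E * ρ i) * L) * 1) := by
        refine mul_le_mul h11 (mul_le_mul_of_nonneg_left h9 (by positivity)) (by positivity)
          (by positivity)
    _ = (2 ^ (1 + H) * (1 / 2) ^ (1 + H)) * (1 / 2) ^ (2 * 2 ^ (E * ρ i) * L) := by ring
    _ = (1 / 2) ^ (2 * 2 ^ (E * ρ i) * L) := by rw [h8, one_mul]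

/-! ### The exponents -/

/-- The exponent of `bs`. -/
def ea (N σ W κ : ℕ) : ℕ := κ + (12 + 7 * (N + 2) + 5 * bA σ W)
/-- The exponent of `hh`. -/
def eh (N σ W κ : ℕ) : ℕ := ea N σ W κ + 4 * (N + 2) + 2
/-- The exponent of `L + 1`. -/
def eL (N σ W κ : ℕ) : ℕ := (eh N σ W κ + 4 * (N + 2) + 2) * (N + 2) ^ 4
/-- The final exponent. -/
def eE (N σ W κ : ℕ) : ℕ := eL N σ W κ + eh N σ W κ + 4 * (N + 2) + 2

theorem card_Pm {N : ℕ} : Fintype.card (Pm N) = (N + 2) ^ 3 + N + 1 := by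
  rw [Fintype.card_sum]
  have h1 : Fintype.card (T3 N) = (N + 2) ^ 3 := by
    simp only [Fintype.card_prod, Fintype.card_option, Fintype.card_fin]
    ring
  rw [h1, Fintype.card_option, Fintype.card_fin]
  ring

theorem exists_bds {N : ℕ} (lo : ℕ → Fin N) (S : List ER.Con) (El : List ℕ) (κ : ℕ) :
    ∃ L B H, Bds (mkD lo S El (2 ^ κ)) (bs N S.length El.length (2 ^ κ)) L B rk ∧ B ≤ 2 ^ H ∧
      1 + H + 2 * L ≤ 2 ^ eE N S.length El.length κ := by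
  obtain ⟨s, hs⟩ : ∃ s, s = bs N S.length El.length (2 ^ κ) := ⟨_, rfl⟩
  obtain ⟨h, hh'⟩ : ∃ h, h = hh ((N + 2) * (N + 1)) s := ⟨_, rfl⟩
  obtain ⟨c, hc⟩ : ∃ c, c = Fintype.card (Pm N) + 2 := ⟨_, rfl⟩
  obtain ⟨L, hL⟩ : ∃ L, L + 1 = 2 * (h * c + 1) ^ (Fintype.card (Pm N) + 1) :=
    ⟨2 * (h * c + 1) ^ (Fintype.card (Pm N) + 1) - 1, by
      have : 1 ≤ (h * c + 1) ^ (Fintype.card (Pm N) + 1) := Nat.one_le_pow _ _ (by omega)
      omega⟩
  refine ⟨L, ((L + 1) ^ c) ^ 2 * 2 ^ (h * c * L), c * (h + 2) * (L + 1), ⟨?_, ?_, ?_, ?_, ?_, ?_⟩,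
    ?_, ?_⟩
  · exact fun r hr => bnd_mkD lo S El (2 ^ κ) hr
  · rw [hL, ← hs, ← hh', ← hc]
  · rw [← hs, ← hh', ← hc]
  · exact rk_inj
  · exact rk_lt1
  · simp only [rk]; omega
  · have h2 : L + 1 ≤ 2 ^ (L + 1) := Nat.lt_two_pow_self.le
    calc ((L + 1) ^ c) ^ 2 * 2 ^ (h * c * L) ≤ ((2 ^ (L + 1)) ^ c) ^ 2 * 2 ^ (h * c * (L + 1)) :=
          Nat.mul_le_mul (Nat.pow_le_pow_left (Nat.pow_le_pow_left h2 _) _)
            (Nat.pow_le_pow_right (by norm_num) (Nat.mul_le_mul_left _ (by omega)))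
      _ = 2 ^ (c * (h + 2) * (L + 1)) := by
          rw [← pow_mul, ← pow_mul, ← pow_add]
          congr 1
          ring
  · -- the numerical bound
    have h2 : ∀ k : ℕ, k + 1 ≤ 2 ^ k := fun k => Nat.lt_two_pow_self
    obtain ⟨T, hT⟩ : ∃ T, T = N + 2 := ⟨_, rfl⟩
    have hT2 : 2 ≤ T := by omega
    have hT4 : T ^ 4 ≤ 2 ^ (4 * T) := by
      calc T ^ 4 ≤ (2 ^ T) ^ 4 := Nat.pow_le_pow_left (by have := h2 T; omega) 4
        _ = 2 ^ (4 * T) := by rw [← pow_mul, mul_comm]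
    -- s
    have hs2 : s ≤ 2 ^ ea N S.length El.length κ := by
      rw [hs]
      unfold bs ea
      have hK : 1 ≤ 2 ^ κ := Nat.one_le_two_pow
      generalize bA S.length El.length = A
      have h3 := h2 (12 + 7 * (N + 2) + 5 * A)
      rw [pow_add]
      calc 9 + 6 * (N + 2) + 5 * A + (N + 5) * 2 ^ κ
          ≤ (9 + 6 * (N + 2) + 5 * A) * 2 ^ κ + (N + 5) * 2 ^ κ := by
            have := Nat.le_mul_of_pos_right (9 + 6 * (N + 2) + 5 * A) hK
            omega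
        _ = 2 ^ κ * (12 + 7 * (N + 2) + 5 * A) := by ring
        _ ≤ 2 ^ κ * 2 ^ (12 + 7 * (N + 2) + 5 * A) := Nat.mul_le_mul_left _ (by omega)
    have hs1 : 1 ≤ s := by rw [hs]; unfold bs; omega
    -- h
    have hh2 : h ≤ 2 ^ eh N S.length El.length κ := by
      rw [hh']
      unfold hh eh
      have hn : (N + 2) * (N + 1) ≤ T ^ 2 := by rw [hT]; nlinarith
      rw [← hT] at *
      generalize ea N S.length El.length κ = a at *
      generalize T * (N + 1) = n at *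
      have e1 : n * (n + 1) ≤ T ^ 2 * (T ^ 2 + 1) := Nat.mul_le_mul hn (by omega)
      have e2 : s * n ≤ s * T ^ 2 := Nat.mul_le_mul_left _ hn
      have e3 : 4 ≤ T ^ 2 := by nlinarith
      have e4 : T ^ 4 = T ^ 2 * T ^ 2 := by ring
      have e5 : n * (n + 1) + s * n + s + 1 ≤ s * (4 * T ^ 4) := by
        have e6 : T ^ 2 * (T ^ 2 + 1) ≤ s * (T ^ 2 * (T ^ 2 + 1)) := Nat.le_mul_of_pos_left _ hs1
        have e7 : n * (n + 1) + s * n + s + 1 ≤ s * (T ^ 2 * (T ^ 2 + 1) + T ^ 2 + 1 + 1) := by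
          nlinarith
        refine e7.trans (Nat.mul_le_mul_left _ ?_)
        rw [e4]
        nlinarith
      refine e5.trans ?_
      calc s * (4 * T ^ 4) ≤ 2 ^ a * (4 * 2 ^ (4 * T)) :=
            Nat.mul_le_mul hs2 (Nat.mul_le_mul_left _ hT4)
        _ = 2 ^ (a + 4 * T + 2) := by rw [pow_add, pow_add]; ring
    have hcT : c ≤ T ^ 4 := by
      rw [hc, card_Pm]
      have e1 : (N + 2) ^ 3 + N + 1 + 2 = T ^ 3 + T + 1 := by rw [hT]; ring
      rw [e1]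
      have e2 : T ^ 4 = T * T ^ 3 := by ring
      have e3 : 2 * T ^ 3 ≤ T * T ^ 3 := Nat.mul_le_mul_right _ hT2
      have e4 : T + 1 ≤ T ^ 3 := by nlinarith [Nat.pow_le_pow_left hT2 2, sq_nonneg T]
      omega
    have hc2 : c ≤ 2 ^ (4 * T) := hcT.trans hT4
    unfold eE
    obtain ⟨eH, heH⟩ : ∃ eH, eH = eh N S.length El.length κ := ⟨_, rfl⟩
    have hLle : L + 1 ≤ 2 ^ eL N S.length El.length κ := by
      rw [hL]
      unfold eL
      rw [← heH, ← hT]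
      rw [← heH] at hh2
      have e1 : h * c + 1 ≤ 2 ^ (eH + 4 * T + 1) := by
        have e2 : h * c ≤ 2 ^ (eH + 4 * T) := by
          rw [pow_add]; exact Nat.mul_le_mul hh2 hc2
        have e3 : 1 ≤ 2 ^ (eH + 4 * T) := Nat.one_le_two_pow
        rw [pow_succ]
        omega
      have hcM : Fintype.card (Pm N) + 1 ≤ T ^ 4 := by omega
      have hTp : 1 ≤ T ^ 4 := Nat.one_le_pow _ _ (by omega)
      calc 2 * (h * c + 1) ^ (Fintype.card (Pm N) + 1)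
          ≤ 2 * (2 ^ (eH + 4 * T + 1)) ^ (T ^ 4) :=
            Nat.mul_le_mul_left _ ((Nat.pow_le_pow_left e1 _).trans
              (Nat.pow_le_pow_right (by positivity) hcM))
        _ = 2 ^ (1 + (eH + 4 * T + 1) * T ^ 4) := by rw [← pow_mul, pow_add, pow_one]
        _ ≤ 2 ^ ((eH + 4 * T + 2) * T ^ 4) := by
            refine Nat.pow_le_pow_right (by norm_num) ?_
            nlinarith
    rw [← heH] at hh2 ⊢
    rw [← hT]
    generalize eL N S.length El.length κ = eL' at *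
    have f1 : h + 2 ≤ 2 ^ (eH + 1) + 1 := by
      rw [pow_succ]
      have := h2 eH
      have : 1 ≤ 2 ^ eH := Nat.one_le_two_pow
      omega
    have f2 : c * (h + 2) + 2 ≤ 2 ^ (eH + 4 * T + 2) := by
      have g1 : h + 2 ≤ 3 * 2 ^ eH := by
        have : 1 ≤ 2 ^ eH := Nat.one_le_two_pow
        omega
      have g2 : c * (h + 2) ≤ 2 ^ (4 * T) * (3 * 2 ^ eH) := Nat.mul_le_mul hc2 g1
      have g3 : 2 ^ (eH + 4 * T + 2) = 4 * (2 ^ (4 * T) * 2 ^ eH) := by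
        rw [pow_add, pow_add]; ring
      have g4 : 2 ≤ 2 ^ (4 * T) * 2 ^ eH := by
        have : 2 ≤ 2 ^ (4 * T) := by
          calc 2 = 2 ^ 1 := rfl
            _ ≤ 2 ^ (4 * T) := Nat.pow_le_pow_right (by norm_num) (by omega)
        have : 1 ≤ 2 ^ eH := Nat.one_le_two_pow
        nlinarith
      rw [g3]
      have g5 : 2 ^ (4 * T) * (3 * 2 ^ eH) = 3 * (2 ^ (4 * T) * 2 ^ eH) := by ring
      omega
    calc 1 + c * (h + 2) * (L + 1) + 2 * L ≤ (c * (h + 2) + 2) * (L + 1) := by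
          rw [add_mul]; omega
      _ ≤ 2 ^ (eH + 4 * T + 2) * 2 ^ eL' := Nat.mul_le_mul f2 hLle
      _ = 2 ^ (eL' + eH + 4 * T + 2) := by rw [← pow_add]; congr 1; ring

end Pool.Agent.U7.Iso
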