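import Mathlib
import Pool.Agent.U7.Iso.Params
import Pool.Agent.U7.Iso.Cone

/-!
# The formulas of the reduction
-/

set_option autoImplicit false
set_option linter.unusedSimpArgs false

namespace Pool.Agent.U7.Iso

open Finset Pool.Agent.NPC Pool.Agent.NPC.ER Pool.Agent.H612 Pool.Agent.NPC.H612
  Pool.Agent.R537.RN

/-- The square of a term. -/
def sq' (t : Tm) : Tm := Tm.mul t t
/-- The difference of terms. -/
def sb (s t : Tm) : Tm := Tm.add s (Tm.neg t)
/-- The double of a term. -/
def db (t : Tm) : Tm := Tm.add t t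
/-- A natural number. -/
def nm (n : ℕ) : Tm := natT n.bits

@[simp] theorem eval_sq' (v : ℕ → ℝ) (t : Tm) : (sq' t).eval v = t.eval v ^ 2 := by
  simp [sq', Tm.eval, sq]

@[simp] theorem eval_sb (v : ℕ → ℝ) (s t : Tm) : (sb s t).eval v = s.eval v - t.eval v := by
  simp [sb, Tm.eval, sub_eq_add_neg]

@[simp] theorem eval_db (v : ℕ → ℝ) (t : Tm) : (db t).eval v = 2 * t.eval v := by
  simp only [db, Tm.eval]; ring

@[simp] theorem eval_nm (v : ℕ → ℝ) (n : ℕ) : (nm n).eval v = n := by
  rw [nm, eval_natT, valB_bits]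

theorem sum_range_fin (N : ℕ) (f : ℕ → ℝ) : ((List.range N).map f).sum = ∑ l : Fin N, f l := by
  have h : ((List.range N).map f).sum = ∑ i ∈ Finset.range N, f i := rfl
  rw [h, Finset.sum_range]

theorem sum_range_J (N : ℕ) (f : ℕ → ℝ) :
    ((List.range (N + 2)).map f).sum = ∑ a : J N, f (jx a) := by
  rw [Fintype.sum_option, Fintype.sum_option]
  have h : ((List.range (N + 2)).map f).sum = ∑ i ∈ Finset.range (N + 2), f i := rfl
  rw [h, Finset.sum_range_succ', Finset.sum_range_succ', Finset.sum_range]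
  simp only [jx]
  ring

section

variable (p : List ℕ × Fm)

/-- The exponent of the separation. -/
def pe : ℕ := eE (pN p) (pS p).length (pE p).length (pk p)
/-- The number of the squarings. -/
def pJ : ℕ := pe p * ((pN p + 2) ^ 3 + pN p + 3)
/-- The offset of the powers. -/
def oD : ℕ := pN p + 1 + (pJ p + 1)
/-- The offset of the slots. -/
def oS : ℕ := oD p + (pk p + 2)
/-- The width of a slot. -/
def ws : ℕ := pN p + pk p + 3
/-- The number of the main coordinates. -/
def nP : ℕ := oS p + (pN p + 1) * ws p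
/-- The base of a slot. -/
def sl (i : ℕ) : ℕ := oS p + i * ws p

/-- A small number. -/
def tth (m : ℕ) : Tm := Tm.var (pN p + 1 + pe p * (m + 1))

/-- `1 + ∑ v²`. -/
def tq1 (b : ℕ) : Tm :=
  Tm.add Tm.one (sumT ((List.range (pN p)).map fun l => sq' (Tm.var (b + l))))

/-- The form of a constraint. -/
def tC (b : ℕ) (c : ER.Con) : Tm :=
  if c.code.1 = 0 then sb (Tm.var (b + (pV p).idxOf c.code.2.1)) Tm.one
  else if c.code.1 = 1 then sb (Tm.add (Tm.var (b + (pV p).idxOf c.code.2.1))
    (Tm.var (b + (pV p).idxOf c.code.2.2.1))) (Tm.var (b + (pV p).idxOf c.code.2.2.2))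
  else sb (Tm.mul (Tm.var (b + (pV p).idxOf c.code.2.1))
    (Tm.var (b + (pV p).idxOf c.code.2.2.1))) (Tm.var (b + (pV p).idxOf c.code.2.2.2))

/-- The derivative of a variable. -/
def tI (l i : ℕ) : Tm := if (pV p).idxOf i = l then Tm.one else Tm.zero

/-- The derivative of the form of a constraint. -/
def tdC (b l : ℕ) (c : ER.Con) : Tm :=
  if c.code.1 = 0 then tI p l c.code.2.1
  else if c.code.1 = 1 then sb (Tm.add (tI p l c.code.2.1) (tI p l c.code.2.2.1))
    (tI p l c.code.2.2.2)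
  else sb (Tm.add (Tm.mul (tI p l c.code.2.1) (Tm.var (b + (pV p).idxOf c.code.2.2.1)))
    (Tm.mul (Tm.var (b + (pV p).idxOf c.code.2.1)) (tI p l c.code.2.2.1)))
    (tI p l c.code.2.2.2)

/-- The sum of the squares. -/
def tG (b : ℕ) : Tm := sumT ((pS p).map fun c => sq' (tC p b c))
/-- Its derivative. -/
def tdG (b l : ℕ) : Tm := sumT ((pS p).map fun c => db (Tm.mul (tC p b c) (tdC p b l c)))
/-- The quadratic coordinate. -/
def tH (b : ℕ) : Tm := Tm.add (sumT ((pE p).map fun e => sq' (Tm.var (b + e)))) (tG p b)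
/-- The sum over the variables of the first block which are equal to `l`. -/
def tW (l : ℕ) (t : Tm) : Tm := sumT ((pE p).map fun e => if e = l then t else Tm.zero)
/-- The derivative of the quadratic coordinate. -/
def tdH (b l : ℕ) : Tm := Tm.add (tW p l (db (Tm.var (b + l)))) (tdG p b l)
/-- The homogeneous coordinates. -/
def tZ (b a : ℕ) : Tm := if a = 0 then Tm.one else if a = 1 then tH p b else Tm.var (b + (a - 2))
/-- The derivatives of the homogeneous coordinates. -/
def tdZ (b l a : ℕ) : Tm :=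
  if a = 0 then Tm.zero else if a = 1 then tdH p b l else if a - 2 = l then Tm.one else Tm.zero
/-- The penalty. -/
def tB (b : ℕ) : Tm :=
  Tm.add (Tm.add (sumT ((pE p).map fun e => sq' (sb (Tm.var e) (Tm.var (b + e))))) (tG p b))
    (tth p ((pN p + 2) ^ 3 + pN p + 2))
/-- Its derivative. -/
def tdB (b l : ℕ) : Tm := sb (tdH p b l) (tW p l (db (Tm.var l)))
/-- The sum of the squares of the homogeneous coordinates. -/
def tZZ (b : ℕ) : Tm := sumT ((List.range (pN p + 2)).map fun a => sq' (tZ p b a))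
/-- The positive weight. -/
def tM (b : ℕ) : Tm :=
  Tm.add (Tm.mul (nm (C0 (pN p))) (sq' (tZZ p b)))
    (sumT ((List.range (pN p + 2)).map fun a1 => sumT ((List.range (pN p + 2)).map fun a2 =>
      sumT ((List.range (pN p + 2)).map fun a3 => Tm.mul (tth p (r3 (pN p + 2) a1 a2 a3))
        (Tm.mul (Tm.mul (tZ p b a1) (tZ p b a2)) (tZ p b a3))))))
/-- Its derivative. -/
def tdM (b l : ℕ) : Tm :=
  Tm.add (Tm.mul (nm (C0 (pN p))) (Tm.mul (db (tZZ p b))
      (sumT ((List.range (pN p + 2)).map fun a => db (Tm.mul (tZ p b a) (tdZ p b l a))))))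
    (sumT ((List.range (pN p + 2)).map fun a1 => sumT ((List.range (pN p + 2)).map fun a2 =>
      sumT ((List.range (pN p + 2)).map fun a3 => Tm.mul (tth p (r3 (pN p + 2) a1 a2 a3))
        (Tm.add (Tm.add (Tm.mul (Tm.mul (tdZ p b l a1) (tZ p b a2)) (tZ p b a3))
          (Tm.mul (Tm.mul (tZ p b a1) (tdZ p b l a2)) (tZ p b a3)))
          (Tm.mul (Tm.mul (tZ p b a1) (tZ p b a2)) (tdZ p b l a3)))))))
/-- The normalisation. -/
def tN : Tm :=
  Tm.add (Tm.mul (nm (pN p + 2)) (sq' (tq1 p 0))) (Tm.add (tth p ((pN p + 2) ^ 3))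
    (sumT ((List.range (pN p)).map fun l => Tm.mul (tth p ((pN p + 2) ^ 3 + 1 + l)) (Tm.var l))))
/-- Its derivative. -/
def tdN (l : ℕ) : Tm :=
  Tm.add (Tm.mul (nm (pN p + 2)) (Tm.mul (Tm.mul (nm 4) (tq1 p 0)) (Tm.var l)))
    (tth p ((pN p + 2) ^ 3 + 1 + l))
/-- The main function; `u` is the place of the last power. -/
def tF (b u : ℕ) : Tm := Tm.mul (Tm.mul (tM p b) (Tm.var u)) (tB p b)

/-- A chain of squares. -/
def chn (b k : ℕ) : List Fm :=
  (List.range k).map fun j => Fm.eq (Tm.var (b + j + 1)) (sq' (Tm.var (b + j)))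
/-- A chain of doublings. -/
def dch (b k : ℕ) : List Fm :=
  (List.range k).map fun j => Fm.eq (Tm.var (b + j + 1)) (db (Tm.var (b + j)))

/-- The powers of `1 + ∑ v²`. -/
def fU (b : ℕ) : List Fm :=
  Fm.eq (Tm.var (b + pN p)) (tq1 p b) :: chn (b + pN p) (pk p)

/-- The conditions of a used slot. -/
def fUsed (i : ℕ) : Fm :=
  conj (Fm.eq (Tm.var (sl p i)) Tm.one :: (fU p (sl p i + 2) ++
    (Fm.eq (tF p (sl p i + 2) (sl p i + 2 + pN p + pk p)) (Tm.mul (Tm.var (pN p)) (tN p)) ::
      (List.range (pN p)).map fun l => Fm.eq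
        (Tm.add (Tm.mul (tq1 p (sl p i + 2))
          (Tm.add (Tm.mul (tB p (sl p i + 2)) (tdM p (sl p i + 2) l))
            (Tm.mul (tM p (sl p i + 2)) (tdB p (sl p i + 2) l))))
          (Tm.mul (Tm.var (oD p + (pk p + 1)))
            (Tm.mul (Tm.mul (tM p (sl p i + 2)) (tB p (sl p i + 2))) (Tm.var (sl p i + 2 + l)))))
        Tm.zero)))

/-- The conditions of an unused slot. -/
def fUnused (i : ℕ) : Fm :=
  conj ((List.range (ws p)).map fun j => Fm.eq (Tm.var (sl p i + j)) Tm.zero)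

/-- The conditions of the maximiser. -/
def fX : List Fm :=
  (Fm.eq (sumT ((List.range (pN p + 1)).map fun i =>
      Tm.mul (Tm.var (sl p i + 1)) (tB p (sl p i + 2)))) (tN p)) ::
  (List.range (pN p)).map fun l => Fm.eq (db (sumT ((List.range (pN p + 1)).map fun i =>
    Tm.mul (Tm.var (sl p i + 1)) (tW p l (sb (Tm.var l) (Tm.var (sl p i + 2 + l))))))) (tdN p l)

/-- The constants. -/
def fK : List Fm :=
  Fm.eq (db (Tm.var (pN p + 1))) Tm.one :: (chn (pN p + 1) (pJ p) ++
    (Fm.eq (Tm.var (oD p)) Tm.one :: dch (oD p) (pk p + 1)))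

/-- The formula of the critical points. -/
def fC : Fm :=
  conj (fK p ++ (fX p ++ (List.range (pN p + 1)).map fun i => Fm.or (fUsed p i) (fUnused p i)))

/-- The formula of the bad points. -/
def fB : Fm :=
  conj (fU p (nP p) ++ [Fm.le (tF p (nP p) (nP p + pN p + pk p))
    (Tm.mul (tth p ((pN p + 2) ^ 3 + pN p + 1)) (tN p))])

/-- The final formula. -/
def fT : Fm := coneF (nP p) (fC p) (fB p)

/-- The instance. -/
def inst : List Unit × Fm := (List.replicate (cdim (nP p) (fB p)) (), fT p)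

/-! ### Values of the terms -/

/-- The parameters. -/
def PX (X : ℕ → ℝ) (q : Pm (pN p)) : ℝ := X (pN p + 1 + pe p * (rk (Sum.inl q) + 1))
/-- The parameter `ε`. -/
def εX (X : ℕ → ℝ) : ℝ := X (pN p + 1 + pe p * ((pN p + 2) ^ 3 + pN p + 2 + 1))

variable (X : ℕ → ℝ)

theorem eval_tth (m : ℕ) : (tth p m).eval X = X (pN p + 1 + pe p * (m + 1)) := rfl

theorem eval_tq1 (b : ℕ) : (tq1 p b).eval X = q1 (fun l : Fin (pN p) => X (b + l)) := by
  unfold tq1 q1
  rw [Tm.eval, eval_sumT, List.map_map, ← sum_range_fin (pN p) (fun l => X (b + l) ^ 2)]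
  congr 1
  congr 1
  refine List.map_congr_left fun l _ => ?_
  simp only [Function.comp_apply, eval_sq', Tm.eval]

theorem eval_tC (b : ℕ) (c : ER.Con) : (tC p b c).eval X =
    cerr (fun i => X (b + (pV p).idxOf i)) 1 c := by
  cases c <;> simp [tC, ER.Con.code, cerr, Tm.eval]

theorem eval_tI (l i : ℕ) : (tI p l i).eval X = if (pV p).idxOf i = l then 1 else 0 := by
  unfold tI
  split_ifs <;> rfl

theorem eval_tdC (b l : ℕ) (c : ER.Con) : (tdC p b l c).eval X =
    derr (fun i => X (b + (pV p).idxOf i)) (fun i => if (pV p).idxOf i = l then 1 else 0) c := by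
  cases c <;> simp [tdC, ER.Con.code, derr, Tm.eval, eval_tI]

theorem eval_tG (b : ℕ) : (tG p b).eval X =
    gv (pD p) (fun l : Fin (pN p) => X (b + l)) := by
  unfold tG
  rw [eval_sumT, List.map_map, pD, gv_mkD, qsum]
  congr 1
  refine List.map_congr_left fun c _ => ?_
  simp only [Function.comp_apply, eval_sq', eval_tC]
  rfl

theorem eval_tdG (b : ℕ) (l : Fin (pN p)) : (tdG p b l).eval X =
    dg (pD p) (fun l : Fin (pN p) => X (b + l)) l := by
  unfold tdG
  rw [eval_sumT, List.map_map, pD, dg_mkD, dqs]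
  congr 1
  refine List.map_congr_left fun c _ => ?_
  simp only [Function.comp_apply, eval_db, Tm.eval, eval_tC, eval_tdC]
  congr 2
  congr 1
  funext i
  have h : ((pV p).idxOf i = (l : ℕ)) ↔ plo p i = l := by
    rw [Fin.ext_iff]
    rfl
  simp only [h]

theorem eval_tW (l : Fin (pN p)) (t : Tm) : (tW p l t).eval X =
    ((pD p).w l : ℝ) * t.eval X := by
  unfold tW
  rw [eval_sumT, List.map_map]
  have h : ∀ E : List ℕ, (E.map (Tm.eval X ∘ fun e => if e = (l : ℕ) then t else Tm.zero)).sum =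
      ((E.count (l : ℕ) : ℕ) : ℝ) * t.eval X := by
    intro E
    induction E with
    | nil => simp
    | cons e E ih =>
      rw [List.map_cons, List.sum_cons, ih, List.count_cons]
      by_cases he : e = (l : ℕ)
      · simp only [Function.comp_apply, he, if_true, beq_self_eq_true]
        push_cast
        ring
      · simp only [Function.comp_apply, if_neg he, Tm.eval]
        simp [he]
  exact h (pE p)

theorem eval_tH (b : ℕ) : (tH p b).eval X = Hv (pD p) (fun l : Fin (pN p) => X (b + l)) := by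
  unfold tH Hv
  rw [Tm.eval, eval_tG, eval_sumT, List.map_map]
  congr 1
  rw [pD]
  exact (sum_count (pE p) (pE_lt p) (fun e => X (b + e) ^ 2)).symm ▸ by
    congr 1
    refine List.map_congr_left fun e _ => ?_
    simp only [Function.comp_apply, eval_sq', Tm.eval]

theorem eval_tdH (b : ℕ) (l : Fin (pN p)) : (tdH p b l).eval X =
    dH (pD p) (fun l : Fin (pN p) => X (b + l)) l := by
  unfold tdH dH
  rw [Tm.eval, eval_tdG, eval_tW, eval_db, Tm.eval]
  ring

theorem eval_tZ (b : ℕ) (a : J (pN p)) : (tZ p b (jx a)).eval X =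
    zt (pD p) (fun l : Fin (pN p) => X (b + l)) a := by
  rcases a with _ | _ | l
  · simp [tZ, jx, zt, Tm.eval]
  · simp only [tZ, jx, zt]
    exact eval_tH p X b
  · simp [tZ, jx, zt, Tm.eval]

theorem eval_tdZ (b : ℕ) (l : Fin (pN p)) (a : J (pN p)) : (tdZ p b l (jx a)).eval X =
    dz (pD p) (fun l : Fin (pN p) => X (b + l)) l a := by
  rcases a with _ | _ | l'
  · simp [tdZ, jx, dz, Tm.eval]
  · simp only [tdZ, jx, dz]
    exact eval_tdH p X b l
  · have hj : jx (some (some l')) = (l' : ℕ) + 2 := rfl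
    have h : (l' : ℕ) + 2 - 2 = (l : ℕ) ↔ l' = l := by
      rw [Fin.ext_iff]; omega
    unfold tdZ
    rw [hj, if_neg (by omega), if_neg (by omega)]
    simp only [dz]
    by_cases hl : l' = l
    · rw [if_pos (h.2 hl), if_pos hl]; rfl
    · rw [if_neg (fun h' => hl (h.1 h')), if_neg hl]; rfl

theorem eval_tB (b : ℕ) : (tB p b).eval X =
    bt (pD p) (εX p X) (fun l : Fin (pN p) => X l) (fun l : Fin (pN p) => X (b + l)) := by
  unfold tB
  rw [Tm.eval, Tm.eval, eval_tG, eval_sumT, List.map_map, eval_tth]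
  unfold bt
  congr 1
  congr 1
  have h := sum_count (R := ℝ) (pE p) (pE_lt p) (fun e => (X e - X (b + e)) ^ 2)
  refine Eq.trans ?_ h.symm
  congr 1
  refine List.map_congr_left fun e _ => ?_
  simp only [Function.comp_apply, eval_sq', eval_sb, Tm.eval]

theorem eval_tdB (b : ℕ) (l : Fin (pN p)) : (tdB p b l).eval X =
    dbt (pD p) (fun l : Fin (pN p) => X l) (fun l : Fin (pN p) => X (b + l)) l := by
  unfold tdB dbt
  rw [eval_sb, eval_tdH, eval_tW, eval_db, Tm.eval]
  ring

theorem eval_tZZ (b : ℕ) : (tZZ p b).eval X =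
    ∑ a, zt (pD p) (fun l : Fin (pN p) => X (b + l)) a ^ 2 := by
  unfold tZZ
  rw [eval_sumT, List.map_map]
  have h := sum_range_J (pN p) (fun a => (tZ p b a).eval X ^ 2)
  simp only [eval_tZ] at h
  rw [← h]
  congr 1
  refine List.map_congr_left fun e _ => ?_
  simp only [Function.comp_apply, eval_sq']

theorem sum3 (f : ℕ → ℕ → ℕ → Tm) : (sumT ((List.range (pN p + 2)).map fun a1 =>
    sumT ((List.range (pN p + 2)).map fun a2 => sumT ((List.range (pN p + 2)).map fun a3 =>
      f a1 a2 a3)))).eval X = ∑ t : T3 (pN p), (f (jx t.1) (jx t.2.1) (jx t.2.2)).eval X := by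
  have h : ∀ g : ℕ → Tm, (sumT ((List.range (pN p + 2)).map g)).eval X =
      ∑ a : J (pN p), (g (jx a)).eval X := by
    intro g
    rw [eval_sumT, List.map_map, ← sum_range_J (pN p) (fun a => (g a).eval X)]
    rfl
  rw [h, Fintype.sum_prod_type]
  refine Finset.sum_congr rfl fun a _ => ?_
  rw [h, Fintype.sum_prod_type]
  refine Finset.sum_congr rfl fun b _ => ?_
  rw [h]

theorem eval_tM (b : ℕ) : (tM p b).eval X =
    Mf (pD p) (PX p X) (fun l : Fin (pN p) => X (b + l)) := by
  unfold tM Mf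
  rw [Tm.eval, sum3, Tm.eval, eval_nm, eval_sq', eval_tZZ]
  congr 1
  refine Finset.sum_congr rfl fun t _ => ?_
  simp only [Tm.eval, eval_tth, eval_tZ]
  rfl

theorem eval_tdM (b : ℕ) (l : Fin (pN p)) : (tdM p b l).eval X =
    dM (pD p) (PX p X) (fun l : Fin (pN p) => X (b + l)) l := by
  unfold tdM dM
  rw [Tm.eval, sum3, Tm.eval, Tm.eval, eval_nm, eval_db, eval_tZZ]
  congr 1
  · congr 2
    rw [eval_sumT, List.map_map]
    have h := sum_range_J (pN p) (fun a => 2 * ((tZ p b a).eval X * (tdZ p b l a).eval X))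
    simp only [eval_tZ, eval_tdZ] at h
    rw [← h]
    congr 1
    refine List.map_congr_left fun e _ => ?_
    simp only [Function.comp_apply, eval_db, Tm.eval]
  · refine Finset.sum_congr rfl fun t _ => ?_
    simp only [Tm.eval, eval_tth, eval_tZ, eval_tdZ]
    rfl

theorem eval_tN : (tN p).eval X = nf (PX p X) (fun l : Fin (pN p) => X l) := by
  unfold tN nf
  simp only [Tm.eval, eval_nm, eval_sq', eval_tq1, eval_tth]
  congr 1
  · simp
  · congr 1
    rw [eval_sumT, List.map_map]
    have h := sum_range_fin (pN p)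
      (fun l => X (pN p + 1 + pe p * ((pN p + 2) ^ 3 + 1 + l + 1)) * X l)
    refine Eq.trans ?_ h
    rfl

theorem eval_tdN (l : Fin (pN p)) : (tdN p l).eval X =
    dn (PX p X) (fun l : Fin (pN p) => X l) l := by
  unfold tdN dn
  simp only [Tm.eval, eval_nm, eval_tq1, eval_tth]
  congr 1
  simp

theorem eval_tF (b u : ℕ) (hu : X u = q1 (fun l : Fin (pN p) => X (b + l)) ^ (pD p).K) :
    (tF p b u).eval X = fi (pD p) (PX p X) (εX p X) (fun l : Fin (pN p) => X l)
      (fun l : Fin (pN p) => X (b + l)) := by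
  unfold tF fi
  simp only [Tm.eval, eval_tM, eval_tB, hu]

end

end Pool.Agent.U7.Iso
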