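import Mathlib
import Pool.Agent.U7.Iso.Build

/-!
# The meaning of the formulas of the reduction
-/

set_option autoImplicit false
set_option linter.unusedSimpArgs false

namespace Pool.Agent.U7.Iso

open Finset Pool.Agent.NPC Pool.Agent.NPC.ER Pool.Agent.H612 Pool.Agent.NPC.H612
  Pool.Agent.R537.RN

theorem holds_chn (b k : ℕ) (X : ℕ → ℝ) :
    (∀ φ ∈ chn b k, φ.Holds X) ↔ ∀ j ≤ k, X (b + j) = X b ^ (2 ^ j) := by
  have h1 : (∀ φ ∈ chn b k, φ.Holds X) ↔ ∀ j < k, X (b + j + 1) = X (b + j) ^ 2 := by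
    unfold chn
    simp only [List.mem_map, List.mem_range, forall_exists_index, and_imp,
      forall_apply_eq_imp_iff₂, Fm.Holds, Tm.eval, eval_sq']
  rw [h1]
  constructor
  · intro h j
    induction j with
    | zero => intro _; simp
    | succ j ih =>
      intro hj
      rw [← add_assoc, h j (by omega), ih (by omega), ← pow_mul, pow_succ]
  · intro h j hj
    rw [add_assoc, h (j + 1) (by omega), h j (by omega), ← pow_mul, pow_succ]

theorem holds_dch (b k : ℕ) (X : ℕ → ℝ) :
    (∀ φ ∈ dch b k, φ.Holds X) ↔ ∀ j ≤ k, X (b + j) = 2 ^ j * X b := by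
  have h1 : (∀ φ ∈ dch b k, φ.Holds X) ↔ ∀ j < k, X (b + j + 1) = 2 * X (b + j) := by
    unfold dch
    simp only [List.mem_map, List.mem_range, forall_exists_index, and_imp,
      forall_apply_eq_imp_iff₂, Fm.Holds, Tm.eval, eval_db]
  rw [h1]
  constructor
  · intro h j
    induction j with
    | zero => intro _; simp
    | succ j ih =>
      intro hj
      rw [← add_assoc, h j (by omega), ih (by omega), pow_succ]
      ring
  · intro h j hj
    rw [add_assoc, h (j + 1) (by omega), h j (by omega), pow_succ]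
    ring

section

variable (p : List ℕ × Fm)

/-- The parameters. -/
noncomputable def fth (j : Pm (pN p) ⊕ Bool) : ℝ := th (pe p) (rk j)

/-- The constants. -/
def KX (X : ℕ → ℝ) : Prop :=
  (∀ j ≤ pJ p, X (pN p + 1 + j) = (1 / 2) ^ (2 ^ j)) ∧ ∀ j ≤ pk p + 1, X (oD p + j) = 2 ^ j

variable (X : ℕ → ℝ)

theorem holds_fK : (∀ φ ∈ fK p, φ.Holds X) ↔ KX p X := by
  have h1 : (∀ φ ∈ fK p, φ.Holds X) ↔ (2 * X (pN p + 1) = 1 ∧
      (∀ φ ∈ chn (pN p + 1) (pJ p), φ.Holds X) ∧ X (oD p) = 1 ∧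
      ∀ φ ∈ dch (oD p) (pk p + 1), φ.Holds X) := by
    unfold fK
    simp only [List.mem_cons, List.mem_append, or_imp, forall_and, forall_eq, Fm.Holds, eval_db,
      Tm.eval]
  rw [h1, holds_chn, holds_dch]
  constructor
  · rintro ⟨h2, h3, h4, h5⟩
    have h6 : X (pN p + 1) = 1 / 2 := by linarith
    rw [h6] at h3
    refine ⟨h3, fun j hj => ?_⟩
    rw [h5 j hj, h4, mul_one]
  · rintro ⟨h2, h3⟩
    have h4 : X (pN p + 1) = 1 / 2 := by
      have := h2 0 (by omega)
      simpa using this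
    have h5 : X (oD p) = 1 := by
      have := h3 0 (by omega)
      simpa using this
    refine ⟨by rw [h4]; norm_num, ?_, h5, ?_⟩
    · rw [h4]; exact h2
    · rw [h5]; intro j hj; rw [h3 j hj, mul_one]

theorem holds_fU (b : ℕ) : (∀ φ ∈ fU p b, φ.Holds X) ↔
    ∀ j ≤ pk p, X (b + pN p + j) = q1 (fun l : Fin (pN p) => X (b + l)) ^ (2 ^ j) := by
  unfold fU
  simp only [List.mem_cons, or_imp, forall_and, forall_eq]
  rw [holds_chn]
  simp only [Fm.Holds, Tm.eval, eval_tq1]
  constructor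
  · rintro ⟨h1, h2⟩ j hj
    rw [h2 j hj, h1]
  · intro h
    have h0 : X (b + pN p) = q1 (fun l : Fin (pN p) => X (b + l)) := by
      have := h 0 (by omega)
      simpa using this
    refine ⟨h0, fun j hj => ?_⟩
    rw [h0]; exact h j hj

variable {X}

theorem th_of (hX : KX p X) {m : ℕ} (hm : m ≤ (pN p + 2) ^ 3 + pN p + 2) :
    X (pN p + 1 + pe p * (m + 1)) = th (pe p) m := by
  have h1 : pe p * (m + 1) ≤ pJ p := by
    unfold pJ
    exact Nat.mul_le_mul_left _ (by omega)
  exact hX.1 _ h1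

theorem rk_le (q : Pm (pN p)) :
    rk (Sum.inl q : Pm (pN p) ⊕ Bool) ≤ (pN p + 2) ^ 3 + pN p + 2 := by
  have h1 := rk_lt1 q
  simp only [rk] at h1 ⊢
  omega

theorem PX_eq (hX : KX p X) : PX p X = fun q => fth p (Sum.inl q) := by
  funext q
  exact th_of p hX (rk_le p q)

theorem εX_eq (hX : KX p X) : εX p X = fth p (Sum.inr true) :=
  th_of p hX le_rfl

theorem pD_K' : (pD p).K = 2 ^ pk p := rfl

variable (X)

/-- The conditions of a used slot. -/
def UsX (i : ℕ) : Prop :=
  X (sl p i) = 1 ∧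
  (∀ j ≤ pk p, X (sl p i + 2 + pN p + j) =
    q1 (fun l : Fin (pN p) => X (sl p i + 2 + l)) ^ (2 ^ j)) ∧
  fi (pD p) (fun q => fth p (Sum.inl q)) (fth p (Sum.inr true)) (fun l : Fin (pN p) => X l)
    (fun l : Fin (pN p) => X (sl p i + 2 + l)) =
      X (pN p) * nf (fun q => fth p (Sum.inl q)) (fun l : Fin (pN p) => X l) ∧
  ∀ l, dfi (pD p) (fun q => fth p (Sum.inl q)) (fth p (Sum.inr true))
    (fun l : Fin (pN p) => X l) (fun l : Fin (pN p) => X (sl p i + 2 + l)) l = 0

variable {X}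

theorem holds_fUsed (hX : KX p X) (i : ℕ) : (fUsed p i).Holds X ↔ UsX p X i := by
  unfold fUsed UsX
  rw [holds_conj]
  simp only [List.mem_cons, List.mem_append, or_imp, forall_and, forall_eq]
  rw [holds_fU]
  refine and_congr (by simp [Fm.Holds, Tm.eval]) ?_
  refine and_congr_right fun hU => ?_
  have hu : X (sl p i + 2 + pN p + pk p) =
      q1 (fun l : Fin (pN p) => X (sl p i + 2 + l)) ^ (pD p).K := hU _ le_rfl
  refine and_congr ?_ ?_
  · rw [Fm.Holds, eval_tF p X _ _ hu, Tm.eval, eval_tN, Tm.eval, PX_eq p hX, εX_eq p hX]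
  · simp only [List.mem_map, List.mem_range, forall_exists_index, and_imp,
      forall_apply_eq_imp_iff₂]
    constructor
    · intro h l
      have h1 := h l.1 l.2
      simp only [Fm.Holds, Tm.eval, eval_tq1, eval_tB] at h1
      rw [eval_tdM p X _ l, eval_tM, eval_tdB p X _ l, PX_eq p hX, εX_eq p hX,
        hX.2 _ le_rfl] at h1
      unfold dfi
      rw [← h1, pD_K']
      push_cast
      ring
    · intro h l hl
      have h1 := h ⟨l, hl⟩
      have e1 := eval_tdM p X (sl p i + 2) ⟨l, hl⟩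
      have e2 := eval_tdB p X (sl p i + 2) ⟨l, hl⟩
      simp only [Fm.Holds, Tm.eval, eval_tq1, eval_tB, eval_tM]
      simp only at e1 e2
      rw [e1, e2, PX_eq p hX, εX_eq p hX, hX.2 _ le_rfl]
      unfold dfi at h1
      rw [← h1, pD_K']
      push_cast
      ring

theorem holds_fUnused (X : ℕ → ℝ) (i : ℕ) :
    (fUnused p i).Holds X ↔ ∀ j < ws p, X (sl p i + j) = 0 := by
  unfold fUnused
  rw [holds_conj]
  simp only [List.mem_map, List.mem_range, forall_exists_index, and_imp,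
      forall_apply_eq_imp_iff₂, Fm.Holds, Tm.eval]

variable (X)

/-- The conditions of the maximiser. -/
def XX : Prop :=
  ∑ i : Fin (pN p + 1), X (sl p i + 1) * bt (pD p) (fth p (Sum.inr true))
    (fun l : Fin (pN p) => X l) (fun l : Fin (pN p) => X (sl p i + 2 + l)) =
      nf (fun q => fth p (Sum.inl q)) (fun l : Fin (pN p) => X l) ∧
  ∀ l : Fin (pN p), 2 * ∑ i : Fin (pN p + 1), X (sl p i + 1) * (((pD p).w l : ℝ) *
    (X l - X (sl p i + 2 + l))) = dn (fun q => fth p (Sum.inl q)) (fun l : Fin (pN p) => X l) l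

variable {X}

theorem sum_tm (k : ℕ) (f : ℕ → Tm) (X : ℕ → ℝ) :
    (sumT ((List.range k).map f)).eval X = ∑ i : Fin k, (f i).eval X := by
  rw [eval_sumT, List.map_map, ← sum_range_fin k (fun i => (f i).eval X)]
  rfl

theorem holds_fX (hX : KX p X) : (∀ φ ∈ fX p, φ.Holds X) ↔ XX p X := by
  unfold fX XX
  simp only [List.mem_cons, or_imp, forall_and, forall_eq]
  refine and_congr ?_ ?_
  · rw [Fm.Holds, sum_tm, eval_tN, PX_eq p hX]
    simp only [Tm.eval, eval_tB]
    rw [εX_eq p hX]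
  · simp only [List.mem_map, List.mem_range, forall_exists_index, and_imp,
      forall_apply_eq_imp_iff₂]
    have key : ∀ l : Fin (pN p), (Fm.eq (db (sumT ((List.range (pN p + 1)).map fun i =>
        Tm.mul (Tm.var (sl p i + 1)) (tW p l (sb (Tm.var l) (Tm.var (sl p i + 2 + l)))))))
        (tdN p l)).Holds X ↔ 2 * ∑ i : Fin (pN p + 1), X (sl p i + 1) * (((pD p).w l : ℝ) *
        (X l - X (sl p i + 2 + l))) = dn (fun q => fth p (Sum.inl q))
          (fun l : Fin (pN p) => X l) l := by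
      intro l
      rw [Fm.Holds, eval_db, sum_tm, eval_tdN, PX_eq p hX]
      simp only [Tm.eval, eval_tW, eval_sb]
    constructor
    · intro h l
      exact (key l).1 (h l.1 l.2)
    · intro h l hl
      exact (key ⟨l, hl⟩).2 (h ⟨l, hl⟩)

variable (X)

/-- The critical points. -/
def CX : Prop :=
  KX p X ∧ XX p X ∧ ∀ i ≤ pN p, UsX p X i ∨ ∀ j < ws p, X (sl p i + j) = 0

/-- The bad points. -/
def BX : Prop :=
  (∀ j ≤ pk p, X (nP p + pN p + j) = q1 (fun l : Fin (pN p) => X (nP p + l)) ^ (2 ^ j)) ∧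
  fi (pD p) (fun q => fth p (Sum.inl q)) (fth p (Sum.inr true)) (fun l : Fin (pN p) => X l)
    (fun l : Fin (pN p) => X (nP p + l)) ≤
      fth p (Sum.inr false) * nf (fun q => fth p (Sum.inl q)) (fun l : Fin (pN p) => X l)

theorem holds_fC : (fC p).Holds X ↔ CX p X := by
  unfold fC CX
  rw [holds_conj]
  simp only [List.mem_append, or_imp, forall_and]
  rw [holds_fK]
  refine and_congr_right fun hX => ?_
  rw [holds_fX p hX]
  refine and_congr_right fun _ => ?_
  simp only [List.mem_map, List.mem_range, forall_exists_index, and_imp,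
      forall_apply_eq_imp_iff₂, Fm.Holds, holds_fUsed p hX, holds_fUnused, Nat.lt_succ_iff]

variable {X}

theorem holds_fB (hX : KX p X) : (fB p).Holds X ↔ BX p X := by
  unfold fB BX
  rw [holds_conj]
  simp only [List.mem_append, or_imp, forall_and, List.mem_singleton, forall_eq]
  rw [holds_fU]
  refine and_congr_right fun hU => ?_
  have hu : X (nP p + pN p + pk p) =
      q1 (fun l : Fin (pN p) => X (nP p + l)) ^ (pD p).K := hU _ le_rfl
  rw [Fm.Holds, eval_tF p X _ _ hu, Tm.eval, eval_tN, PX_eq p hX, εX_eq p hX, eval_tth,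
    th_of p hX (by omega)]
  rfl

theorem sl_lt {i j : ℕ} (hi : i ≤ pN p) (hj : j < ws p) : sl p i + j < nP p := by
  unfold sl nP
  have : i * ws p + ws p ≤ (pN p + 1) * ws p := by
    rw [← Nat.succ_mul]
    exact Nat.mul_le_mul_right _ (by omega)
  omega

theorem ws_eq : ws p = pN p + pk p + 3 := rfl

/-- Only the main coordinates matter. -/
theorem CX_congr {Y : ℕ → ℝ} (h : ∀ i < nP p, X i = Y i) (hX : CX p X) : CX p Y := by
  have hoS : oS p ≤ nP p := Nat.le_add_right _ _
  have e1 : ∀ l : Fin (pN p), Y l = X l := fun l => (h l (by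
    have := l.2
    unfold oS oD at hoS
    omega)).symm
  have e2 : ∀ i : ℕ, i ≤ pN p → ∀ j < ws p, Y (sl p i + j) = X (sl p i + j) := fun i hi j hj =>
    (h _ (sl_lt p hi hj)).symm
  have e3 : (fun l : Fin (pN p) => Y l) = fun l : Fin (pN p) => X l := funext e1
  have e4 : ∀ i : ℕ, i ≤ pN p → ∀ l : Fin (pN p), Y (sl p i + 2 + l) = X (sl p i + 2 + l) := by
    intro i hi l
    rw [add_assoc]
    exact e2 i hi _ (by have := l.2; rw [ws_eq]; omega)
  have e5 : ∀ i : ℕ, i ≤ pN p → (fun l : Fin (pN p) => Y (sl p i + 2 + l)) =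
      fun l : Fin (pN p) => X (sl p i + 2 + l) := fun i hi => funext (e4 i hi)
  have e6 : Y (pN p) = X (pN p) := (h _ (by unfold oS oD at hoS; omega)).symm
  obtain ⟨⟨h1, h2⟩, ⟨h3, h4⟩, h5⟩ := hX
  refine ⟨⟨fun j hj => ?_, fun j hj => ?_⟩, ⟨?_, fun l => ?_⟩, fun i hi => ?_⟩
  · rw [← h1 j hj, h]
    unfold oS oD at hoS; omega
  · rw [← h2 j hj, h]
    unfold oS at hoS; omega
  · rw [e3, ← h3]
    refine Finset.sum_congr rfl fun i _ => ?_
    rw [e5 i (by omega), e2 i (by omega) 1 (by rw [ws_eq]; omega)]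
  · rw [e3, ← h4 l]
    congr 1
    refine Finset.sum_congr rfl fun i _ => ?_
    rw [e4 i (by omega), e2 i (by omega) 1 (by rw [ws_eq]; omega), e1]
  · rcases h5 i hi with ⟨g1, g2, g3, g4⟩ | h6
    · left
      unfold UsX
      rw [e5 i hi, e3, e6]
      refine ⟨?_, fun j hj => ?_, g3, g4⟩
      · have := e2 i hi 0 (by rw [ws_eq]; omega)
        rw [add_zero] at this
        rw [this, g1]
      · rw [← g2 j hj, show sl p i + 2 + pN p + j = sl p i + (2 + pN p + j) by ring]
        exact e2 i hi _ (by rw [ws_eq]; omega)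
    · right
      intro j hj
      rw [e2 i hi j hj, h6 j hj]

theorem sep_fth : ∃ L B, Bds (pD p) (bs (pN p) (pS p).length (pE p).length (2 ^ pk p)) L B rk ∧
    Sep rk L B (fth p) := by
  obtain ⟨L, B, H, h1, h2, h3⟩ := exists_bds (plo p) (pS p) (pE p) (pk p)
  refine ⟨L, B, h1, sep_th rk rk_inj L B H (pe p) h2 ?_ h3⟩
  unfold pe eE
  omega

end

end Pool.Agent.U7.Iso
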