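import Mathlib
import Pool.Agent.U7.Iso.Sem

/-!
# Correctness of the reduction
-/

set_option autoImplicit false
set_option linter.unusedSimpArgs false

namespace Pool.Agent.U7.Iso

open Finset Pool.Agent.NPC Pool.Agent.NPC.ER Pool.Agent.H612 Pool.Agent.NPC.H612
  Pool.Agent.R537.RN

section

variable (p : List ℕ × Fm)

/-- The point `X` encodes the solution `Z`. -/
structure Pt (r : ℕ) (Z : Un r (pN p) → ℝ) (X : ℕ → ℝ) : Prop where
  x : ∀ l : Fin (pN p), X l = Z (none, some l)
  m : X (pN p) = Z (none, none)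
  k : KX p X
  u : ∀ i : Fin r, X (sl p i) = 1 ∧ X (sl p i + 1) = Z (some i, none) ∧
    (∀ l : Fin (pN p), X (sl p i + 2 + l) = Z (some i, some l)) ∧
    ∀ j ≤ pk p, X (sl p i + 2 + pN p + j) = q1 (fun l : Fin (pN p) => Z (some i, some l)) ^ (2 ^ j)
  n : ∀ i, r ≤ i → i ≤ pN p → ∀ j < ws p, X (sl p i + j) = 0
  z : ∀ i, nP p ≤ i → X i = 0

theorem sum_fin_le {r n : ℕ} (hr : r ≤ n) (g : ℕ → ℝ) (hg : ∀ i, r ≤ i → i < n → g i = 0) :
    ∑ i : Fin n, g i = ∑ i : Fin r, g i := by
  rw [← Finset.sum_range g, ← Finset.sum_range g]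
  symm
  refine Finset.sum_subset (fun i hi => ?_) fun i hi hi' => ?_
  · rw [Finset.mem_range] at hi ⊢; omega
  · rw [Finset.mem_range] at hi hi'
    exact hg i (by omega) hi

variable {p}

theorem Pt.iff {r : ℕ} (hr : r ≤ pN p + 1) {Z : Un r (pN p) → ℝ} {X : ℕ → ℝ} (h : Pt p r Z X) :
    CX p X ↔ ∀ e, Sys (pD p) Z (fun q => fth p (Sum.inl q)) (fth p (Sum.inr true)) e = 0 := by
  have hx : (fun l : Fin (pN p) => X l) = fun l => Z (none, some l) := funext h.x
  have hv : ∀ i : Fin r, (fun l : Fin (pN p) => X (sl p i + 2 + l)) =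
      fun l => Z (some i, some l) := fun i => funext (h.u i).2.2.1
  have hz : ∀ i, r ≤ i → i < pN p + 1 → X (sl p i + 1) = 0 := fun i h1 h2 =>
    h.n i h1 (by omega) 1 (by rw [ws_eq]; omega)
  have e1 : ∑ i : Fin (pN p + 1), X (sl p i + 1) * bt (pD p) (fth p (Sum.inr true))
      (fun l : Fin (pN p) => X l) (fun l : Fin (pN p) => X (sl p i + 2 + l)) =
      ∑ i : Fin r, Z (some i, none) * bt (pD p) (fth p (Sum.inr true))
        (fun l => Z (none, some l)) (fun l => Z (some i, some l)) := by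
    rw [sum_fin_le hr (fun i => X (sl p i + 1) * bt (pD p) (fth p (Sum.inr true))
      (fun l : Fin (pN p) => X l) (fun l : Fin (pN p) => X (sl p i + 2 + l))) fun i h1 h2 => by
        simp only [hz i h1 h2, zero_mul]]
    refine Finset.sum_congr rfl fun i _ => ?_
    rw [(h.u i).2.1, hx, hv]
  have e2 : ∀ l : Fin (pN p), ∑ i : Fin (pN p + 1), X (sl p i + 1) * (((pD p).w l : ℝ) *
      (X l - X (sl p i + 2 + l))) = ∑ i : Fin r, Z (some i, none) * (((pD p).w l : ℝ) *
      (Z (none, some l) - Z (some i, some l))) := by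
    intro l
    rw [sum_fin_le hr (fun i => X (sl p i + 1) * (((pD p).w l : ℝ) *
      (X l - X (sl p i + 2 + l)))) fun i h1 h2 => by simp only [hz i h1 h2, zero_mul]]
    refine Finset.sum_congr rfl fun i _ => ?_
    rw [(h.u i).2.1, h.x, (h.u i).2.2.1]
  unfold CX XX
  rw [e1]
  simp only [e2]
  rw [hx]
  have e3 : ∀ i : Fin r, UsX p X i ↔
      (Sys (pD p) Z (fun q => fth p (Sum.inl q)) (fth p (Sum.inr true)) (some i, none) = 0 ∧
      ∀ l, Sys (pD p) Z (fun q => fth p (Sum.inl q)) (fth p (Sum.inr true)) (some i, some l) = 0) := by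
    intro i
    unfold UsX
    rw [hv i, hx, h.m]
    simp only [Sys]
    constructor
    · rintro ⟨_, _, h1, h2⟩
      exact ⟨by rw [h1, sub_self], h2⟩
    · rintro ⟨h1, h2⟩
      exact ⟨(h.u i).1, (h.u i).2.2.2, by linarith, h2⟩
  constructor
  · rintro ⟨_, ⟨h2, h3⟩, h4⟩
    have h5 : ∀ i : Fin r, UsX p X i := fun i => by
      rcases h4 i (by omega) with h5 | h5
      · exact h5
      · exfalso
        have h6 := h5 0 (by rw [ws_eq]; omega)
        rw [add_zero, (h.u i).1] at h6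
        exact one_ne_zero h6
    rintro ⟨_ | i, _ | l⟩
    · simp only [Sys]; rw [h2, sub_self]
    · simp only [Sys]; rw [h3 l, sub_self]
    · exact ((e3 i).1 (h5 i)).1
    · exact ((e3 i).1 (h5 i)).2 l
  · intro hS
    refine ⟨h.k, ⟨?_, fun l => ?_⟩, fun i hi => ?_⟩
    · have := hS (none, none)
      simp only [Sys] at this
      linarith
    · have := hS (none, some l)
      simp only [Sys] at this
      linarith
    · by_cases hir : i < r
      · left
        exact (e3 ⟨i, hir⟩).2 ⟨hS _, fun l => hS _⟩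
      · right
        exact h.n i (by omega) hi

/-- A decomposition of the places. -/
theorem cases_place (i : ℕ) : i < pN p ∨ i = pN p ∨ (∃ j ≤ pJ p, i = pN p + 1 + j) ∨
    (∃ j ≤ pk p + 1, i = oD p + j) ∨ (∃ s ≤ pN p, i = sl p s) ∨ (∃ s ≤ pN p, i = sl p s + 1) ∨
    (∃ s ≤ pN p, ∃ l : Fin (pN p), i = sl p s + 2 + l) ∨
    (∃ s ≤ pN p, ∃ j ≤ pk p, i = sl p s + 2 + pN p + j) ∨ nP p ≤ i := by
  by_cases h1 : i < pN p
  · exact Or.inl h1
  by_cases h2 : i = pN p
  · exact Or.inr (Or.inl h2)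
  by_cases h3 : i < oD p
  · refine Or.inr (Or.inr (Or.inl ⟨i - (pN p + 1), ?_, ?_⟩))
    · unfold oD at h3; omega
    · omega
  by_cases h4 : i < oS p
  · refine Or.inr (Or.inr (Or.inr (Or.inl ⟨i - oD p, ?_, ?_⟩)))
    · unfold oS at h4; omega
    · omega
  by_cases h5 : nP p ≤ i
  · simp [h5]
  have hw : 0 < ws p := by rw [ws_eq]; omega
  obtain ⟨s, hs⟩ : ∃ s, s = (i - oS p) / ws p := ⟨_, rfl⟩
  obtain ⟨t, ht⟩ : ∃ t, t = (i - oS p) % ws p := ⟨_, rfl⟩
  have ht' : t < ws p := by rw [ht]; exact Nat.mod_lt _ hw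
  have hst : i - oS p = s * ws p + t := by
    rw [hs, ht, mul_comm]; exact (Nat.div_add_mod _ _).symm
  have hi : i = sl p s + t := by unfold sl; omega
  have hsN : s ≤ pN p := by
    by_contra hcon
    have h6 : (pN p + 1) * ws p ≤ s * ws p := Nat.mul_le_mul_right _ (by omega)
    unfold nP at h5
    omega
  rw [ws_eq] at ht'
  by_cases t0 : t = 0
  · exact Or.inr (Or.inr (Or.inr (Or.inr (Or.inl ⟨s, hsN, by omega⟩))))
  by_cases t1 : t = 1
  · exact Or.inr (Or.inr (Or.inr (Or.inr (Or.inr (Or.inl ⟨s, hsN, by omega⟩)))))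
  by_cases t2 : t < pN p + 2
  · exact Or.inr (Or.inr (Or.inr (Or.inr (Or.inr (Or.inr (Or.inl
      ⟨s, hsN, ⟨t - 2, by omega⟩, by simp only; omega⟩))))))
  · exact Or.inr (Or.inr (Or.inr (Or.inr (Or.inr (Or.inr (Or.inr (Or.inl
      ⟨s, hsN, t - 2 - pN p, by omega, by omega⟩)))))))

theorem Pt.uniq {r : ℕ} {Z : Un r (pN p) → ℝ} {X Y : ℕ → ℝ}
    (h : Pt p r Z X) (h' : Pt p r Z Y) (i : ℕ) : X i = Y i := by
  have key : ∀ s, r ≤ s → s ≤ pN p → ∀ j < ws p, X (sl p s + j) = Y (sl p s + j) :=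
    fun s h1 h2 j hj => by rw [h.n s h1 h2 j hj, h'.n s h1 h2 j hj]
  rcases cases_place (p := p) i with h1 | rfl | ⟨j, hj, rfl⟩ | ⟨j, hj, rfl⟩ | ⟨s, hs, rfl⟩ |
    ⟨s, hs, rfl⟩ | ⟨s, hs, l, rfl⟩ | ⟨s, hs, j, hj, rfl⟩ | h1
  · exact (h.x ⟨i, h1⟩).trans (h'.x ⟨i, h1⟩).symm
  · rw [h.m, h'.m]
  · rw [h.k.1 j hj, h'.k.1 j hj]
  · rw [h.k.2 j hj, h'.k.2 j hj]
  · by_cases hsr : s < r
    · exact ((h.u ⟨s, hsr⟩).1).trans ((h'.u ⟨s, hsr⟩).1).symm
    · exact key s (by omega) hs 0 (by rw [ws_eq]; omega)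
  · by_cases hsr : s < r
    · exact ((h.u ⟨s, hsr⟩).2.1).trans ((h'.u ⟨s, hsr⟩).2.1).symm
    · exact key s (by omega) hs 1 (by rw [ws_eq]; omega)
  · by_cases hsr : s < r
    · exact ((h.u ⟨s, hsr⟩).2.2.1 l).trans ((h'.u ⟨s, hsr⟩).2.2.1 l).symm
    · rw [add_assoc]
      exact key s (by omega) hs _ (by have := l.2; rw [ws_eq]; omega)
  · by_cases hsr : s < r
    · exact ((h.u ⟨s, hsr⟩).2.2.2 j hj).trans ((h'.u ⟨s, hsr⟩).2.2.2 j hj).symm
    · rw [show sl p s + 2 + pN p + j = sl p s + (2 + pN p + j) by ring]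
      exact key s (by omega) hs _ (by rw [ws_eq]; omega)
  · rw [h.z i h1, h'.z i h1]

theorem Pt.exists {r : ℕ} (hr : r ≤ pN p + 1) (Z : Un r (pN p) → ℝ) : ∃ X, Pt p r Z X := by
  classical
  have hw : 0 < ws p := by rw [ws_eq]; omega
  obtain ⟨W, hW⟩ : ∃ W : ℕ → ℕ → ℝ, ∀ s t, W s t = if h : s < r then
      (if t = 0 then 1 else if t = 1 then Z (some ⟨s, h⟩, none) else
        if h2 : t - 2 < pN p then Z (some ⟨s, h⟩, some ⟨t - 2, h2⟩) else
          q1 (fun l : Fin (pN p) => Z (some ⟨s, h⟩, some l)) ^ (2 ^ (t - 2 - pN p)))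
      else 0 := ⟨_, fun _ _ => rfl⟩
  obtain ⟨X, hX⟩ : ∃ X : ℕ → ℝ, ∀ i, X i = if h : i < pN p then Z (none, some ⟨i, h⟩) else
      if i = pN p then Z (none, none) else
      if i < oD p then (1 / 2) ^ (2 ^ (i - (pN p + 1))) else
      if i < oS p then 2 ^ (i - oD p) else
      if nP p ≤ i then 0 else W ((i - oS p) / ws p) ((i - oS p) % ws p) := ⟨_, fun _ => rfl⟩
  have hoS : oS p ≤ nP p := Nat.le_add_right _ _
  have hoD : oD p ≤ oS p := Nat.le_add_right _ _
  have hoN : pN p + 1 ≤ oD p := Nat.le_add_right _ _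
  have key : ∀ s ≤ pN p, ∀ t < ws p, X (sl p s + t) = W s t := by
    intro s hs t ht
    have h1 := sl_lt p hs ht
    have h2 : sl p s + t - oS p = t + s * ws p := by unfold sl; omega
    have h3 : oS p ≤ sl p s + t := by unfold sl; omega
    rw [hX, dif_neg (by omega), if_neg (by omega), if_neg (by omega), if_neg (by omega),
      if_neg (by omega), h2]
    congr 1
    · rw [Nat.add_mul_div_right _ _ hw, Nat.div_eq_of_lt ht, zero_add]
    · rw [Nat.add_mul_mod_self_right, Nat.mod_eq_of_lt ht]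
  refine ⟨X, ?_, ?_, ⟨?_, ?_⟩, ?_, ?_, ?_⟩
  · intro l
    rw [hX, dif_pos l.2]
  · rw [hX, dif_neg (lt_irrefl _), if_pos rfl]
  · intro j hj
    rw [hX, dif_neg (by omega), if_neg (by omega), if_pos (by unfold oD; omega)]
    congr 2
    omega
  · intro j hj
    rw [hX, dif_neg (by omega), if_neg (by omega), if_neg (by omega),
      if_pos (by unfold oS; omega)]
    congr 1
    omega
  · intro i
    have hi : (i : ℕ) ≤ pN p := by omega
    refine ⟨?_, ?_, fun l => ?_, fun j hj => ?_⟩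
    · have := key i hi 0 hw
      rw [add_zero] at this
      rw [this, hW, dif_pos i.2, if_pos rfl]
    · rw [key i hi 1 (by rw [ws_eq]; omega), hW, dif_pos i.2, if_neg (by omega), if_pos rfl]
    · have hl := l.2
      rw [add_assoc, key i hi _ (by rw [ws_eq]; omega), hW, dif_pos i.2, if_neg (by omega),
        if_neg (by omega), dif_pos (by omega)]
      congr 3
      exact Fin.ext (by simp)
    · rw [show sl p i + 2 + pN p + j = sl p i + (2 + pN p + j) by ring,
        key i hi _ (by rw [ws_eq]; omega), hW, dif_pos i.2, if_neg (by omega),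
        if_neg (by omega), dif_neg (by omega)]
      congr 2
      omega
  · intro i h1 h2 j hj
    rw [key i h2 j hj, hW, dif_neg (by omega)]
  · intro i hi
    rw [hX, dif_neg (by omega), if_neg (by omega), if_neg (by omega), if_neg (by omega),
      if_pos hi]

/-- The solution read off a critical point. -/
def Zof (p : List ℕ × Fm) (r : ℕ) (X : ℕ → ℝ) : Un r (pN p) → ℝ
  | (none, none) => X (pN p)
  | (none, some l) => X l
  | (some i, none) => X (sl p i + 1)
  | (some i, some l) => X (sl p i + 2 + l)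

theorem pt_of {r : ℕ} (hr : r ≤ pN p + 1) {X : ℕ → ℝ} (h : CX p X)
    (hz : ∀ i, nP p ≤ i → X i = 0) (h1 : ∀ i < r, X (sl p i) ≠ 0)
    (h2 : ∀ i, r ≤ i → i ≤ pN p → X (sl p i) = 0) : Pt p r (Zof p r X) X := by
  obtain ⟨hk, _, hu⟩ := h
  refine ⟨fun _ => rfl, rfl, hk, fun i => ?_, fun i hi hiN => ?_, hz⟩
  · rcases hu i (by omega) with h3 | h3
    · exact ⟨h3.1, rfl, fun _ => rfl, h3.2.1⟩
    · exfalso
      have := h3 0 (by rw [ws_eq]; omega)
      rw [add_zero] at this
      exact h1 i i.2 this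
  · rcases hu i hiN with h3 | h3
    · exfalso
      have := h2 i hi hiN
      rw [h3.1] at this
      exact one_ne_zero this
    · exact h3

theorem pD_G : ∀ v : Fin (pN p) → ℝ, 0 ≤ gv (pD p) v := fun v => gv_nonneg _ _ _ _ v

/-- **Correctness of the reduction.** -/
theorem inst_iff (p : List ℕ × Fm) : EAR p ↔ IsoN (cdim (nP p) (fB p)) (fT p) := by
  obtain ⟨L, B, hb, hsep⟩ := sep_fth p
  have hloc : ∀ x y : ℕ → ℝ, (∀ i < nP p, x i = y i) → (fC p).Holds x → (fC p).Holds y := by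
    intro x y hxy hx
    rw [holds_fC] at hx ⊢
    exact CX_congr p hxy hx
  rw [fT, cone_iff _ _ _ hloc]
  have hNP : pN p < nP p := by
    have h1 : oS p ≤ nP p := Nat.le_add_right _ _
    unfold oS oD at h1
    omega
  constructor
  · intro h
    rw [ear_iff_game] at h
    obtain ⟨x0, hx0⟩ := h
    obtain ⟨c, hc0, hc⟩ := loj_mkD (plo p) (pS p) (pE p) (pE_lt p) (2 ^ pk p) rfl x0 hx0
    obtain ⟨r, hr, Z, hZ, hgood, δ, hδ, hiso⟩ := main_yes (D := pD p) hb pD_G (pD_K p) hsep hc0 hc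
    obtain ⟨X, hX⟩ := Pt.exists hr Z
    refine ⟨X, hX.z, ?_, ⟨min δ 1, lt_min hδ one_pos, ?_⟩, ?_⟩
    · rw [holds_fC]
      exact (hX.iff hr).2 hZ
    · intro Y hY0 hY hclose i hi
      rw [holds_fC] at hY
      have hfl : ∀ s ≤ pN p, sl p s < nP p := fun s hs => by
        have := sl_lt p hs (j := 0) (by rw [ws_eq]; omega)
        omega
      have hval : ∀ s ≤ pN p, Y (sl p s) = 1 ∨ Y (sl p s) = 0 := by
        intro s hs
        rcases hY.2.2 s hs with h3 | h3
        · exact Or.inl h3.1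
        · right
          have := h3 0 (by rw [ws_eq]; omega)
          rwa [add_zero] at this
      have g1 : ∀ s < r, Y (sl p s) ≠ 0 := by
        intro s hs h0
        have h1 := hclose _ (hfl s (by omega))
        have h2 := (hX.u ⟨s, hs⟩).1
        simp only at h2
        rw [h0, h2] at h1
        norm_num at h1
      have g2 : ∀ s, r ≤ s → s ≤ pN p → Y (sl p s) = 0 := by
        intro s hs hsN
        rcases hval s hsN with h0 | h0
        · exfalso
          have h1 := hclose _ (hfl s hsN)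
          have h2 := hX.n s hs hsN 0 (by rw [ws_eq]; omega)
          rw [add_zero] at h2
          rw [h0, h2] at h1
          norm_num at h1
        · exact h0
      have hPY := pt_of hr hY hY0 g1 g2
      have hSY := (hPY.iff hr).1 hY
      have hZZ := hiso _ hSY fun u => by
        have hle : min δ 1 ≤ δ := min_le_left _ _
        rcases u with ⟨_ | s, _ | l⟩
        · simp only [Zof]; rw [← hX.m]
          exact lt_of_lt_of_le (hclose _ hNP) hle
        · simp only [Zof]; rw [← hX.x]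
          exact lt_of_lt_of_le (hclose _ (by omega)) hle
        · simp only [Zof]; rw [← (hX.u s).2.1]
          exact lt_of_lt_of_le (hclose _ (sl_lt p (by omega) (by rw [ws_eq]; omega))) hle
        · simp only [Zof]; rw [← (hX.u s).2.2.1]
          refine lt_of_lt_of_le (hclose _ ?_) hle
          rw [add_assoc]
          exact sl_lt p (by omega) (by have := l.2; rw [ws_eq]; omega)
      rw [hZZ] at hPY
      exact hPY.uniq hX i
    · intro z hz hψ
      have hCz : CX p z := CX_congr p (fun i hi => (hz i hi).symm) ((hX.iff hr).2 hZ)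
      rw [holds_fB p hCz.1] at hψ
      have h1 := hgood (fun l : Fin (pN p) => z (nP p + l))
      have h2 : (fun l : Fin (pN p) => z l) = fun l => Z (none, some l) := by
        funext l
        rw [hz _ (by have := l.2; omega), hX.x]
      have h3 := hψ.2
      rw [h2] at h3
      exact absurd h1 (not_lt.2 h3)
  · rintro ⟨X, hX0, hX, _, hgood⟩
    by_contra hno
    rw [ear_iff_game] at hno
    push Not at hno
    rw [holds_fC] at hX
    obtain ⟨v, hv⟩ := main_no (D := pD p) hb pD_G (pD_K p) hsep hno (fun l : Fin (pN p) => X l)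
    obtain ⟨z, hz⟩ : ∃ z : ℕ → ℝ, ∀ i, z i = if i < nP p then X i else
        if h : i - nP p < pN p then v ⟨i - nP p, h⟩ else q1 v ^ (2 ^ (i - nP p - pN p)) :=
      ⟨_, fun _ => rfl⟩
    have hzX : ∀ i < nP p, z i = X i := fun i hi => by rw [hz, if_pos hi]
    refine hgood z hzX ?_
    have hCz : CX p z := CX_congr p (fun i hi => (hzX i hi).symm) hX
    rw [holds_fB p hCz.1]
    have h1 : (fun l : Fin (pN p) => z (nP p + l)) = v := by
      funext l
      rw [hz, if_neg (by omega), dif_pos (by have := l.2; omega)]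
      congr 1
      exact Fin.ext (by simp)
    have h2 : (fun l : Fin (pN p) => z l) = fun l : Fin (pN p) => X l := by
      funext l
      exact hzX _ (by have := l.2; omega)
    unfold BX
    rw [h1, h2]
    refine ⟨fun j hj => ?_, hv⟩
    rw [hz, if_neg (by omega), dif_neg (by omega)]
    congr 2
    omega

end

end Pool.Agent.U7.Iso
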