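import Mathlib
import Pool.Agent.U7.Iso.Build
import Pool.Agent.H612.CollectPoly

/-!
# The reduction is computable in polynomial time
-/

set_option autoImplicit false
set_option linter.unusedSimpArgs false

namespace Pool.Agent.NPC.U7Iso

open Pool.Agent.NPC Pool.Agent.NPC.ER Pool.Agent.NPC.H612 Pool.Agent.U7.Iso
open Pool.Agent.R537.RN (kap Gx)

section

variable {α : Type} [TEnc α]

theorem poly_con_vars {f : α → ER.Con} (hf : Poly f) : Poly (fun a => (f a).vars) := by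
  have h0 : Poly (fun a => (f a).code) := poly_con_code hf
  have h1 : Poly (fun a => decide ((f a).code.1 = 0)) := Poly.decide_eq (Poly.fst h0) (Poly.const 0)
  have h : Poly (fun a => if (f a).code.1 = 0 then [(f a).code.2.1] else
      [(f a).code.2.1, (f a).code.2.2.1, (f a).code.2.2.2]) :=
    Poly.ite h1 (Poly.cons (Poly.fst (Poly.snd h0)) (Poly.const _))
      (Poly.cons (Poly.fst (Poly.snd h0)) (Poly.cons (Poly.fst (Poly.snd (Poly.snd h0)))
        (Poly.cons (Poly.snd (Poly.snd (Poly.snd h0))) (Poly.const _))))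
  refine h.congr fun a => ?_
  cases f a <;> simp [Con.code, Con.vars]

theorem poly_sq' {t : α → Tm} (ht : Poly t) : Poly (fun a => sq' (t a)) := poly_tmul ht ht

theorem poly_sb {s t : α → Tm} (hs : Poly s) (ht : Poly t) : Poly (fun a => sb (s a) (t a)) :=
  poly_tadd hs (poly_tneg ht)

theorem poly_db {t : α → Tm} (ht : Poly t) : Poly (fun a => db (t a)) := poly_tadd ht ht

theorem poly_nm {n : α → ℕ} (hn : Poly n) : Poly (fun a => nm (n a)) := poly_natT hn.natBits

theorem upoly_kap {N b : α → ℕ} (hN : UPoly N) (hb : UPoly b) :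
    UPoly (fun a => kap (N a) (b a)) :=
  UPoly.mul (UPoly.add (UPoly.add (UPoly.add hb (UPoly.const 4)) hN) (UPoly.const 4))
    (UPoly.add hN (UPoly.const 2))

theorem upoly_pow {n : α → ℕ} (hn : UPoly n) : ∀ k : ℕ, UPoly (fun a => n a ^ k)
  | 0 => (UPoly.const 1).congr fun a => by simp
  | k + 1 => (UPoly.mul (upoly_pow hn k) hn).congr fun a => by simp only [pow_succ]

theorem upoly_ea {N σ W κ : α → ℕ} (hN : UPoly N) (hσ : UPoly σ) (hW : UPoly W) (hκ : UPoly κ) :
    UPoly (fun a => ea (N a) (σ a) (W a) (κ a)) := by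
  unfold ea bA
  exact UPoly.add hκ (UPoly.add (UPoly.add (UPoly.const 12) (UPoly.mul (UPoly.const 7)
    (UPoly.add hN (UPoly.const 2)))) (UPoly.mul (UPoly.const 5) (UPoly.add (UPoly.add
      (UPoly.mul (UPoly.const 4) hW) (UPoly.mul (UPoly.const 144) hσ)) (UPoly.const 2))))

theorem upoly_eh {N σ W κ : α → ℕ} (hN : UPoly N) (hσ : UPoly σ) (hW : UPoly W) (hκ : UPoly κ) :
    UPoly (fun a => eh (N a) (σ a) (W a) (κ a)) := by
  unfold eh
  exact UPoly.add (UPoly.add (upoly_ea hN hσ hW hκ) (UPoly.mul (UPoly.const 4)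
    (UPoly.add hN (UPoly.const 2)))) (UPoly.const 2)

theorem upoly_eE {N σ W κ : α → ℕ} (hN : UPoly N) (hσ : UPoly σ) (hW : UPoly W) (hκ : UPoly κ) :
    UPoly (fun a => eE (N a) (σ a) (W a) (κ a)) := by
  unfold eE eL
  have h2 : UPoly (fun a => 4 * (N a + 2)) :=
    UPoly.mul (UPoly.const 4) (UPoly.add hN (UPoly.const 2))
  exact UPoly.add (UPoly.add (UPoly.add (UPoly.mul (UPoly.add (UPoly.add
    (upoly_eh hN hσ hW hκ) h2) (UPoly.const 2)) (upoly_pow (UPoly.add hN (UPoly.const 2)) 4))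
      (upoly_eh hN hσ hW hκ)) h2) (UPoly.const 2)

variable {p : α → List ℕ × Fm} (hp : Poly p)

include hp

theorem poly_pS : Poly (fun a => pS (p a)) := poly_sysOf (poly_fnot (Poly.snd hp))

theorem poly_pV : Poly (fun a => pV (p a)) :=
  Poly.append (Poly.map (F := fun _ i => 2 * i) (Poly.fst hp)
    (Poly.mul (Poly.const 2) (Poly.snd Poly.id)))
    (Poly.flatMap (F := fun _ c => Con.vars c) (poly_pS hp) (poly_con_vars (Poly.snd Poly.id)))

theorem upoly_pN : UPoly (fun a => pN (p a)) := UPoly.add (UPoly.length (poly_pV hp)) (UPoly.const 1)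

theorem poly_pE : Poly (fun a => pE (p a)) :=
  Poly.map (F := fun a i => (pV (p a)).idxOf (2 * i)) (Poly.fst hp)
    (poly_idxOf (poly_pV (hp.comp (Poly.fst Poly.id))) (Poly.mul (Poly.const 2) (Poly.snd Poly.id)))

theorem upoly_pk : UPoly (fun a => pk (p a)) :=
  upoly_kap (UPoly.add (upoly_pN hp) (UPoly.const 1)) (UPoly.add (UPoly.length (poly_pS hp))
    (UPoly.add (UPoly.const 1) (UPoly.length (poly_pE hp))))

theorem upoly_pe : UPoly (fun a => pe (p a)) :=
  upoly_eE (upoly_pN hp) (UPoly.length (poly_pS hp)) (UPoly.length (poly_pE hp)) (upoly_pk hp)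

theorem upoly_T : UPoly (fun a => pN (p a) + 2) := UPoly.add (upoly_pN hp) (UPoly.const 2)

theorem upoly_T3 : UPoly (fun a => (pN (p a) + 2) ^ 3) := upoly_pow (upoly_T hp) 3

theorem upoly_pJ : UPoly (fun a => pJ (p a)) :=
  UPoly.mul (upoly_pe hp) (UPoly.add (UPoly.add (upoly_T3 hp) (upoly_pN hp)) (UPoly.const 3))

theorem upoly_oD : UPoly (fun a => oD (p a)) :=
  UPoly.add (UPoly.add (upoly_pN hp) (UPoly.const 1)) (UPoly.add (upoly_pJ hp) (UPoly.const 1))

theorem upoly_oS : UPoly (fun a => oS (p a)) :=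
  UPoly.add (upoly_oD hp) (UPoly.add (upoly_pk hp) (UPoly.const 2))

theorem upoly_ws : UPoly (fun a => ws (p a)) :=
  UPoly.add (UPoly.add (upoly_pN hp) (upoly_pk hp)) (UPoly.const 3)

theorem upoly_nP : UPoly (fun a => nP (p a)) :=
  UPoly.add (upoly_oS hp) (UPoly.mul (UPoly.add (upoly_pN hp) (UPoly.const 1)) (upoly_ws hp))

theorem poly_sl {i : α → ℕ} (hi : Poly i) : Poly (fun a => sl (p a) (i a)) :=
  Poly.add (upoly_oS hp).toPoly (Poly.mul hi (upoly_ws hp).toPoly)

theorem poly_tth {m : α → ℕ} (hm : Poly m) : Poly (fun a => tth (p a) (m a)) :=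
  poly_tvar (Poly.add (Poly.add (upoly_pN hp).toPoly (Poly.const 1))
    (Poly.mul (upoly_pe hp).toPoly (Poly.add hm (Poly.const 1))))

theorem poly_tq1 {b : α → ℕ} (hb : Poly b) : Poly (fun a => tq1 (p a) (b a)) :=
  poly_tadd (Poly.const _) (poly_sumT (Poly.map (F := fun a l => sq' (Tm.var (b a + l)))
    (upoly_pN hp).range (poly_sq' (poly_tvar (Poly.add (hb.comp (Poly.fst Poly.id))
      (Poly.snd Poly.id))))))

theorem poly_vb {b i : α → ℕ} (hb : Poly b) (hi : Poly i) :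
    Poly (fun a => Tm.var (b a + (pV (p a)).idxOf (i a))) :=
  poly_tvar (Poly.add hb (poly_idxOf (poly_pV hp) hi))

theorem poly_tC {b : α → ℕ} {c : α → ER.Con} (hb : Poly b) (hc : Poly c) :
    Poly (fun a => tC (p a) (b a) (c a)) := by
  have h0 : Poly (fun a => (c a).code) := poly_con_code hc
  have d0 : Poly (fun a => decide ((c a).code.1 = 0)) :=
    Poly.decide_eq (Poly.fst h0) (Poly.const 0)
  have d1 : Poly (fun a => decide ((c a).code.1 = 1)) :=
    Poly.decide_eq (Poly.fst h0) (Poly.const 1)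
  have e1 := poly_vb hp hb (Poly.fst (Poly.snd h0))
  have e2 := poly_vb hp hb (Poly.fst (Poly.snd (Poly.snd h0)))
  have e3 := poly_vb hp hb (Poly.snd (Poly.snd (Poly.snd h0)))
  exact Poly.ite d0 (poly_sb e1 (Poly.const _)) (Poly.ite d1 (poly_sb (poly_tadd e1 e2) e3)
    (poly_sb (poly_tmul e1 e2) e3))

theorem poly_tI {l i : α → ℕ} (hl : Poly l) (hi : Poly i) :
    Poly (fun a => tI (p a) (l a) (i a)) :=
  Poly.ite (Poly.decide_eq (poly_idxOf (poly_pV hp) hi) hl) (Poly.const _) (Poly.const _)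

theorem poly_tdC {b l : α → ℕ} {c : α → ER.Con} (hb : Poly b) (hl : Poly l) (hc : Poly c) :
    Poly (fun a => tdC (p a) (b a) (l a) (c a)) := by
  have h0 : Poly (fun a => (c a).code) := poly_con_code hc
  have d0 : Poly (fun a => decide ((c a).code.1 = 0)) :=
    Poly.decide_eq (Poly.fst h0) (Poly.const 0)
  have d1 : Poly (fun a => decide ((c a).code.1 = 1)) :=
    Poly.decide_eq (Poly.fst h0) (Poly.const 1)
  have e1 := poly_vb hp hb (Poly.fst (Poly.snd h0))
  have e2 := poly_vb hp hb (Poly.fst (Poly.snd (Poly.snd h0)))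
  have i1 := poly_tI hp hl (Poly.fst (Poly.snd h0))
  have i2 := poly_tI hp hl (Poly.fst (Poly.snd (Poly.snd h0)))
  have i3 := poly_tI hp hl (Poly.snd (Poly.snd (Poly.snd h0)))
  exact Poly.ite d0 i1 (Poly.ite d1 (poly_sb (poly_tadd i1 i2) i3)
    (poly_sb (poly_tadd (poly_tmul i1 e2) (poly_tmul e1 i2)) i3))

theorem poly_tG {b : α → ℕ} (hb : Poly b) : Poly (fun a => tG (p a) (b a)) :=
  poly_sumT (Poly.map (F := fun a c => sq' (tC (p a) (b a) c)) (poly_pS hp)
    (poly_sq' (poly_tC (hp.comp (Poly.fst Poly.id)) (hb.comp (Poly.fst Poly.id))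
      (Poly.snd Poly.id))))

theorem poly_tdG {b l : α → ℕ} (hb : Poly b) (hl : Poly l) :
    Poly (fun a => tdG (p a) (b a) (l a)) :=
  poly_sumT (Poly.map (F := fun a c => db (Tm.mul (tC (p a) (b a) c) (tdC (p a) (b a) (l a) c)))
    (poly_pS hp) (poly_db (poly_tmul (poly_tC (hp.comp (Poly.fst Poly.id))
      (hb.comp (Poly.fst Poly.id)) (Poly.snd Poly.id)) (poly_tdC (hp.comp (Poly.fst Poly.id))
        (hb.comp (Poly.fst Poly.id)) (hl.comp (Poly.fst Poly.id)) (Poly.snd Poly.id)))))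

theorem poly_tH {b : α → ℕ} (hb : Poly b) : Poly (fun a => tH (p a) (b a)) :=
  poly_tadd (poly_sumT (Poly.map (F := fun a e => sq' (Tm.var (b a + e))) (poly_pE hp)
    (poly_sq' (poly_tvar (Poly.add (hb.comp (Poly.fst Poly.id)) (Poly.snd Poly.id))))))
    (poly_tG hp hb)

theorem poly_tW {l : α → ℕ} {t : α → Tm} (hl : Poly l) (ht : Poly t) :
    Poly (fun a => tW (p a) (l a) (t a)) :=
  poly_sumT (Poly.map (F := fun a e => if e = l a then t a else Tm.zero) (poly_pE hp)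
    (Poly.ite (Poly.decide_eq (Poly.snd Poly.id) (hl.comp (Poly.fst Poly.id)))
      (ht.comp (Poly.fst Poly.id)) (Poly.const _)))

theorem poly_tdH {b l : α → ℕ} (hb : Poly b) (hl : Poly l) :
    Poly (fun a => tdH (p a) (b a) (l a)) :=
  poly_tadd (poly_tW hp hl (poly_db (poly_tvar (Poly.add hb hl)))) (poly_tdG hp hb hl)

theorem poly_tZ {b c : α → ℕ} (hb : Poly b) (hc : Poly c) : Poly (fun a => tZ (p a) (b a) (c a)) :=
  Poly.ite (Poly.decide_eq hc (Poly.const 0)) (Poly.const _) (Poly.ite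
    (Poly.decide_eq hc (Poly.const 1)) (poly_tH hp hb) (poly_tvar (Poly.add hb
      (Poly.sub hc (Poly.const 2)))))

theorem poly_tdZ {b l c : α → ℕ} (hb : Poly b) (hl : Poly l) (hc : Poly c) :
    Poly (fun a => tdZ (p a) (b a) (l a) (c a)) :=
  Poly.ite (Poly.decide_eq hc (Poly.const 0)) (Poly.const _) (Poly.ite
    (Poly.decide_eq hc (Poly.const 1)) (poly_tdH hp hb hl) (Poly.ite
      (Poly.decide_eq (Poly.sub hc (Poly.const 2)) hl) (Poly.const _) (Poly.const _)))

theorem poly_tB {b : α → ℕ} (hb : Poly b) : Poly (fun a => tB (p a) (b a)) :=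
  poly_tadd (poly_tadd (poly_sumT (Poly.map (F := fun a e => sq' (sb (Tm.var e)
    (Tm.var (b a + e)))) (poly_pE hp) (poly_sq' (poly_sb (poly_tvar (Poly.snd Poly.id))
      (poly_tvar (Poly.add (hb.comp (Poly.fst Poly.id)) (Poly.snd Poly.id)))))))
        (poly_tG hp hb)) (poly_tth hp (Poly.add (Poly.add (upoly_T3 hp).toPoly
          (upoly_pN hp).toPoly) (Poly.const 2)))

theorem poly_tdB {b l : α → ℕ} (hb : Poly b) (hl : Poly l) :
    Poly (fun a => tdB (p a) (b a) (l a)) :=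
  poly_sb (poly_tdH hp hb hl) (poly_tW hp hl (poly_db (poly_tvar hl)))

theorem poly_tZZ {b : α → ℕ} (hb : Poly b) : Poly (fun a => tZZ (p a) (b a)) :=
  poly_sumT (Poly.map (F := fun a c => sq' (tZ (p a) (b a) c)) (upoly_T hp).range
    (poly_sq' (poly_tZ (hp.comp (Poly.fst Poly.id)) (hb.comp (Poly.fst Poly.id))
      (Poly.snd Poly.id))))

theorem poly_r3 {c1 c2 c3 : α → ℕ} (h1 : Poly c1) (h2 : Poly c2) (h3 : Poly c3) :
    Poly (fun a => r3 (pN (p a) + 2) (c1 a) (c2 a) (c3 a)) :=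
  Poly.add (Poly.mul (Poly.add (Poly.mul h1 (upoly_T hp).toPoly) h2) (upoly_T hp).toPoly) h3

/-- A triple sum. -/
theorem poly_sum3 {f : α → ℕ → ℕ → ℕ → Tm}
    (hf : Poly (fun q : ((α × ℕ) × ℕ) × ℕ => f q.1.1.1 q.1.1.2 q.1.2 q.2)) :
    Poly (fun a => sumT ((List.range (pN (p a) + 2)).map fun a1 =>
      sumT ((List.range (pN (p a) + 2)).map fun a2 =>
        sumT ((List.range (pN (p a) + 2)).map fun a3 => f a a1 a2 a3)))) := by
  have hT := upoly_T hp
  refine poly_sumT (Poly.map (F := fun a a1 => sumT ((List.range (pN (p a) + 2)).map fun a2 =>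
        sumT ((List.range (pN (p a) + 2)).map fun a3 => f a a1 a2 a3))) hT.range ?_)
  refine poly_sumT (Poly.map (F := fun (q : α × ℕ) a2 =>
        sumT ((List.range (pN (p q.1) + 2)).map fun a3 => f q.1 q.2 a2 a3))
        (hT.comp (Poly.fst Poly.id)).range ?_)
  exact poly_sumT (Poly.map (F := fun (q : (α × ℕ) × ℕ) a3 => f q.1.1 q.1.2 q.2 a3)
        (hT.comp (Poly.fst (Poly.fst Poly.id))).range hf)

theorem poly_tM {b : α → ℕ} (hb : Poly b) : Poly (fun a => tM (p a) (b a)) := by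
  refine poly_tadd (poly_tmul (poly_nm (Poly.add (upoly_T3 hp).toPoly (Poly.const 1)))
    (poly_sq' (poly_tZZ hp hb))) (poly_sum3 hp (f := fun a a1 a2 a3 =>
      Tm.mul (tth (p a) (r3 (pN (p a) + 2) a1 a2 a3))
        (Tm.mul (Tm.mul (tZ (p a) (b a) a1) (tZ (p a) (b a) a2)) (tZ (p a) (b a) a3))) ?_)
  have c0 : Poly (fun q : ((α × ℕ) × ℕ) × ℕ => q.1.1.1) := Poly.fst (Poly.fst (Poly.fst Poly.id))
  have c1 : Poly (fun q : ((α × ℕ) × ℕ) × ℕ => q.1.1.2) := Poly.snd (Poly.fst (Poly.fst Poly.id))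
  have c2 : Poly (fun q : ((α × ℕ) × ℕ) × ℕ => q.1.2) := Poly.snd (Poly.fst Poly.id)
  have c3 : Poly (fun q : ((α × ℕ) × ℕ) × ℕ => q.2) := Poly.snd Poly.id
  have hp' := hp.comp c0
  have hb' := hb.comp c0
  exact poly_tmul (poly_tth hp' (poly_r3 hp' c1 c2 c3)) (poly_tmul (poly_tmul
    (poly_tZ hp' hb' c1) (poly_tZ hp' hb' c2)) (poly_tZ hp' hb' c3))

theorem poly_tdM {b l : α → ℕ} (hb : Poly b) (hl : Poly l) :
    Poly (fun a => tdM (p a) (b a) (l a)) := by
  refine poly_tadd (poly_tmul (poly_nm (Poly.add (upoly_T3 hp).toPoly (Poly.const 1)))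
    (poly_tmul (poly_db (poly_tZZ hp hb)) (poly_sumT (Poly.map (F := fun a c =>
      db (Tm.mul (tZ (p a) (b a) c) (tdZ (p a) (b a) (l a) c))) (upoly_T hp).range
        (poly_db (poly_tmul (poly_tZ (hp.comp (Poly.fst Poly.id)) (hb.comp (Poly.fst Poly.id))
          (Poly.snd Poly.id)) (poly_tdZ (hp.comp (Poly.fst Poly.id)) (hb.comp (Poly.fst Poly.id))
            (hl.comp (Poly.fst Poly.id)) (Poly.snd Poly.id)))))))) (poly_sum3 hp
      (f := fun a a1 a2 a3 => Tm.mul (tth (p a) (r3 (pN (p a) + 2) a1 a2 a3))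
        (Tm.add (Tm.add (Tm.mul (Tm.mul (tdZ (p a) (b a) (l a) a1) (tZ (p a) (b a) a2))
          (tZ (p a) (b a) a3))
          (Tm.mul (Tm.mul (tZ (p a) (b a) a1) (tdZ (p a) (b a) (l a) a2)) (tZ (p a) (b a) a3)))
          (Tm.mul (Tm.mul (tZ (p a) (b a) a1) (tZ (p a) (b a) a2))
            (tdZ (p a) (b a) (l a) a3)))) ?_)
  have c0 : Poly (fun q : ((α × ℕ) × ℕ) × ℕ => q.1.1.1) := Poly.fst (Poly.fst (Poly.fst Poly.id))
  have c1 : Poly (fun q : ((α × ℕ) × ℕ) × ℕ => q.1.1.2) := Poly.snd (Poly.fst (Poly.fst Poly.id))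
  have c2 : Poly (fun q : ((α × ℕ) × ℕ) × ℕ => q.1.2) := Poly.snd (Poly.fst Poly.id)
  have c3 : Poly (fun q : ((α × ℕ) × ℕ) × ℕ => q.2) := Poly.snd Poly.id
  have hp' := hp.comp c0
  have hb' := hb.comp c0
  have hl' := hl.comp c0
  have z1 := poly_tZ hp' hb' c1
  have z2 := poly_tZ hp' hb' c2
  have z3 := poly_tZ hp' hb' c3
  have d1 := poly_tdZ hp' hb' hl' c1
  have d2 := poly_tdZ hp' hb' hl' c2
  have d3 := poly_tdZ hp' hb' hl' c3
  exact poly_tmul (poly_tth hp' (poly_r3 hp' c1 c2 c3)) (poly_tadd (poly_tadd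
    (poly_tmul (poly_tmul d1 z2) z3) (poly_tmul (poly_tmul z1 d2) z3))
    (poly_tmul (poly_tmul z1 z2) d3))

theorem poly_tN : Poly (fun a => tN (p a)) :=
  poly_tadd (poly_tmul (poly_nm (upoly_T hp).toPoly) (poly_sq' (poly_tq1 hp (Poly.const 0))))
    (poly_tadd (poly_tth hp (upoly_T3 hp).toPoly) (poly_sumT (Poly.map (F := fun a l =>
      Tm.mul (tth (p a) ((pN (p a) + 2) ^ 3 + 1 + l)) (Tm.var l)) (upoly_pN hp).range
        (poly_tmul (poly_tth (hp.comp (Poly.fst Poly.id)) (Poly.add (Poly.add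
          ((upoly_T3 hp).toPoly.comp (Poly.fst Poly.id)) (Poly.const 1)) (Poly.snd Poly.id)))
            (poly_tvar (Poly.snd Poly.id))))))

theorem poly_tdN {l : α → ℕ} (hl : Poly l) : Poly (fun a => tdN (p a) (l a)) :=
  poly_tadd (poly_tmul (poly_nm (upoly_T hp).toPoly) (poly_tmul (poly_tmul
    (Poly.const _) (poly_tq1 hp (Poly.const 0))) (poly_tvar hl)))
    (poly_tth hp (Poly.add (Poly.add (upoly_T3 hp).toPoly (Poly.const 1)) hl))

theorem poly_tF {b u : α → ℕ} (hb : Poly b) (hu : Poly u) : Poly (fun a => tF (p a) (b a) (u a)) :=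
  poly_tmul (poly_tmul (poly_tM hp hb) (poly_tvar hu)) (poly_tB hp hb)

omit hp in
theorem poly_chn {b k : α → ℕ} (hb : Poly b) (hk : UPoly k) :
    Poly (fun a => chn (b a) (k a)) := by
  refine Poly.map (F := fun a j => Fm.eq (Tm.var (b a + j + 1)) (sq' (Tm.var (b a + j))))
    hk.range ?_
  have h1 : Poly (fun q : α × ℕ => b q.1 + q.2) :=
    Poly.add (hb.comp (Poly.fst Poly.id)) (Poly.snd Poly.id)
  exact poly_feq (poly_tvar (Poly.add h1 (Poly.const 1))) (poly_sq' (poly_tvar h1))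

omit hp in
theorem poly_dch {b k : α → ℕ} (hb : Poly b) (hk : UPoly k) :
    Poly (fun a => dch (b a) (k a)) := by
  refine Poly.map (F := fun a j => Fm.eq (Tm.var (b a + j + 1)) (db (Tm.var (b a + j))))
    hk.range ?_
  have h1 : Poly (fun q : α × ℕ => b q.1 + q.2) :=
    Poly.add (hb.comp (Poly.fst Poly.id)) (Poly.snd Poly.id)
  exact poly_feq (poly_tvar (Poly.add h1 (Poly.const 1))) (poly_db (poly_tvar h1))

theorem poly_fU {b : α → ℕ} (hb : Poly b) : Poly (fun a => fU (p a) (b a)) :=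
  Poly.cons (poly_feq (poly_tvar (Poly.add hb (upoly_pN hp).toPoly)) (poly_tq1 hp hb))
    (poly_chn (Poly.add hb (upoly_pN hp).toPoly) (upoly_pk hp))

theorem poly_fUsed {i : α → ℕ} (hi : Poly i) : Poly (fun a => fUsed (p a) (i a)) := by
  have hs := poly_sl hp hi
  have hs2 : Poly (fun a => sl (p a) (i a) + 2) := Poly.add hs (Poly.const 2)
  refine poly_conj (Poly.cons (poly_feq (poly_tvar hs) (Poly.const _)) (Poly.append
    (poly_fU hp hs2) (Poly.cons (poly_feq (poly_tF hp hs2 (Poly.add (Poly.add hs2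
      (upoly_pN hp).toPoly) (upoly_pk hp).toPoly)) (poly_tmul (poly_tvar (upoly_pN hp).toPoly)
        (poly_tN hp))) (Poly.map (F := fun a l => Fm.eq
        (Tm.add (Tm.mul (tq1 (p a) (sl (p a) (i a) + 2))
          (Tm.add (Tm.mul (tB (p a) (sl (p a) (i a) + 2)) (tdM (p a) (sl (p a) (i a) + 2) l))
            (Tm.mul (tM (p a) (sl (p a) (i a) + 2)) (tdB (p a) (sl (p a) (i a) + 2) l))))
          (Tm.mul (Tm.var (oD (p a) + (pk (p a) + 1)))
            (Tm.mul (Tm.mul (tM (p a) (sl (p a) (i a) + 2)) (tB (p a) (sl (p a) (i a) + 2)))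
              (Tm.var (sl (p a) (i a) + 2 + l)))))
        Tm.zero) (upoly_pN hp).range ?_))))
  have c0 : Poly (fun q : α × ℕ => q.1) := Poly.fst Poly.id
  have c1 : Poly (fun q : α × ℕ => q.2) := Poly.snd Poly.id
  have hp' := hp.comp c0
  have h2' := hs2.comp c0
  have tq := poly_tq1 hp' h2'
  have tb := poly_tB hp' h2'
  have tm := poly_tM hp' h2'
  exact poly_feq (poly_tadd (poly_tmul tq (poly_tadd (poly_tmul tb (poly_tdM hp' h2' c1))
    (poly_tmul tm (poly_tdB hp' h2' c1)))) (poly_tmul (poly_tvar (Poly.add (upoly_oD hp').toPoly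
      (Poly.add (upoly_pk hp').toPoly (Poly.const 1)))) (poly_tmul (poly_tmul tm tb)
        (poly_tvar (Poly.add h2' c1))))) (Poly.const _)

theorem poly_fUnused {i : α → ℕ} (hi : Poly i) : Poly (fun a => fUnused (p a) (i a)) :=
  poly_conj (Poly.map (F := fun a j => Fm.eq (Tm.var (sl (p a) (i a) + j)) Tm.zero)
    (upoly_ws hp).range (poly_feq (poly_tvar (Poly.add ((poly_sl hp hi).comp (Poly.fst Poly.id))
      (Poly.snd Poly.id))) (Poly.const _)))

theorem poly_fX : Poly (fun a => fX (p a)) := by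
  have hN1 : UPoly (fun a => pN (p a) + 1) := UPoly.add (upoly_pN hp) (UPoly.const 1)
  refine Poly.cons (poly_feq (poly_sumT (Poly.map (F := fun a i =>
      Tm.mul (Tm.var (sl (p a) i + 1)) (tB (p a) (sl (p a) i + 2))) hN1.range ?_)) (poly_tN hp))
      (Poly.map (F := fun a l => Fm.eq (db (sumT ((List.range (pN (p a) + 1)).map fun i =>
    Tm.mul (Tm.var (sl (p a) i + 1)) (tW (p a) l (sb (Tm.var l)
      (Tm.var (sl (p a) i + 2 + l))))))) (tdN (p a) l)) (upoly_pN hp).range ?_)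
  · have hp' := hp.comp (β := α) (Poly.fst (Poly.id (α := α × ℕ)))
    have hs := poly_sl hp' (Poly.snd Poly.id)
    exact poly_tmul (poly_tvar (Poly.add hs (Poly.const 1))) (poly_tB hp' (Poly.add hs
      (Poly.const 2)))
  · refine poly_feq (poly_db (poly_sumT (Poly.map (F := fun (q : α × ℕ) i =>
      Tm.mul (Tm.var (sl (p q.1) i + 1)) (tW (p q.1) q.2 (sb (Tm.var q.2)
      (Tm.var (sl (p q.1) i + 2 + q.2))))) (hN1.comp (Poly.fst Poly.id)).range ?_)))
      (poly_tdN (hp.comp (Poly.fst Poly.id)) (Poly.snd Poly.id))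
    have c0 : Poly (fun q : (α × ℕ) × ℕ => q.1.1) := Poly.fst (Poly.fst Poly.id)
    have c1 : Poly (fun q : (α × ℕ) × ℕ => q.1.2) := Poly.snd (Poly.fst Poly.id)
    have c2 : Poly (fun q : (α × ℕ) × ℕ => q.2) := Poly.snd Poly.id
    have hp' := hp.comp c0
    have hs := poly_sl hp' c2
    exact poly_tmul (poly_tvar (Poly.add hs (Poly.const 1))) (poly_tW hp' c1
      (poly_sb (poly_tvar c1) (poly_tvar (Poly.add (Poly.add hs (Poly.const 2)) c1))))

theorem poly_fK : Poly (fun a => fK (p a)) := by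
  have hN1 : Poly (fun a => pN (p a) + 1) := (UPoly.add (upoly_pN hp) (UPoly.const 1)).toPoly
  have hD := (upoly_oD hp).toPoly
  exact Poly.cons (poly_feq (poly_db (poly_tvar hN1)) (Poly.const _)) (Poly.append
    (poly_chn hN1 (upoly_pJ hp)) (Poly.cons (poly_feq (poly_tvar hD) (Poly.const _))
      (poly_dch hD (UPoly.add (upoly_pk hp) (UPoly.const 1)))))

theorem poly_fC : Poly (fun a => fC (p a)) := by
  have hN1 : UPoly (fun a => pN (p a) + 1) := UPoly.add (upoly_pN hp) (UPoly.const 1)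
  refine poly_conj (Poly.append (poly_fK hp) (Poly.append (poly_fX hp) (Poly.map
    (F := fun a i => Fm.or (fUsed (p a) i) (fUnused (p a) i)) hN1.range ?_)))
  exact poly_for (poly_fUsed (hp.comp (Poly.fst Poly.id)) (Poly.snd Poly.id))
    (poly_fUnused (hp.comp (Poly.fst Poly.id)) (Poly.snd Poly.id))

theorem poly_fB : Poly (fun a => fB (p a)) := by
  have hn := (upoly_nP hp).toPoly
  exact poly_conj (Poly.append (poly_fU hp hn) (Poly.cons (poly_fle (poly_tF hp hn (Poly.add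
    (Poly.add hn (upoly_pN hp).toPoly) (upoly_pk hp).toPoly)) (poly_tmul (poly_tth hp
      (Poly.add (Poly.add (upoly_T3 hp).toPoly (upoly_pN hp).toPoly) (Poly.const 1)))
        (poly_tN hp))) (Poly.const _)))

omit hp in
theorem poly_sCon {a b : α → ℕ} {vl : α → List ℕ} {c : α → ER.Con} (ha : Poly a) (hb : Poly b)
    (hvl : Poly vl) (hc : Poly c) : Poly (fun x => sCon (a x) (b x) (vl x) (c x)) := by
  have h0 : Poly (fun x => (c x).code) := poly_con_code hc
  have d0 : Poly (fun x => decide ((c x).code.1 = 0)) :=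
    Poly.decide_eq (Poly.fst h0) (Poly.const 0)
  have d1 : Poly (fun x => decide ((c x).code.1 = 1)) :=
    Poly.decide_eq (Poly.fst h0) (Poly.const 1)
  have e1 := poly_tvar (Poly.add hb (poly_idxOf hvl (Poly.fst (Poly.snd h0))))
  have e2 := poly_tvar (Poly.add hb (poly_idxOf hvl (Poly.fst (Poly.snd (Poly.snd h0)))))
  have e3 := poly_tvar (Poly.add hb (poly_idxOf hvl (Poly.snd (Poly.snd (Poly.snd h0)))))
  refine (Poly.ite d0 (poly_feq e1 (poly_tvar ha)) (Poly.ite d1 (poly_feq (poly_tadd e1 e2) e3)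
    (poly_feq (poly_tmul e1 e2) (poly_tmul (poly_tvar ha) e3)))).congr fun x => ?_
  cases c x <;> simp [Con.code, sCon]

omit hp in
theorem poly_cvl {n : α → ℕ} {ψ : α → Fm} (hn : UPoly n) (hψ : Poly ψ) :
    Poly (fun a => cvl (n a) (ψ a)) :=
  Poly.append (Poly.map (F := fun _ i => 2 * i) hn.range
    (Poly.mul (Poly.const 2) (Poly.snd Poly.id)))
    (Poly.flatMap (F := fun _ c => Con.vars c) (poly_sysOf hψ) (poly_con_vars (Poly.snd Poly.id)))

omit hp in
theorem upoly_cdim {n : α → ℕ} {ψ : α → Fm} (hn : UPoly n) (hψ : Poly ψ) :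
    UPoly (fun a => cdim (n a) (ψ a)) :=
  UPoly.add (UPoly.add hn (UPoly.const 1)) (UPoly.length (poly_cvl hn hψ))

omit hp in
theorem poly_coneF {n : α → ℕ} {χ ψ : α → Fm} (hn : UPoly n) (hχ : Poly χ) (hψ : Poly ψ) :
    Poly (fun a => coneF (n a) (χ a) (ψ a)) := by
  have hv := poly_cvl hn hψ
  have hn' := hn.toPoly
  have hn1 : Poly (fun a => n a + 1) := Poly.add hn' (Poly.const 1)
  refine poly_fand hχ (poly_for (poly_fand (poly_feq (poly_tvar hn') (Poly.const _))
    (poly_conj (Poly.map (F := fun a j => Fm.eq (Tm.var (n a + 1 + j)) Tm.zero)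
      (UPoly.length hv).range ?_))) (poly_fand (poly_flt (Poly.const _) (poly_tvar hn'))
        (poly_fand (poly_conj (Poly.map (F := fun a c => sCon (n a) (n a + 1)
          (cvl (n a) (ψ a)) c) (poly_sysOf hψ) ?_)) (poly_conj (Poly.map (F := fun a i =>
          Fm.eq (Tm.var (n a + 1 + i)) (Tm.mul (Tm.var (n a)) (Tm.var i))) hn.range ?_)))))
  · exact poly_feq (poly_tvar (Poly.add (hn1.comp (Poly.fst Poly.id)) (Poly.snd Poly.id)))
      (Poly.const _)
  · exact poly_sCon (hn'.comp (Poly.fst Poly.id)) (hn1.comp (Poly.fst Poly.id))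
      (hv.comp (Poly.fst Poly.id)) (Poly.snd Poly.id)
  · exact poly_feq (poly_tvar (Poly.add (hn1.comp (Poly.fst Poly.id)) (Poly.snd Poly.id)))
      (poly_tmul (poly_tvar (hn'.comp (Poly.fst Poly.id))) (poly_tvar (Poly.snd Poly.id)))

theorem poly_inst : Poly (fun a => inst (p a)) :=
  Poly.pair (upoly_cdim (upoly_nP hp) (poly_fB hp))
    (poly_coneF (upoly_nP hp) (poly_fC hp) (poly_fB hp))

end

end Pool.Agent.NPC.U7Iso
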