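import Pool.Agent.R537.HD.Defs

/-!
# The isolated point existence problem
-/

namespace Pool.Agent.NPC.U7Iso

open Pool.Agent.NPC.ER Pool.Agent.NPC.R537HD

/-- **ISOLATED-POINT-EXISTENCE.** An instance is the dimension `n` (written in unary, as a list of
length `n`) and a quantifier-free formula `φ`.  The semialgebraic set `S ⊆ ℝⁿ` given by `φ` has an
isolated point, that is, a point `x ∈ S` such that some open ball with centre `x` meets `S` only in
`x`. -/
def IsoPoint (I : List Unit × Fm) : Prop :=
  ∃ x ∈ semi I.1.length I.2, ∃ ε > 0, Metric.ball x ε ∩ semi I.1.length I.2 = {x}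

end Pool.Agent.NPC.U7Iso
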