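import Mathlib
import Pool.Agent.U7.Iso.ProbDef
import Pool.Agent.ER.Dec
import Pool.Agent.U7.Iso.Corr
import Pool.Agent.U7.Iso.PolyI

/-!
# Existence of an isolated point is `∃∀ℝ`-complete
-/

set_option autoImplicit false
set_option linter.unusedSimpArgs false

namespace Pool.Agent.NPC.U7Iso

open Pool.Agent.NPC Pool.Agent.NPC.ER Pool.Agent.NPC.H612 Pool.Agent.U7.Iso
open Pool.Agent.NPC.R537HD (asg semi)

theorem asg_of {n : ℕ} {v : ℕ → ℝ} (hv : ∀ i, n ≤ i → v i = 0) :
    asg (WithLp.toLp 2 (fun j : Fin n => v j) : EuclideanSpace ℝ (Fin n)) = v := by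
  funext i
  unfold asg
  split_ifs with h
  · rfl
  · exact (hv i (by omega)).symm

theorem asg_zero {n : ℕ} (x : EuclideanSpace ℝ (Fin n)) (i : ℕ) (hi : n ≤ i) : asg x i = 0 :=
  dif_neg (by omega)

theorem asg_fin {n : ℕ} (x : EuclideanSpace ℝ (Fin n)) (i : Fin n) : asg x i = x i :=
  dif_pos i.2

/-- The formulation with assignments. -/
theorem isoPoint_iff (I : List Unit × Fm) : IsoPoint I ↔ IsoN I.1.length I.2 := by
  obtain ⟨u, φ⟩ := I
  unfold IsoPoint IsoN
  simp only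
  generalize u.length = n
  constructor
  · rintro ⟨x, hx, ε, hε, hball⟩
    refine ⟨asg x, asg_zero x, hx, ε / (n + 1), by positivity, fun y hy0 hy hclose i hi => ?_⟩
    obtain ⟨z, hz⟩ : ∃ z : EuclideanSpace ℝ (Fin n), z = WithLp.toLp 2 (fun j : Fin n => y j) :=
      ⟨_, rfl⟩
    have hzy : asg z = y := by rw [hz]; exact asg_of hy0
    have hzS : z ∈ semi n φ := by
      change φ.Holds (asg z)
      rw [hzy]; exact hy
    have hdist : dist z x < ε := by
      rw [EuclideanSpace.dist_eq]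
      have h1 : ∑ j, dist (z j) (x j) ^ 2 ≤ ∑ _j : Fin n, (ε / (n + 1)) ^ 2 := by
        refine Finset.sum_le_sum fun j _ => ?_
        have h2 := hclose j j.2
        rw [← hzy, asg_fin, asg_fin, ← Real.dist_eq] at h2
        exact pow_le_pow_left₀ dist_nonneg h2.le 2
      rw [Finset.sum_const, Finset.card_univ, Fintype.card_fin, nsmul_eq_mul] at h1
      have h3 : (n : ℝ) * (ε / (n + 1)) ^ 2 < ε ^ 2 := by
        rw [div_pow, mul_div_assoc', div_lt_iff₀ (by positivity)]
        have h4 : (n : ℝ) < (n + 1) ^ 2 := by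
          have : (0 : ℝ) ≤ n := Nat.cast_nonneg n
          nlinarith
        have h5 : 0 < ε ^ 2 := by positivity
        nlinarith
      rw [Real.sqrt_lt' hε]
      linarith
    have hmem : z ∈ Metric.ball x ε ∩ semi n φ := ⟨hdist, hzS⟩
    rw [hball, Set.mem_singleton_iff] at hmem
    rw [← hzy, hmem]
  · rintro ⟨v, hv0, hv, δ, hδ, hiso⟩
    obtain ⟨x, hx⟩ : ∃ x : EuclideanSpace ℝ (Fin n), x = WithLp.toLp 2 (fun j : Fin n => v j) :=
      ⟨_, rfl⟩
    have hxv : asg x = v := by rw [hx]; exact asg_of hv0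
    have hxS : x ∈ semi n φ := by
      change φ.Holds (asg x)
      rw [hxv]; exact hv
    refine ⟨x, hxS, δ, hδ, ?_⟩
    refine Set.eq_singleton_iff_unique_mem.2 ⟨⟨Metric.mem_ball_self hδ, hxS⟩, ?_⟩
    rintro y ⟨hy1, hy2⟩
    have h1 := hiso (asg y) (asg_zero y) hy2 fun i hi => by
      rw [← hxv]
      have h2 := asg_fin y ⟨i, hi⟩
      have h3 := asg_fin x ⟨i, hi⟩
      simp only at h2 h3
      rw [h2, h3]
      have h4 : ‖(y - x) ⟨i, hi⟩‖ ≤ ‖y - x‖ := PiLp.norm_apply_le (y - x) ⟨i, hi⟩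
      rw [Metric.mem_ball, dist_eq_norm] at hy1
      exact lt_of_le_of_lt h4 hy1
    ext i
    rw [← asg_fin, ← asg_fin, hxv]
    exact h1 i i.2

/-! ### Hardness -/

theorem iso_hard : EARHard (lang IsoPoint) := by
  refine EARHard.of_poly (F := inst) (poly_inst Poly.id) fun p => ?_
  rw [isoPoint_iff, inst_iff]
  simp [inst]

/-! ### Membership -/

/-- Renaming of the variables of a term. -/
def rnT (n c : ℕ) : Tm → Tm
  | .var i => if i < n then Tm.var (2 * i + c) else Tm.zero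
  | .zero => Tm.zero
  | .one => Tm.one
  | .add s t => Tm.add (rnT n c s) (rnT n c t)
  | .neg t => Tm.neg (rnT n c t)
  | .mul s t => Tm.mul (rnT n c s) (rnT n c t)

/-- Renaming of the variables of a formula. -/
def rnF (n c : ℕ) : Fm → Fm
  | .eq s t => Fm.eq (rnT n c s) (rnT n c t)
  | .lt s t => Fm.lt (rnT n c s) (rnT n c t)
  | .le s t => Fm.le (rnT n c s) (rnT n c t)
  | .not φ => Fm.not (rnF n c φ)
  | .and φ ψ => Fm.and (rnF n c φ) (rnF n c ψ)
  | .or φ ψ => Fm.or (rnF n c φ) (rnF n c ψ)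

/-- Renaming of symbols. -/
def rnTok (n c : ℕ) (t : Tok) : List Tok :=
  if t.code.1 = 0 then (if t.code.2 < n then [Tok.var (2 * t.code.2 + c)] else [Tok.zero])
  else [t]

theorem toks_rnT (n c : ℕ) (t : Tm) : (rnT n c t).toks = t.toks.flatMap (rnTok n c) := by
  induction t with
  | var i =>
    have h : rnTok n c (Tok.var i) = if i < n then [Tok.var (2 * i + c)] else [Tok.zero] := rfl
    have h2 : (Tm.var i).toks.flatMap (rnTok n c) = rnTok n c (Tok.var i) := by
      simp [Tm.toks]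
    rw [h2, h]
    unfold rnT
    split_ifs <;> rfl
  | zero => rfl
  | one => rfl
  | add s t h1 h2 => simp [rnT, Tm.toks, h1, h2, rnTok, Tok.code]
  | neg s h1 => simp [rnT, Tm.toks, h1, rnTok, Tok.code]
  | mul s t h1 h2 => simp [rnT, Tm.toks, h1, h2, rnTok, Tok.code]

theorem toks_rnF (n c : ℕ) (φ : Fm) : (rnF n c φ).toks = φ.toks.flatMap (rnTok n c) := by
  induction φ with
  | eq s t => simp [rnF, Fm.toks, toks_rnT, rnTok, Tok.code]
  | lt s t => simp [rnF, Fm.toks, toks_rnT, rnTok, Tok.code]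
  | le s t => simp [rnF, Fm.toks, toks_rnT, rnTok, Tok.code]
  | not φ h1 => simp [rnF, Fm.toks, h1, rnTok, Tok.code]
  | and φ ψ h1 h2 => simp [rnF, Fm.toks, h1, h2, rnTok, Tok.code]
  | or φ ψ h1 h2 => simp [rnF, Fm.toks, h1, h2, rnTok, Tok.code]

/-- A block of variables. -/
def blk (n c : ℕ) (v : ℕ → ℝ) (i : ℕ) : ℝ := if i < n then v (2 * i + c) else 0

theorem eval_rnT (n c : ℕ) (v : ℕ → ℝ) (t : Tm) : (rnT n c t).eval v = t.eval (blk n c v) := by
  induction t with
  | var i =>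
    simp only [rnT, Tm.eval, blk]
    split_ifs <;> rfl
  | zero => rfl
  | one => rfl
  | add s t h1 h2 => simp [rnT, Tm.eval, h1, h2]
  | neg s h1 => simp [rnT, Tm.eval, h1]
  | mul s t h1 h2 => simp [rnT, Tm.eval, h1, h2]

theorem holds_rnF (n c : ℕ) (v : ℕ → ℝ) (φ : Fm) :
    (rnF n c φ).Holds v ↔ φ.Holds (blk n c v) := by
  induction φ with
  | eq s t => simp [rnF, Fm.Holds, eval_rnT]
  | lt s t => simp [rnF, Fm.Holds, eval_rnT]
  | le s t => simp [rnF, Fm.Holds, eval_rnT]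
  | not φ h1 => simp [rnF, Fm.Holds, h1]
  | and φ ψ h1 h2 => simp [rnF, Fm.Holds, h1, h2]
  | or φ ψ h1 h2 => simp [rnF, Fm.Holds, h1, h2]

/-- The matrix of the sentence. -/
def isoM (n : ℕ) (φ : Fm) : Fm :=
  Fm.and (rnF n 0 φ) (Fm.and (Fm.lt Tm.zero (Tm.var (2 * n)))
    (Fm.or (Fm.not (rnF n 1 φ)) (Fm.or
      (Fm.not (conj ((List.range n).map fun i =>
        Fm.lt (sq' (sb (Tm.var (2 * i + 1)) (Tm.var (2 * i)))) (sq' (Tm.var (2 * n))))))
      (conj ((List.range n).map fun i => Fm.eq (Tm.var (2 * i + 1)) (Tm.var (2 * i)))))))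

/-- The sentence. -/
def isoS (I : List Unit × Fm) : List ℕ × Fm :=
  ((List.range (I.1.length + 1)).map (fun i => 2 * i), isoM I.1.length I.2)

theorem holds_isoM (n : ℕ) (φ : Fm) (v : ℕ → ℝ) : (isoM n φ).Holds v ↔
    φ.Holds (blk n 0 v) ∧ 0 < v (2 * n) ∧ (φ.Holds (blk n 1 v) →
      (∀ i < n, (v (2 * i + 1) - v (2 * i)) ^ 2 < v (2 * n) ^ 2) →
        ∀ i < n, v (2 * i + 1) = v (2 * i)) := by
  unfold isoM
  simp only [Fm.Holds, holds_rnF, holds_conj, Tm.eval]
  simp only [List.mem_map, List.mem_range, forall_exists_index, and_imp,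
      forall_apply_eq_imp_iff₂, Fm.Holds, eval_sq', eval_sb, Tm.eval]
  tauto

theorem isoS_iff (I : List Unit × Fm) : IsoPoint I ↔ EAR (isoS I) := by
  rw [isoPoint_iff]
  obtain ⟨u, φ⟩ := I
  unfold IsoN EAR isoS
  simp only [holds_isoM]
  generalize u.length = n
  set E := (List.range (n + 1)).map (fun i => 2 * i) with hE
  have memE : ∀ i, 2 * i ∈ E ↔ i ≤ n := by
    intro i
    rw [hE]
    simp only [List.mem_map, List.mem_range]
    constructor
    · rintro ⟨j, hj, h⟩; omega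
    · intro h; exact ⟨i, by omega, rfl⟩
  have memE' : ∀ i, 2 * i + 1 ∉ E := by
    intro i
    rw [hE]
    simp only [List.mem_map, List.mem_range]
    rintro ⟨j, hj, h⟩; omega
  have m0 : ∀ (x y : ℕ → ℝ) (i : ℕ), i ≤ n → mixv E x y (2 * i) = x (2 * i) := fun x y i hi => by
    unfold mixv; rw [if_pos ((memE i).2 hi)]
  have m1 : ∀ (x y : ℕ → ℝ) (i : ℕ), mixv E x y (2 * i + 1) = y (2 * i + 1) := fun x y i => by
    unfold mixv; rw [if_neg (memE' i)]
  have b0 : ∀ x y : ℕ → ℝ, blk n 0 (mixv E x y) = blk n 0 x := by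
    intro x y
    funext i
    unfold blk
    split_ifs with h
    · exact m0 x y i h.le
    · rfl
  have b1 : ∀ x y : ℕ → ℝ, blk n 1 (mixv E x y) = blk n 1 y := by
    intro x y
    funext i
    unfold blk
    split_ifs with h
    · exact m1 x y i
    · rfl
  simp only [b0, b1, m1]
  constructor
  · rintro ⟨x, hx0, hx, δ, hδ, hiso⟩
    obtain ⟨X, hX⟩ : ∃ X : ℕ → ℝ, ∀ i, X i = if i = 2 * n then δ else x (i / 2) := ⟨_, fun _ => rfl⟩
    have X1 : ∀ i < n, X (2 * i) = x i := fun i hi => by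
      rw [hX, if_neg (by omega)]; congr 1; omega
    have X2 : X (2 * n) = δ := by rw [hX, if_pos rfl]
    have X3 : blk n 0 X = x := by
      funext i
      unfold blk
      split_ifs with h
      · exact X1 i h
      · exact (hx0 i (by omega)).symm
    refine ⟨X, fun y => ?_⟩
    rw [X3, m0 _ _ n le_rfl, X2]
    refine ⟨hx, hδ, fun hy hclose i hi => ?_⟩
    have h1 := hiso (blk n 1 y) (fun j hj => if_neg (by omega)) hy (fun j hj => by
      have h2 := hclose j hj
      rw [m0 _ _ j hj.le, X1 j hj] at h2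
      have h3 : blk n 1 y j = y (2 * j + 1) := if_pos hj
      rw [h3]
      exact abs_lt_of_sq_lt_sq h2 hδ.le) i hi
    have h3 : blk n 1 y i = y (2 * i + 1) := if_pos hi
    rw [m0 _ _ i hi.le, X1 i hi, ← h1, h3]
  · rintro ⟨X, hX⟩
    have hX' := hX
    simp only [m0 _ _ n le_rfl] at hX
    refine ⟨blk n 0 X, fun i hi => if_neg (by omega), (hX 0).1, X (2 * n), (hX 0).2.1, ?_⟩
    intro y hy0 hy hclose i hi
    obtain ⟨Y, hY⟩ : ∃ Y : ℕ → ℝ, ∀ i, Y i = y (i / 2) := ⟨_, fun _ => rfl⟩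
    have Y1 : ∀ i, Y (2 * i + 1) = y i := fun i => by rw [hY]; congr 1; omega
    have Y2 : blk n 1 Y = y := by
      funext i
      unfold blk
      split_ifs with h
      · exact Y1 i
      · exact (hy0 i (by omega)).symm
    have h1 := (hX Y).2.2
    rw [Y2] at h1
    have h2 := h1 hy (fun j hj => by
      rw [m0 _ _ j hj.le, Y1]
      have h3 := hclose j hj
      have h4 : blk n 0 X j = X (2 * j) := if_pos hj
      rw [h4] at h3
      exact sq_lt_sq.2 (by rwa [abs_of_pos (hX 0).2.1])) i hi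
    rw [m0 _ _ i hi.le, Y1] at h2
    have h4 : blk n 0 X i = X (2 * i) := if_pos hi
    rw [h4, h2]

section

variable {α : Type} [TEnc α]

theorem poly_rnTok {n : α → ℕ} (c : ℕ) {t : α → Tok} (hn : Poly n) (ht : Poly t) :
    Poly (fun a => rnTok (n a) c (t a)) := by
  have h0 := poly_tok_code ht
  have hi := Poly.snd h0
  exact Poly.ite (Poly.decide_eq (Poly.fst h0) (Poly.const 0))
    (Poly.ite (Poly.decide_lt hi hn) (Poly.cons (poly_tok_var' (Poly.add (Poly.mul
      (Poly.const 2) hi) (Poly.const c))) (Poly.const _)) (Poly.const _))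
    (Poly.cons ht (Poly.const _))

theorem poly_rnF {n : α → ℕ} (c : ℕ) {φ : α → Fm} (hn : Poly n) (hφ : Poly φ) :
    Poly (fun a => rnF (n a) c (φ a)) := by
  refine fm_of_toks (Poly.congr (f := fun a => (φ a).toks.flatMap (rnTok (n a) c)) ?_
    fun a => (toks_rnF _ _ _).symm)
  exact Poly.flatMap (F := fun a t => rnTok (n a) c t) (fm_toks hφ)
    (poly_rnTok c (hn.comp (Poly.fst Poly.id)) (Poly.snd Poly.id))

theorem poly_isoM {n : α → ℕ} {φ : α → Fm} (hn : UPoly n) (hφ : Poly φ) :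
    Poly (fun a => isoM (n a) (φ a)) := by
  have h2n : Poly (fun a => 2 * n a) := Poly.mul (Poly.const 2) hn.toPoly
  have hi : Poly (fun q : α × ℕ => 2 * q.2) := Poly.mul (Poly.const 2) (Poly.snd Poly.id)
  have hv1 := poly_tvar (Poly.add hi (Poly.const 1))
  have hv0 := poly_tvar hi
  refine poly_fand (poly_rnF 0 hn.toPoly hφ) (poly_fand (poly_flt (Poly.const _) (poly_tvar h2n))
    (poly_for (poly_fnot (poly_rnF 1 hn.toPoly hφ)) (poly_for (poly_fnot (poly_conj
      (Poly.map (F := fun a i => Fm.lt (sq' (sb (Tm.var (2 * i + 1)) (Tm.var (2 * i))))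
        (sq' (Tm.var (2 * n a)))) hn.range ?_))) (poly_conj (Poly.map (F := fun _ i =>
          Fm.eq (Tm.var (2 * i + 1)) (Tm.var (2 * i))) hn.range ?_)))))
  · exact poly_flt (poly_sq' (poly_sb hv1 hv0)) (poly_sq' (poly_tvar (h2n.comp
      (Poly.fst Poly.id))))
  · exact poly_feq hv1 hv0

end

theorem poly_isoS : Poly isoS := by
  have hI : Poly (fun I : List Unit × Fm => I) := Poly.id
  have hn : UPoly (fun I : List Unit × Fm => I.1.length) := UPoly.length (Poly.fst hI)
  exact Poly.pair (Poly.map (F := fun _ i => 2 * i) (UPoly.add hn (UPoly.const 1)).range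
    (Poly.mul (Poly.const 2) (Poly.snd Poly.id))) (poly_isoM hn (Poly.snd hI))

theorem iso_mem : InEAR (lang IsoPoint) := InEAR.of_poly poly_isoS isoS_iff

/-- **Existence of an isolated point is `∃∀ℝ`-complete.** -/
theorem iso_complete : EARComplete (lang IsoPoint) := ⟨iso_mem, iso_hard⟩

end Pool.Agent.NPC.U7Iso
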